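import Pool.Agent.Lib.MP_1c66c9_an.PTDefs

/-!
Banach modules and bimodules over a C*-algebra, projectivity, admissible resolutions,
global homological dimension and homological bidimension: the definitions used by the final
statement (with plain functions).
-/

namespace Pool.MP_1c66c9_an

universe u

/-- A left Banach `A`-module: a complex Banach space with a bounded bilinear associative left
action of `A`. -/
structure LeftMod (A : Type u) [NonUnitalCStarAlgebra A] where
  /-- the underlying Banach space -/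
  X : Type u
  [ng : NormedAddCommGroup X]
  [ns : NormedSpace ℂ X]
  [cs : CompleteSpace X]
  /-- the action `(a, x) ↦ a x` -/
  act : A → X → X
  act_bilin : IsBoundedBilinearMap ℂ fun p : A × X => act p.1 p.2
  act_mul : ∀ a b x, act (a * b) x = act a (act b x)

attribute [instance] LeftMod.ng LeftMod.ns LeftMod.cs

/-- A Banach `A`-bimodule: a complex Banach space with commuting bounded bilinear associative
left and right actions of `A`. -/
structure BiMod (A : Type u) [NonUnitalCStarAlgebra A] where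
  /-- the underlying Banach space -/
  X : Type u
  [ng : NormedAddCommGroup X]
  [ns : NormedSpace ℂ X]
  [cs : CompleteSpace X]
  /-- the left action `(a, x) ↦ a x` -/
  lact : A → X → X
  /-- the right action `(a, x) ↦ x a` -/
  ract : A → X → X
  lact_bilin : IsBoundedBilinearMap ℂ fun p : A × X => lact p.1 p.2
  ract_bilin : IsBoundedBilinearMap ℂ fun p : A × X => ract p.1 p.2
  lact_mul : ∀ a b x, lact (a * b) x = lact a (lact b x)
  ract_mul : ∀ a b x, ract (a * b) x = ract b (ract a x)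
  lact_ract : ∀ a b x, lact a (ract b x) = ract b (lact a x)

attribute [instance] BiMod.ng BiMod.ns BiMod.cs

variable {A : Type u} [NonUnitalCStarAlgebra A]

namespace LeftMod

/-- The action of `A₊` on a left module: `(λ + a) x = λ x + a x`. -/
def actU (X : LeftMod A) (a : Unitization ℂ A) (x : X.X) : X.X := a.fst • x + X.act a.snd x

/-- The Banach space `A₊ ⊗̂ X`. -/
abbrev Free (X : LeftMod A) : Type u := PT (Unitization ℂ A) X.X

/-- `π` is the canonical map `A₊ ⊗̂ X → X`, `u ⊗ x ↦ u x`. (It exists and is unique.) -/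
def IsCan (X : LeftMod A) (π : X.Free → X.X) : Prop :=
  IsBoundedLinearMap ℂ π ∧ ∀ u x, π (tm u x) = X.actU u x

/-- `L` is the action of `a ∈ A` on `A₊ ⊗̂ X`: `a (u ⊗ x) = (a u) ⊗ x`. (It exists and is
unique.) -/
def IsAct (X : LeftMod A) (a : A) (L : X.Free → X.Free) : Prop :=
  IsBoundedLinearMap ℂ L ∧ ∀ u x, L (tm u x) = tm (a * u) x

/-- `X` is projective: the canonical map `π : A₊ ⊗̂ X → X` has a right inverse `ρ` which is a
bounded morphism of left `A`-modules. -/
def IsProjective (X : LeftMod A) : Prop :=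
  ∃ (π : X.Free → X.X) (ρ : X.X → X.Free), X.IsCan π ∧ IsBoundedLinearMap ℂ ρ ∧
    (∀ a, ∃ L, X.IsAct a L ∧ ∀ x, ρ (X.act a x) = L (ρ x)) ∧ ∀ x, π (ρ x) = x

/-- An admissible projective resolution `0 ← X ← P₀ ← P₁ ← ⋯ ← Pₙ ← 0` of length `n` of the left
Banach module `X`: a complex of left Banach modules and bounded module morphisms with all `Pᵢ`
projective, `Pᵢ = 0` for `i > n`, which splits as a complex of Banach spaces (it has a bounded
linear contracting homotopy `σ, s₀, s₁, …`). -/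
structure Res (X : LeftMod A) (n : ℕ) where
  P : ℕ → LeftMod A
  proj : ∀ i, (P i).IsProjective
  zero : ∀ i, n < i → Subsingleton (P i).X
  /-- the augmentation `P₀ → X` -/
  ε : (P 0).X → X.X
  /-- the differentials `Pᵢ₊₁ → Pᵢ` -/
  d : ∀ i, (P (i + 1)).X → (P i).X
  ε_bdd : IsBoundedLinearMap ℂ ε
  d_bdd : ∀ i, IsBoundedLinearMap ℂ (d i)
  ε_hom : ∀ a x, ε ((P 0).act a x) = X.act a (ε x)
  d_hom : ∀ i a x, d i ((P (i + 1)).act a x) = (P i).act a (d i x)
  ε_d : ∀ x, ε (d 0 x) = 0
  d_d : ∀ i x, d i (d (i + 1) x) = 0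
  σ : X.X → (P 0).X
  s : ∀ i, (P i).X → (P (i + 1)).X
  σ_bdd : IsBoundedLinearMap ℂ σ
  s_bdd : ∀ i, IsBoundedLinearMap ℂ (s i)
  ε_σ : ∀ x, ε (σ x) = x
  homotopy_zero : ∀ x, σ (ε x) + d 0 (s 0 x) = x
  homotopy_succ : ∀ i x, s i (d i x) + d (i + 1) (s (i + 1) x) = x

/-- The homological dimension `dh X`: the least length of an admissible projective resolution
(`⊤` if there is no such resolution of finite length). -/
noncomputable def dh (X : LeftMod A) : ℕ∞ :=
  ⨅ (n : ℕ) (_ : Nonempty (Res X n)), (n : ℕ∞)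

end LeftMod

variable (A) in
/-- The global homological dimension of `A`: the supremum of `dh X` over all left Banach
`A`-modules `X`. -/
noncomputable def dg : ℕ∞ := ⨆ X : LeftMod A, X.dh

namespace BiMod

/-- The left action of `A₊`. -/
def lactU (X : BiMod A) (a : Unitization ℂ A) (x : X.X) : X.X := a.fst • x + X.lact a.snd x

/-- The right action of `A₊`. -/
def ractU (X : BiMod A) (a : Unitization ℂ A) (x : X.X) : X.X := a.fst • x + X.ract a.snd x

/-- The Banach space `A₊ ⊗̂ (M ⊗̂ A₊)`. -/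
def Free (M : BiMod A) : Type u := PT (Unitization ℂ A) (PT M.X (Unitization ℂ A))

noncomputable instance (M : BiMod A) : NormedAddCommGroup M.Free :=
  instNormedAddCommGroupPT (E := Unitization ℂ A) (F := PT M.X (Unitization ℂ A))

noncomputable instance (M : BiMod A) : NormedSpace ℂ M.Free :=
  instNormedSpaceComplexPT (E := Unitization ℂ A) (F := PT M.X (Unitization ℂ A))

/-- The elementary tensor `u ⊗ (m ⊗ v)` in `A₊ ⊗̂ (M ⊗̂ A₊)`. -/
noncomputable def tm3 (M : BiMod A) (u : Unitization ℂ A) (m : M.X) (v : Unitization ℂ A) :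
    M.Free := tm u (tm m v)

/-- `π` is the canonical map `A₊ ⊗̂ (M ⊗̂ A₊) → M`, `u ⊗ (m ⊗ v) ↦ u m v`. (It exists and is
unique.) -/
def IsCan (M : BiMod A) (π : M.Free → M.X) : Prop :=
  IsBoundedLinearMap ℂ π ∧ ∀ u m v, π (M.tm3 u m v) = M.lactU u (M.ractU v m)

/-- `L` is the left action of `a ∈ A` on `A₊ ⊗̂ (M ⊗̂ A₊)`: `a (u ⊗ (m ⊗ v)) = (a u) ⊗ (m ⊗ v)`.
(It exists and is unique.) -/
def IsLAct (M : BiMod A) (a : A) (L : M.Free → M.Free) : Prop :=
  IsBoundedLinearMap ℂ L ∧ ∀ u m v, L (M.tm3 u m v) = M.tm3 (a * u) m v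

/-- `R` is the right action of `a ∈ A` on `A₊ ⊗̂ (M ⊗̂ A₊)`: `(u ⊗ (m ⊗ v)) a = u ⊗ (m ⊗ (v a))`.
(It exists and is unique.) -/
def IsRAct (M : BiMod A) (a : A) (R : M.Free → M.Free) : Prop :=
  IsBoundedLinearMap ℂ R ∧ ∀ u m v, R (M.tm3 u m v) = M.tm3 u m (v * a)

/-- `M` is a projective bimodule: the canonical map `π : A₊ ⊗̂ (M ⊗̂ A₊) → M` has a right inverse
`ρ` which is a bounded bimodule morphism. -/
def IsProjective (M : BiMod A) : Prop :=
  ∃ (π : M.Free → M.X) (ρ : M.X → M.Free), M.IsCan π ∧ IsBoundedLinearMap ℂ ρ ∧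
    (∀ a, ∃ L, M.IsLAct a L ∧ ∀ x, ρ (M.lact a x) = L (ρ x)) ∧
    (∀ a, ∃ R, M.IsRAct a R ∧ ∀ x, ρ (M.ract a x) = R (ρ x)) ∧ ∀ x, π (ρ x) = x

/-- An admissible projective resolution `0 ← X ← P₀ ← P₁ ← ⋯ ← Pₙ ← 0` of length `n` of the
Banach bimodule `X`. -/
structure Res (X : BiMod A) (n : ℕ) where
  P : ℕ → BiMod A
  proj : ∀ i, (P i).IsProjective
  zero : ∀ i, n < i → Subsingleton (P i).X
  /-- the augmentation `P₀ → X` -/
  ε : (P 0).X → X.X
  /-- the differentials `Pᵢ₊₁ → Pᵢ` -/
  d : ∀ i, (P (i + 1)).X → (P i).X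
  ε_bdd : IsBoundedLinearMap ℂ ε
  d_bdd : ∀ i, IsBoundedLinearMap ℂ (d i)
  ε_lhom : ∀ a x, ε ((P 0).lact a x) = X.lact a (ε x)
  ε_rhom : ∀ a x, ε ((P 0).ract a x) = X.ract a (ε x)
  d_lhom : ∀ i a x, d i ((P (i + 1)).lact a x) = (P i).lact a (d i x)
  d_rhom : ∀ i a x, d i ((P (i + 1)).ract a x) = (P i).ract a (d i x)
  ε_d : ∀ x, ε (d 0 x) = 0
  d_d : ∀ i x, d i (d (i + 1) x) = 0
  σ : X.X → (P 0).X
  s : ∀ i, (P i).X → (P (i + 1)).X
  σ_bdd : IsBoundedLinearMap ℂ σ
  s_bdd : ∀ i, IsBoundedLinearMap ℂ (s i)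
  ε_σ : ∀ x, ε (σ x) = x
  homotopy_zero : ∀ x, σ (ε x) + d 0 (s 0 x) = x
  homotopy_succ : ∀ i x, s i (d i x) + d (i + 1) (s (i + 1) x) = x

/-- The homological dimension of a Banach bimodule. -/
noncomputable def dh (X : BiMod A) : ℕ∞ :=
  ⨅ (n : ℕ) (_ : Nonempty (Res X n)), (n : ℕ∞)

/-- Multiplication `A₊ × A₊ → A₊` restricted to `A × A₊` is bounded bilinear. -/
lemma isBoundedBilinearMap_left :
    IsBoundedBilinearMap ℂ fun p : A × Unitization ℂ A => (p.1 : Unitization ℂ A) * p.2 where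
  add_left a b x := by simp [add_mul]
  smul_left c a x := by simp
  add_right a x y := mul_add _ _ _
  smul_right c a x := by simp
  bound := ⟨1, one_pos, fun a x => by
    rw [one_mul]
    exact (norm_mul_le _ _).trans (by rw [Unitization.norm_inr])⟩

lemma isBoundedBilinearMap_right :
    IsBoundedBilinearMap ℂ fun p : A × Unitization ℂ A => p.2 * (p.1 : Unitization ℂ A) where
  add_left a b x := by simp [mul_add]
  smul_left c a x := by simp
  add_right a x y := add_mul _ _ _
  smul_right c a x := by simp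
  bound := ⟨1, one_pos, fun a x => by
    rw [one_mul]
    exact (norm_mul_le _ _).trans (by rw [Unitization.norm_inr, mul_comm])⟩

lemma lact_mul_aux (a b : A) (x : Unitization ℂ A) :
    ((a * b : A) : Unitization ℂ A) * x = a * (b * x) := by
  rw [Unitization.inr_mul, mul_assoc]

lemma ract_mul_aux (a b : A) (x : Unitization ℂ A) :
    x * ((a * b : A) : Unitization ℂ A) = x * a * b := by
  rw [Unitization.inr_mul, mul_assoc]

lemma lact_ract_aux (a b : A) (x : Unitization ℂ A) :
    (a : Unitization ℂ A) * (x * b) = a * x * b := (mul_assoc _ _ _).symm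

variable (A) in
/-- The unitization `A₊` as a Banach `A`-bimodule. -/
noncomputable def uniBiMod : BiMod A where
  X := Unitization ℂ A
  lact a x := a * x
  ract a x := x * a
  lact_bilin := isBoundedBilinearMap_left
  ract_bilin := isBoundedBilinearMap_right
  lact_mul := lact_mul_aux
  ract_mul := ract_mul_aux
  lact_ract := lact_ract_aux

end BiMod

variable (A) in
/-- The homological bidimension of `A`: the homological dimension of the bimodule `A₊`. -/
noncomputable def db : ℕ∞ := (BiMod.uniBiMod A).dh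

end Pool.MP_1c66c9_an
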