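import Pool.Agent.Lib.MP_1c66c9_an.Defs
import Pool.Agent.Lib.MP_1c66c9_an.StmtDefs

/-!
From the definitions of the statement (plain functions) to those used in the proof (continuous
linear maps).
-/

namespace Pool.MP_1c66c9_an

universe u

variable {A : Type u} [NonUnitalCStarAlgebra A]

/-- The same module with continuous linear maps. -/
noncomputable def LeftMod.toLMod (X : LeftMod A) : LMod A where
  carrier := X.X
  act := X.act_bilin.toContinuousLinearMap
  act_mul := X.act_mul

/-- The same bimodule with continuous linear maps. -/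
noncomputable def BiMod.toBMod (X : BiMod A) : BMod A where
  carrier := X.X
  lact := X.lact_bilin.toContinuousLinearMap
  ract := X.ract_bilin.toContinuousLinearMap
  lact_mul := X.lact_mul
  ract_mul := X.ract_mul
  lact_ract := X.lact_ract

/-- Bounded linear maps on a projective tensor product are determined on elementary tensors. -/
lemma bdd_ext {E F G : Type*} [NormedAddCommGroup E] [NormedSpace ℂ E]
    [NormedAddCommGroup F] [NormedSpace ℂ F] [NormedAddCommGroup G] [NormedSpace ℂ G]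
    {f g : PT E F → G} (hf : IsBoundedLinearMap ℂ f) (hg : IsBoundedLinearMap ℂ g)
    (h : ∀ x y, f (tm x y) = g (tm x y)) (t : PT E F) : f t = g t := by
  have h1 : hf.toContinuousLinearMap = hg.toContinuousLinearMap := PT_ext h
  exact congrArg (fun k : PT E F →L[ℂ] G => k t) h1

lemma LeftMod.toLMod_proj (X : LeftMod A) (h : X.IsProjective) : X.toLMod.IsProjective := by
  obtain ⟨π, ρ, ⟨hπ, hπ'⟩, hρ, hL, hr⟩ := h
  have k1 : ∀ (a : A) (x : X.X),
      ρ (X.act a x) = lmul (Unitization ℂ A) X.X (a : Unitization ℂ A) (ρ x) := by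
    intro a x
    obtain ⟨L, ⟨hLb, hL'⟩, hL2⟩ := hL a
    rw [hL2]
    refine bdd_ext hLb (ContinuousLinearMap.isBoundedLinearMap _) (fun u y => ?_) (ρ x)
    rw [hL', lmul_tm]
  have k2 : ∀ t : PT (Unitization ℂ A) X.X,
      π t = lift (extAct X.act_bilin.toContinuousLinearMap) t := by
    refine bdd_ext hπ (ContinuousLinearMap.isBoundedLinearMap _) (fun u y => ?_)
    rw [hπ', lift_tm]
    rfl
  exact ⟨hρ.toContinuousLinearMap, k1, fun x => (k2 (ρ x)).symm.trans (hr x)⟩

/-- Bounded linear maps on `E ⊗ (F ⊗ G)` are determined on elementary tensors. -/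
lemma bdd_ext3 {E F G K : Type*} [NormedAddCommGroup E] [NormedSpace ℂ E]
    [NormedAddCommGroup F] [NormedSpace ℂ F] [NormedAddCommGroup G] [NormedSpace ℂ G]
    [NormedAddCommGroup K] [NormedSpace ℂ K]
    {f g : PT E (PT F G) → K} (hf : IsBoundedLinearMap ℂ f) (hg : IsBoundedLinearMap ℂ g)
    (h : ∀ x y z, f (tm x (tm y z)) = g (tm x (tm y z))) (t : PT E (PT F G)) : f t = g t := by
  refine bdd_ext hf hg (fun x s => ?_) t
  have h1 : (hf.toContinuousLinearMap).comp (tmL E (PT F G) x) =
      (hg.toContinuousLinearMap).comp (tmL E (PT F G) x) := PT_ext fun y z => h x y z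
  exact congrArg (fun k : PT F G →L[ℂ] K => k s) h1

lemma BiMod.toBMod_proj (X : BiMod A) (h : X.IsProjective) : X.toBMod.IsProjective := by
  obtain ⟨π, ρ, ⟨hπ, hπ'⟩, hρ, hL, hR, hr⟩ := h
  have k1 : ∀ (a : A) (x : X.X),
      ρ (X.lact a x) = lmul (Unitization ℂ A) (PT X.X (Unitization ℂ A))
        (a : Unitization ℂ A) (ρ x) := by
    intro a x
    obtain ⟨L, ⟨hLb, hL'⟩, hL2⟩ := hL a
    refine (hL2 x).trans (bdd_ext3 (E := Unitization ℂ A) (F := X.X) (G := Unitization ℂ A)
      (K := PT (Unitization ℂ A) (PT X.X (Unitization ℂ A))) hLb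
      (ContinuousLinearMap.isBoundedLinearMap _) (fun u m v => ?_) (ρ x))
    rw [lmul_tm]
    exact hL' u m v
  have k2 : ∀ (a : A) (x : X.X),
      ρ (X.ract a x) = mapR (Unitization ℂ A)
        (mapR X.X (BMod.rmulU (a : Unitization ℂ A))) (ρ x) := by
    intro a x
    obtain ⟨R, ⟨hRb, hR'⟩, hR2⟩ := hR a
    refine (hR2 x).trans (bdd_ext3 (E := Unitization ℂ A) (F := X.X) (G := Unitization ℂ A)
      (K := PT (Unitization ℂ A) (PT X.X (Unitization ℂ A))) hRb
      (ContinuousLinearMap.isBoundedLinearMap _) (fun u m v => ?_) (ρ x))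
    rw [mapR_tm, mapR_tm]
    exact hR' u m v
  have k3 : ∀ t : PT (Unitization ℂ A) (PT X.X (Unitization ℂ A)),
      π t = ((lift (extAct X.lact_bilin.toContinuousLinearMap)).comp (mapR (Unitization ℂ A)
        (lift (extAct X.ract_bilin.toContinuousLinearMap).flip))) t := by
    refine bdd_ext3 (E := Unitization ℂ A) (F := X.X) (G := Unitization ℂ A) (K := X.X) hπ
      (ContinuousLinearMap.isBoundedLinearMap _) (fun u m v => ?_)
    rw [ContinuousLinearMap.comp_apply, mapR_tm, lift_tm, lift_tm]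
    exact hπ' u m v
  exact ⟨hρ.toContinuousLinearMap, k1, k2, fun x => (k3 (ρ x)).symm.trans (hr x)⟩

/-- Resolutions. -/
noncomputable def LeftMod.Res.toResolution {X : LeftMod A} {n : ℕ} (R : X.Res n) :
    X.toLMod.Resolution n where
  P i := (R.P i).toLMod
  proj i := (R.P i).toLMod_proj (R.proj i)
  zero := R.zero
  ε := R.ε_bdd.toContinuousLinearMap
  d i := (R.d_bdd i).toContinuousLinearMap
  ε_hom := R.ε_hom
  d_hom := R.d_hom
  ε_d := R.ε_d
  d_d := R.d_d
  σ := R.σ_bdd.toContinuousLinearMap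
  s i := (R.s_bdd i).toContinuousLinearMap
  ε_σ := R.ε_σ
  homotopy_zero := R.homotopy_zero
  homotopy_succ := R.homotopy_succ

/-- Resolutions of the bimodule `A₊`. -/
noncomputable def BiMod.Res.toResolution {n : ℕ} (R : (BiMod.uniBiMod A).Res n) :
    (BMod.unitizationBMod A).Resolution n where
  P i := (R.P i).toBMod
  proj i := (R.P i).toBMod_proj (R.proj i)
  zero := R.zero
  ε := R.ε_bdd.toContinuousLinearMap
  d i := (R.d_bdd i).toContinuousLinearMap
  ε_hom := ⟨R.ε_lhom, R.ε_rhom⟩
  d_hom i := ⟨R.d_lhom i, R.d_rhom i⟩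
  ε_d := R.ε_d
  d_d := R.d_d
  σ := R.σ_bdd.toContinuousLinearMap
  s i := (R.s_bdd i).toContinuousLinearMap
  ε_σ := R.ε_σ
  homotopy_zero := R.homotopy_zero
  homotopy_succ := R.homotopy_succ

end Pool.MP_1c66c9_an
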