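import Pool.Agent.Lib.MP_1c66c9_an.Defs

/-!
The bilinear map attached to a resolution of length at most one; index sets; the data used in the
heart of the proof.
-/

open scoped TensorProduct
open Filter Topology

namespace Pool.MP_1c66c9_an

universe u

section mu

variable {B : Type*} [NormedRing B] [NormedAlgebra ℂ B]
  {X : Type*} [NormedAddCommGroup X] [NormedSpace ℂ X]

variable (B X) in
/-- `u ⊗ (v ⊗ x) ↦ (u v) ⊗ x` -/
noncomputable def mu12 : PT B (PT B X) →L[ℂ] PT B X := lift (lmul B X)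

lemma mu12_tm (u : B) (t : PT B X) : mu12 B X (tm u t) = lmul B X u t := by
  unfold mu12
  rw [lift_tm]

lemma mu12_tm_tm (u v : B) (x : X) : mu12 B X (tm u (tm v x)) = tm (u * v) x := by
  rw [mu12_tm, lmul_tm]

variable [CompleteSpace X]

/-- `u ⊗ (v ⊗ x) ↦ u ⊗ (v x)` -/
noncomputable def mu23 (α : B →L[ℂ] X →L[ℂ] X) : PT B (PT B X) →L[ℂ] PT B X :=
  mapR B (lift α)

lemma mu23_tm_tm (α : B →L[ℂ] X →L[ℂ] X) (u v : B) (x : X) :
    mu23 α (tm u (tm v x)) = tm u (α v x) := by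
  unfold mu23
  rw [mapR_tm, lift_tm]

/-- The identities satisfied by the bilinear map coming from a resolution of length `≤ 1`. -/
structure IsB (α : B →L[ℂ] X →L[ℂ] X) (b : B →L[ℂ] X →L[ℂ] PT B (PT B X)) : Prop where
  left : ∀ (a' a : B) (x : X),
    lmul B (PT B X) a' (b a x) = b (a' * a) x - b a' (α a x)
  mu23_eq : ∀ (a : B) (x : X), mu23 α (b a x) = 0
  mu12_eq : ∀ (a : B) (x : X), mu12 B X (b a x) = tm a x - tm 1 (α a x)

/-- The identities satisfied by the linear map coming from a bimodule resolution of `B` of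
length `≤ 1`. -/
structure IsB' (b : B →L[ℂ] PT B (PT B B)) [CompleteSpace B] : Prop where
  left : ∀ (a' a : B),
    lmul B (PT B B) a' (b a) =
      b (a' * a) - mapR B (mapR B ((ContinuousLinearMap.mul ℂ B).flip a)) (b a')
  mu23_eq : ∀ (a : B), mu23 (ContinuousLinearMap.mul ℂ B) (b a) = 0
  mu12_eq : ∀ (a : B), mu12 B B (b a) = tm a 1 - tm 1 a

end mu

section Idx

variable (T : Type u)

/-- The index set: finite lists of finite subsets of `T`. -/
abbrev Idx : Type u := List (Finset T)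

variable {T}

open Classical in
/-- The union of the entries. -/
noncomputable def supp (ι : Idx T) : Finset T := ι.foldr (fun a b => a ∪ b) ∅

lemma subset_supp_of_mem {ι : Idx T} {F : Finset T} (h : F ∈ ι) : F ⊆ supp ι := by
  classical
  unfold supp
  induction ι with
  | nil => simp at h
  | cons a l ih =>
      rw [List.foldr_cons]
      rcases List.mem_cons.1 h with rfl | h
      · exact Finset.subset_union_left
      · exact (ih h).trans Finset.subset_union_right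

lemma subset_supp_ofFn {m : ℕ} (a : Fin m → Finset T) (i : Fin m) :
    a i ⊆ supp (List.ofFn a) :=
  subset_supp_of_mem (List.mem_ofFn.2 ⟨i, rfl⟩)

variable (T) in
/-- The filter on the index set: the support gets larger and larger. -/
noncomputable def Filt : Filter (Idx T) := Filter.comap supp Filter.atTop

lemma eventually_subset (F : Finset T) : ∀ᶠ ι in Filt T, F ⊆ supp ι := by
  unfold Filt
  rw [Filter.eventually_comap]
  filter_upwards [Filter.eventually_ge_atTop F] with s hs ι hι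
  rw [hι]; exact hs

lemma eventually_mem (y : T) : ∀ᶠ ι in Filt T, y ∈ supp ι := by
  filter_upwards [eventually_subset ({y} : Finset T)] with ι hι
  exact hι (Finset.mem_singleton_self y)

lemma eventually_iff {p : Idx T → Prop} :
    (∀ᶠ ι in Filt T, p ι) ↔ ∃ F : Finset T, ∀ ι, F ⊆ supp ι → p ι := by
  constructor
  · intro h
    unfold Filt at h
    rw [Filter.eventually_comap, Filter.eventually_atTop] at h
    obtain ⟨F, hF⟩ := h
    exact ⟨F, fun ι hι => hF _ hι ι rfl⟩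
  · rintro ⟨F, hF⟩
    filter_upwards [eventually_subset F] with ι hι
    exact hF ι hι

lemma frequently_iff {p : Idx T → Prop} :
    (∃ᶠ ι in Filt T, p ι) ↔ ∀ F : Finset T, ∃ ι, F ⊆ supp ι ∧ p ι := by
  rw [Filter.Frequently, eventually_iff]
  simp only [not_exists, not_forall, not_not, exists_prop]

instance : (Filt T).NeBot := by
  rw [Filter.neBot_iff, ne_eq, ← Filter.eventually_false_iff_eq_bot, eventually_iff]
  rintro ⟨F, hF⟩
  exact hF [F] (subset_supp_of_mem (by simp))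

lemma eventually_card_ge [Infinite T] (N : ℕ) : ∀ᶠ ι in Filt T, N ≤ (supp ι).card := by
  obtain ⟨F, hF⟩ := Infinite.exists_subset_card_eq T N
  filter_upwards [eventually_subset F] with ι hι
  rw [← hF]
  exact Finset.card_le_card hι

end Idx

/-- Orthogonal sequences in a unital C*-algebra. -/
structure OrthSeq (B : Type u) [CStarAlgebra B] where
  g : ℕ → B
  h : ℕ → B
  k : ℕ → B
  g_sa : ∀ n, IsSelfAdjoint (g n)
  h_sa : ∀ n, IsSelfAdjoint (h n)
  k_sa : ∀ n, IsSelfAdjoint (k n)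
  gh : ∀ n, g n * h n = h n
  hk : ∀ n, h n * k n = k n
  gg : ∀ m n, m ≠ n → g m * g n = 0
  hS : ∀ S : Finset ℕ, ‖∑ n ∈ S, h n‖ ≤ 1
  k_le : ∀ n, ‖k n‖ ≤ 1
  k_norm : ∀ n, 2 ≤ ‖(1 : B) + k n‖

namespace OrthSeq

variable {B : Type u} [CStarAlgebra B] (D : OrthSeq B)

lemma hg (n : ℕ) : D.h n * D.g n = D.h n := by
  have := congrArg star (D.gh n)
  rwa [star_mul, (D.h_sa n).star_eq, (D.g_sa n).star_eq] at this

lemma kh (n : ℕ) : D.k n * D.h n = D.k n := by
  have := congrArg star (D.hk n)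
  rwa [star_mul, (D.h_sa n).star_eq, (D.k_sa n).star_eq] at this

lemma gk (n : ℕ) : D.g n * D.k n = D.k n := by
  rw [← D.hk n, ← mul_assoc, D.gh]

lemma gh_ne {m n : ℕ} (hmn : m ≠ n) : D.g m * D.h n = 0 := by
  rw [← D.gh n, ← mul_assoc, D.gg m n hmn, zero_mul]

lemma gk_ne {m n : ℕ} (hmn : m ≠ n) : D.g m * D.k n = 0 := by
  rw [← D.gk n, ← mul_assoc, D.gg m n hmn, zero_mul]

lemma hh_ne {m n : ℕ} (hmn : m ≠ n) : D.h m * D.h n = 0 := by
  rw [← D.hg m, mul_assoc, D.gh_ne hmn, mul_zero]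

lemma hk_ne {m n : ℕ} (hmn : m ≠ n) : D.h m * D.k n = 0 := by
  rw [← D.hg m, mul_assoc, D.gk_ne hmn, mul_zero]

end OrthSeq

/-- All data used in the heart of the proof. -/
structure Setup (B : Type u) [CStarAlgebra B] extends OrthSeq B where
  inf : Infinite B
  H : Type u
  [ngH : NormedAddCommGroup H]
  [ipH : InnerProductSpace ℂ H]
  [csH : CompleteSpace H]
  π : B →⋆ₐ[ℂ] (H →L[ℂ] H)
  ζ : H
  ζ_norm : ‖ζ‖ = 1
  gζ : ∀ n, π (g n) ζ = 0
  n : Idx B → ℕ
  w : Idx B → B →L[ℂ] H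
  n_ge : ∀ ι, (supp ι).card ≤ n ι
  w_le : ∀ ι y, ‖w ι y‖ ≤ 2 * ‖y‖
  w_app : ∀ ι, ∀ y ∈ supp ι, ‖w ι (y * k (n ι)) - π y ζ‖ ≤ 1 / (1 + ((supp ι).card : ℝ))

attribute [instance] Setup.ngH Setup.ipH Setup.csH

/-- The module used in the heart of the proof, with its coordinates. -/
structure XData {B : Type u} [CStarAlgebra B] (S : Setup B) where
  X : Type u
  [ngX : NormedAddCommGroup X]
  [nsX : NormedSpace ℂ X]
  [csX : CompleteSpace X]
  α : B →L[ℂ] X →L[ℂ] X
  ev : Idx B → X →L[ℂ] B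
  /-- the element with coordinates `k (n ι)` for `ι ∈ E` and `0` otherwise -/
  xE : Set (Idx B) → X
  α_one : ∀ x, α 1 x = x
  α_mul : ∀ a b x, α (a * b) x = α a (α b x)
  ev_le : ∀ ι x, ‖ev ι x‖ ≤ ‖x‖
  norm_le : ∀ (x : X) (C : ℝ), 0 ≤ C → (∀ ι, ‖ev ι x‖ ≤ C) → ‖x‖ ≤ C
  ev_ext : ∀ x y : X, (∀ ι, ev ι x = ev ι y) → x = y
  ev_act : ∀ ι a x, ev ι (α a x) = a * ev ι x
  lim : ∀ (x : X) (y : B),
    Tendsto (fun ι => ‖S.w ι (y * ev ι x) - S.π y (S.w ι (ev ι x))‖) (Filt B) (𝓝 0)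
  ev_xE : ∀ E ι, (ι ∈ E → ev ι (xE E) = S.k (S.n ι)) ∧ (ι ∉ E → ev ι (xE E) = 0)

attribute [instance] XData.ngX XData.nsX XData.csX

end Pool.MP_1c66c9_an
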