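import Pool.Agent.Lib.MP_1c66c9_an.PT

/-!
Banach modules and bimodules over a C*-algebra, projectivity, admissible resolutions, in terms of
continuous linear maps (used in the proof; the statement uses `StmtDefs.lean`, see `Bridge.lean`).
-/

open scoped TensorProduct

namespace Pool.MP_1c66c9_an

universe u

variable (A : Type u) [NonUnitalCStarAlgebra A]

/-- A left Banach `A`-module: a complex Banach space with a bounded bilinear associative left
action of `A`. -/
structure LMod where
  /-- the underlying Banach space -/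
  carrier : Type u
  [ng : NormedAddCommGroup carrier]
  [ns : NormedSpace ℂ carrier]
  [cs : CompleteSpace carrier]
  /-- the action `(a, x) ↦ a x` -/
  act : A →L[ℂ] carrier →L[ℂ] carrier
  act_mul : ∀ (a b : A) (x : carrier), act (a * b) x = act a (act b x)

attribute [instance] LMod.ng LMod.ns LMod.cs

/-- A Banach `A`-bimodule: a complex Banach space with commuting bounded bilinear associative
left and right actions of `A`. -/
structure BMod where
  /-- the underlying Banach space -/
  carrier : Type u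
  [ng : NormedAddCommGroup carrier]
  [ns : NormedSpace ℂ carrier]
  [cs : CompleteSpace carrier]
  /-- the left action `(a, x) ↦ a x` -/
  lact : A →L[ℂ] carrier →L[ℂ] carrier
  /-- the right action `(a, x) ↦ x a` -/
  ract : A →L[ℂ] carrier →L[ℂ] carrier
  lact_mul : ∀ (a b : A) (x : carrier), lact (a * b) x = lact a (lact b x)
  ract_mul : ∀ (a b : A) (x : carrier), ract (a * b) x = ract b (ract a x)
  lact_ract : ∀ (a b : A) (x : carrier), lact a (ract b x) = ract b (lact a x)

attribute [instance] BMod.ng BMod.ns BMod.cs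

variable {A}

/-- The scalar part `A₊ → ℂ` as a bounded functional. -/
noncomputable def fstL : Unitization ℂ A →L[ℂ] ℂ where
  toFun a := a.fst
  map_add' _ _ := rfl
  map_smul' _ _ := rfl
  cont := Unitization.continuous_fst

/-- The projection `A₊ → A` as a bounded linear map. -/
noncomputable def sndL : Unitization ℂ A →L[ℂ] A where
  toFun a := a.snd
  map_add' _ _ := rfl
  map_smul' _ _ := rfl
  cont := Unitization.continuous_snd

/-- The inclusion `A → A₊` as a bounded linear map. -/
noncomputable def inrL : A →L[ℂ] Unitization ℂ A where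
  toFun a := (a : Unitization ℂ A)
  map_add' a b := Unitization.inr_add ℂ a b
  map_smul' c a := Unitization.inr_smul ℂ c a
  cont := Unitization.continuous_inr

/-- The action of the unitization `A₊` on a Banach space with an action of `A`:
`(λ + a) x = λ x + a x`. -/
noncomputable def extAct {X : Type*} [NormedAddCommGroup X] [NormedSpace ℂ X]
    (act : A →L[ℂ] X →L[ℂ] X) : Unitization ℂ A →L[ℂ] X →L[ℂ] X :=
  (fstL (A := A)).smulRight (ContinuousLinearMap.id ℂ X) + act.comp sndL

lemma extAct_apply {X : Type*} [NormedAddCommGroup X] [NormedSpace ℂ X]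
    (act : A →L[ℂ] X →L[ℂ] X) (a : Unitization ℂ A) (x : X) :
    extAct act a x = a.fst • x + act a.snd x := rfl

namespace LMod

/-- The action of `A₊` on a left Banach `A`-module. -/
noncomputable def actU (X : LMod A) : Unitization ℂ A →L[ℂ] X.carrier →L[ℂ] X.carrier :=
  extAct X.act

/-- The canonical map `π : A₊ ⊗̂ X → X`, `a ⊗ x ↦ a x`. -/
noncomputable def can (X : LMod A) : PT (Unitization ℂ A) X.carrier →L[ℂ] X.carrier :=
  lift X.actU

/-- `X` is projective: the canonical map `π : A₊ ⊗̂ X → X` has a right inverse which is a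
bounded morphism of left `A`-modules (`A` acts on `A₊ ⊗̂ X` by `a (u ⊗ x) = (a u) ⊗ x`). -/
def IsProjective (X : LMod A) : Prop :=
  ∃ ρ : X.carrier →L[ℂ] PT (Unitization ℂ A) X.carrier,
    (∀ (a : A) (x : X.carrier), ρ (X.act a x) = lmul (Unitization ℂ A) X.carrier a (ρ x)) ∧
    ∀ x : X.carrier, X.can (ρ x) = x

/-- A bounded linear map is a morphism of left modules. -/
def IsHom (X Y : LMod A) (f : X.carrier →L[ℂ] Y.carrier) : Prop :=
  ∀ (a : A) (x : X.carrier), f (X.act a x) = Y.act a (f x)

/-- An admissible projective resolution `0 ← X ← P₀ ← P₁ ← ⋯ ← Pₙ ← 0` of length `n` of the left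
Banach module `X`: a complex of left Banach modules and bounded module morphisms with all `Pᵢ`
projective, `Pᵢ = 0` for `i > n`, which splits as a complex of Banach spaces (it has a bounded
linear contracting homotopy `σ, s₀, s₁, …`). -/
structure Resolution (X : LMod A) (n : ℕ) where
  P : ℕ → LMod A
  proj : ∀ i, (P i).IsProjective
  zero : ∀ i, n < i → Subsingleton (P i).carrier
  /-- the augmentation `P₀ → X` -/
  ε : (P 0).carrier →L[ℂ] X.carrier
  /-- the differentials `Pᵢ₊₁ → Pᵢ` -/
  d : ∀ i, (P (i + 1)).carrier →L[ℂ] (P i).carrier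
  ε_hom : IsHom (P 0) X ε
  d_hom : ∀ i, IsHom (P (i + 1)) (P i) (d i)
  ε_d : ∀ x, ε (d 0 x) = 0
  d_d : ∀ i x, d i (d (i + 1) x) = 0
  σ : X.carrier →L[ℂ] (P 0).carrier
  s : ∀ i, (P i).carrier →L[ℂ] (P (i + 1)).carrier
  ε_σ : ∀ x, ε (σ x) = x
  homotopy_zero : ∀ x, σ (ε x) + d 0 (s 0 x) = x
  homotopy_succ : ∀ i x, s i (d i x) + d (i + 1) (s (i + 1) x) = x

end LMod

namespace BMod

/-- The left action of `A₊` on a Banach `A`-bimodule. -/
noncomputable def lactU (M : BMod A) : Unitization ℂ A →L[ℂ] M.carrier →L[ℂ] M.carrier :=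
  extAct M.lact

/-- The right action of `A₊` on a Banach `A`-bimodule. -/
noncomputable def ractU (M : BMod A) : Unitization ℂ A →L[ℂ] M.carrier →L[ℂ] M.carrier :=
  extAct M.ract

/-- The map `M ⊗̂ A₊ → M`, `m ⊗ v ↦ m v`. -/
noncomputable def rcan (M : BMod A) : PT M.carrier (Unitization ℂ A) →L[ℂ] M.carrier :=
  lift M.ractU.flip

/-- The canonical map `π : A₊ ⊗̂ (M ⊗̂ A₊) → M`, `u ⊗ (m ⊗ v) ↦ u m v`. -/
noncomputable def can (M : BMod A) :
    PT (Unitization ℂ A) (PT M.carrier (Unitization ℂ A)) →L[ℂ] M.carrier :=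
  (lift M.lactU).comp (mapR (Unitization ℂ A) M.rcan)

/-- Right multiplication by `v` on `A₊`. -/
noncomputable def rmulU (v : Unitization ℂ A) : Unitization ℂ A →L[ℂ] Unitization ℂ A :=
  (ContinuousLinearMap.mul ℂ (Unitization ℂ A)).flip v

/-- `M` is a projective bimodule: the canonical map `π : A₊ ⊗̂ (M ⊗̂ A₊) → M` has a right inverse
which is a bounded bimodule morphism (`A` acts on `A₊ ⊗̂ (M ⊗̂ A₊)` by
`a (u ⊗ (m ⊗ v)) = (a u) ⊗ (m ⊗ v)` and `(u ⊗ (m ⊗ v)) a = u ⊗ (m ⊗ (v a))`). -/
def IsProjective (M : BMod A) : Prop :=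
  ∃ ρ : M.carrier →L[ℂ] PT (Unitization ℂ A) (PT M.carrier (Unitization ℂ A)),
    (∀ (a : A) (x : M.carrier),
      ρ (M.lact a x) = lmul (Unitization ℂ A) (PT M.carrier (Unitization ℂ A)) a (ρ x)) ∧
    (∀ (a : A) (x : M.carrier),
      ρ (M.ract a x) = mapR (Unitization ℂ A) (mapR M.carrier (rmulU (a : Unitization ℂ A)))
        (ρ x)) ∧
    ∀ x : M.carrier, M.can (ρ x) = x

/-- A bounded linear map is a morphism of bimodules. -/
def IsHom (X Y : BMod A) (f : X.carrier →L[ℂ] Y.carrier) : Prop :=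
  (∀ (a : A) (x : X.carrier), f (X.lact a x) = Y.lact a (f x)) ∧
  ∀ (a : A) (x : X.carrier), f (X.ract a x) = Y.ract a (f x)

/-- An admissible projective resolution `0 ← X ← P₀ ← P₁ ← ⋯ ← Pₙ ← 0` of length `n` of the
Banach bimodule `X`. -/
structure Resolution (X : BMod A) (n : ℕ) where
  P : ℕ → BMod A
  proj : ∀ i, (P i).IsProjective
  zero : ∀ i, n < i → Subsingleton (P i).carrier
  /-- the augmentation `P₀ → X` -/
  ε : (P 0).carrier →L[ℂ] X.carrier
  /-- the differentials `Pᵢ₊₁ → Pᵢ` -/
  d : ∀ i, (P (i + 1)).carrier →L[ℂ] (P i).carrier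
  ε_hom : IsHom (P 0) X ε
  d_hom : ∀ i, IsHom (P (i + 1)) (P i) (d i)
  ε_d : ∀ x, ε (d 0 x) = 0
  d_d : ∀ i x, d i (d (i + 1) x) = 0
  σ : X.carrier →L[ℂ] (P 0).carrier
  s : ∀ i, (P i).carrier →L[ℂ] (P (i + 1)).carrier
  ε_σ : ∀ x, ε (σ x) = x
  homotopy_zero : ∀ x, σ (ε x) + d 0 (s 0 x) = x
  homotopy_succ : ∀ i x, s i (d i x) + d (i + 1) (s (i + 1) x) = x

variable (A) in
/-- The unitization `A₊` as a Banach `A`-bimodule. -/
noncomputable def unitizationBMod : BMod A where
  carrier := Unitization ℂ A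
  lact := (ContinuousLinearMap.mul ℂ (Unitization ℂ A)).comp inrL
  ract := (ContinuousLinearMap.mul ℂ (Unitization ℂ A)).flip.comp inrL
  lact_mul a b x := by
    show ((a * b : A) : Unitization ℂ A) * x = a * (b * x)
    rw [Unitization.inr_mul, mul_assoc]
  ract_mul a b x := by
    show x * ((a * b : A) : Unitization ℂ A) = x * a * b
    rw [Unitization.inr_mul, mul_assoc]
  lact_ract a b x := by
    show (a : Unitization ℂ A) * (x * b) = a * x * b
    rw [mul_assoc]

end BMod

end Pool.MP_1c66c9_an
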