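import Pool.Agent.Lib.MP_1c66c9_an.DyDefs

namespace Pool.MP_1c66c9_an

/-- JOB DyA. `dy` commutes with linear maps. -/
theorem dy_map {V W : Type*} [AddCommGroup V] [Module ℂ V] [AddCommGroup W] [Module ℂ W]
    (L : V →ₗ[ℂ] W) (K s : ℕ) (θ : ℕ → ℕ → V) :
    L (dy K s θ) = dy K s (fun a j => L (θ a j)) := by
  induction K generalizing s with
  | zero => simp [dy]
  | succ K ih =>
      simp only [dy, map_add, map_smul, map_sum, map_sub, ih]

private lemma DyA_count (m a : ℕ) (ha : a < m) :
    ∑ j ∈ Finset.range m, (if j ≤ a then (1 : ℂ) else 0) = a + 1 := by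
  rw [← Finset.sum_filter]
  have : (Finset.range m).filter (fun j => j ≤ a) = Finset.range (a + 1) := by
    ext j
    simp only [Finset.mem_filter, Finset.mem_range]
    omega
  rw [this]
  simp

private lemma DyA_gauss (m : ℕ) :
    ∑ a ∈ Finset.range m, ((a : ℂ) + 1) = m * (m + 1) / 2 := by
  induction m with
  | zero => simp
  | succ m ih =>
      rw [Finset.sum_range_succ, ih]
      push_cast
      ring

/-- JOB DyA. The value on the triangular matrix (induction on `K`; the new term is
`(2/2^K) (2^K 2^K - 2^K (2^K + 1)/2) = 2^K - 1`; `∑_{a<m} #{j < m | j ≤ a} = m (m+1) / 2`). -/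
theorem dy_triangular (K s : ℕ) :
    dy K s (fun a j => if j ≤ a then (1 : ℂ) else 0) = 2 ^ K * K / 2 - 2 ^ K + 1 := by
  induction K generalizing s with
  | zero => simp [dy]
  | succ K ih =>
      simp only [dy, ih]
      have h1 : ∑ a ∈ Finset.range (2 ^ K),
          (∑ j ∈ Finset.range (2 ^ K), (if s + j ≤ s + 2 ^ K + a then (1 : ℂ) else 0) -
            ∑ j ∈ Finset.range (2 ^ K),
              (if s + 2 ^ K + j ≤ s + 2 ^ K + a then (1 : ℂ) else 0)) =
          2 ^ K * 2 ^ K - (2 ^ K) * (2 ^ K + 1) / 2 := by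
        have h2 : ∀ a ∈ Finset.range (2 ^ K),
            (∑ j ∈ Finset.range (2 ^ K), (if s + j ≤ s + 2 ^ K + a then (1 : ℂ) else 0) -
            ∑ j ∈ Finset.range (2 ^ K),
              (if s + 2 ^ K + j ≤ s + 2 ^ K + a then (1 : ℂ) else 0)) =
            2 ^ K - ((a : ℂ) + 1) := by
          intro a ha
          rw [Finset.mem_range] at ha
          congr 1
          · rw [Finset.sum_congr rfl (g := fun _ => (1 : ℂ))]
            · simp
            · intro j hj
              rw [Finset.mem_range] at hj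
              rw [if_pos (by omega)]
          · rw [← DyA_count (2 ^ K) a ha]
            refine Finset.sum_congr rfl fun j _ => ?_
            by_cases hja : j ≤ a
            · rw [if_pos hja, if_pos (by omega)]
            · rw [if_neg hja, if_neg (by omega)]
        rw [Finset.sum_congr rfl h2, Finset.sum_sub_distrib, DyA_gauss]
        simp
      rw [h1]
      have h3 : (2 : ℂ) ^ K ≠ 0 := pow_ne_zero _ two_ne_zero
      rw [smul_eq_mul]
      push_cast
      field_simp
      ring

/-- JOB DyA. Perturbation: each level contributes at most `2 * 2^K * δ` in total. -/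
theorem dy_near (K s : ℕ) (θ θ' : ℕ → ℕ → ℂ) (δ : ℝ)
    (h : ∀ a j, s ≤ a → a < s + 2 ^ K → s ≤ j → j < s + 2 ^ K → ‖θ a j - θ' a j‖ ≤ δ) :
    ‖dy K s θ - dy K s θ'‖ ≤ 2 * K * 2 ^ K * δ := by
  induction K generalizing s with
  | zero => simp [dy]
  | succ K ih =>
      have hp : (2 : ℕ) ^ (K + 1) = 2 ^ K + 2 ^ K := by ring
      have hA := ih s (fun a j h1 h2 h3 h4 => h a j h1 (by omega) h3 (by omega))
      have hB := ih (s + 2 ^ K)
        (fun a j h1 h2 h3 h4 => h a j (by omega) (by omega) (by omega) (by omega))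
      have hS : ∀ (φ : ℕ → ℕ → ℂ), (∀ a j, a < 2 ^ K → j < 2 ^ K → ‖φ a j‖ ≤ δ) →
          ‖∑ a ∈ Finset.range (2 ^ K), ∑ j ∈ Finset.range (2 ^ K), φ a j‖ ≤
            2 ^ K * (2 ^ K * δ) := by
        intro φ hφ
        refine (norm_sum_le_of_le (f := fun a => ∑ j ∈ Finset.range (2 ^ K), φ a j) _
          (n := fun _ => (2 : ℝ) ^ K * δ) ?_).trans (le_of_eq ?_)
        · intro a ha
          refine (norm_sum_le_of_le (f := fun j => φ a j) _ (n := fun _ => δ) ?_).trans
            (le_of_eq ?_)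
          · intro j hj
            exact hφ a j (Finset.mem_range.1 ha) (Finset.mem_range.1 hj)
          · simp
        · simp
      have h1 := hS (fun a j => θ (s + 2 ^ K + a) (s + j) - θ' (s + 2 ^ K + a) (s + j))
        (fun a j ha hj => h _ _ (by omega) (by omega) (by omega) (by omega))
      have h2 := hS (fun a j => θ (s + 2 ^ K + a) (s + 2 ^ K + j) -
          θ' (s + 2 ^ K + a) (s + 2 ^ K + j))
        (fun a j ha hj => h _ _ (by omega) (by omega) (by omega) (by omega))
      set A := dy K s θ - dy K s θ' with hAdef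
      set B := dy K (s + 2 ^ K) θ - dy K (s + 2 ^ K) θ' with hBdef
      set P := ∑ a ∈ Finset.range (2 ^ K), ∑ j ∈ Finset.range (2 ^ K),
        (θ (s + 2 ^ K + a) (s + j) - θ' (s + 2 ^ K + a) (s + j)) with hPdef
      set Q := ∑ a ∈ Finset.range (2 ^ K), ∑ j ∈ Finset.range (2 ^ K),
        (θ (s + 2 ^ K + a) (s + 2 ^ K + j) - θ' (s + 2 ^ K + a) (s + 2 ^ K + j)) with hQdef
      have key : dy (K + 1) s θ - dy (K + 1) s θ' = A + B + (2 / 2 ^ K : ℂ) * (P - Q) := by
        simp only [dy, hAdef, hBdef, hPdef, hQdef, Finset.sum_sub_distrib, smul_eq_mul]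
        ring
      have hnorm : ‖(2 / 2 ^ K : ℂ)‖ = 2 / 2 ^ K := by
        rw [norm_div, norm_pow]
        simp
      have h2K : (0 : ℝ) < 2 ^ K := by positivity
      have hPQ : ‖(2 / 2 ^ K : ℂ) * (P - Q)‖ ≤ 4 * 2 ^ K * δ := by
        rw [norm_mul, hnorm]
        have h5 : ‖P - Q‖ ≤ 2 * (2 ^ K * (2 ^ K * δ)) := (norm_sub_le _ _).trans (by linarith)
        calc 2 / 2 ^ K * ‖P - Q‖ ≤ 2 / 2 ^ K * (2 * (2 ^ K * (2 ^ K * δ))) :=
              mul_le_mul_of_nonneg_left h5 (by positivity)
          _ = 4 * 2 ^ K * δ := by field_simp; ring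
      rw [key]
      refine (norm_add_le _ _).trans ?_
      have h6 := norm_add_le A B
      push_cast
      rw [pow_succ]
      nlinarith

end Pool.MP_1c66c9_an
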