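import Pool.Agent.Lib.MP_1c66c9_an.DyDefs

namespace Pool.MP_1c66c9_an

theorem dy_zero_fun {V : Type*} [AddCommGroup V] [Module ℂ V] (K s : ℕ) :
    dy K s (fun _ _ => (0 : V)) = 0 := by
  induction K generalizing s with
  | zero => simp [dy]
  | succ K ih => simp [dy, ih]

/-- JOB DyB. The Hilbert space bound with a free parameter `τ > 0` (induction on `K`).

With `m = 2^K`, `Sα = ∑_{a<m} α (s+m+a)`, `Sl = ∑_{j<m} β (s+j)`, `Sr = ∑_{j<m} β (s+m+j)` the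
new term is `(2/m) ⟪Sα, Sl - Sr⟫`, `‖Sα‖ ≤ m M`, so it is at most `2 M ‖Sl - Sr‖`
`≤ 2 m τ M² + ‖Sl - Sr‖² / (2 m τ)`, and by the parallelogram law
`‖Sl‖²/m + ‖Sr‖²/m = ‖Sl + Sr‖² / (2m) + ‖Sl - Sr‖² / (2m)`, so that
`E(K,s) + E(K,s+m) + ‖Sl - Sr‖²/(2m) = E(K+1,s)` where
`E(K,s) = ∑_{j<2^K} ‖β (s+j)‖² - ‖∑_{j<2^K} β (s+j)‖² / 2^K`. -/
theorem dy_bound_aux {H : Type*} [NormedAddCommGroup H] [InnerProductSpace ℂ H]
    (α β : ℕ → H) (M : ℝ) (hα : ∀ a, ‖α a‖ ≤ M) (τ : ℝ) (hτ : 0 < τ) (K s : ℕ) :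
    ‖dy K s (fun a j => inner ℂ (α a) (β j))‖ ≤ τ * M ^ 2 * 2 ^ K * K +
      (1 / τ) * (∑ j ∈ Finset.range (2 ^ K), ‖β (s + j)‖ ^ 2 -
        ‖∑ j ∈ Finset.range (2 ^ K), β (s + j)‖ ^ 2 / 2 ^ K) := by
  induction K generalizing s with
  | zero => simp [dy]
  | succ K ih =>
    have hM : 0 ≤ M := le_trans (norm_nonneg _) (hα 0)
    have hmpos : (0 : ℝ) < 2 ^ K := by positivity
    have h1 := ih s
    have h2 := ih (s + 2 ^ K)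
    set Sα : H := ∑ a ∈ Finset.range (2 ^ K), α (s + 2 ^ K + a) with hSα
    set Sl : H := ∑ j ∈ Finset.range (2 ^ K), β (s + j) with hSl
    set Sr : H := ∑ j ∈ Finset.range (2 ^ K), β (s + 2 ^ K + j) with hSr
    have hX : (∑ a ∈ Finset.range (2 ^ K),
        (∑ j ∈ Finset.range (2 ^ K), (inner ℂ (α (s + 2 ^ K + a)) (β (s + j)) : ℂ) -
          ∑ j ∈ Finset.range (2 ^ K), (inner ℂ (α (s + 2 ^ K + a)) (β (s + 2 ^ K + j)) : ℂ)))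
        = inner ℂ Sα (Sl - Sr) := by
      rw [hSα, sum_inner]
      refine Finset.sum_congr rfl fun a _ => ?_
      rw [inner_sub_right, hSl, hSr, inner_sum, inner_sum]
    have hSαn : ‖Sα‖ ≤ 2 ^ K * M := by
      calc ‖Sα‖ ≤ ∑ a ∈ Finset.range (2 ^ K), ‖α (s + 2 ^ K + a)‖ := norm_sum_le _ _
        _ ≤ ∑ a ∈ Finset.range (2 ^ K), M := Finset.sum_le_sum fun a _ => hα _
        _ = 2 ^ K * M := by simp
    have hnew : ‖((2 / 2 ^ K : ℂ) • (inner ℂ Sα (Sl - Sr) : ℂ))‖ ≤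
        2 * 2 ^ K * τ * M ^ 2 + (1 / τ) * (‖Sl - Sr‖ ^ 2 / (2 * 2 ^ K)) := by
      have hn : ‖((2 / 2 ^ K : ℂ) • (inner ℂ Sα (Sl - Sr) : ℂ))‖ ≤ 2 * M * ‖Sl - Sr‖ := by
        rw [norm_smul]
        have e1 : ‖(2 / 2 ^ K : ℂ)‖ = 2 / 2 ^ K := by simp
        rw [e1]
        have e2 : ‖(inner ℂ Sα (Sl - Sr) : ℂ)‖ ≤ 2 ^ K * M * ‖Sl - Sr‖ :=
          (norm_inner_le_norm _ _).trans (mul_le_mul_of_nonneg_right hSαn (norm_nonneg _))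
        calc (2 / 2 ^ K : ℝ) * ‖(inner ℂ Sα (Sl - Sr) : ℂ)‖
            ≤ (2 / 2 ^ K : ℝ) * (2 ^ K * M * ‖Sl - Sr‖) :=
              mul_le_mul_of_nonneg_left e2 (by positivity)
          _ = 2 * M * ‖Sl - Sr‖ := by field_simp
      refine hn.trans ?_
      have key : 0 ≤ (2 * 2 ^ K * τ * M - ‖Sl - Sr‖) ^ 2 / (2 * 2 ^ K * τ) := by positivity
      have hkey : (2 * 2 ^ K * τ * M - ‖Sl - Sr‖) ^ 2 / (2 * 2 ^ K * τ) =
          2 * 2 ^ K * τ * M ^ 2 + (1 / τ) * (‖Sl - Sr‖ ^ 2 / (2 * 2 ^ K)) -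
            2 * M * ‖Sl - Sr‖ := by
        field_simp
        ring
      linarith
    have hpar : ‖Sl + Sr‖ ^ 2 + ‖Sl - Sr‖ ^ 2 = 2 * (‖Sl‖ ^ 2 + ‖Sr‖ ^ 2) := by
      have := parallelogram_law_with_norm ℂ Sl Sr
      nlinarith [this]
    have hsum1 : ∑ j ∈ Finset.range (2 ^ (K + 1)), ‖β (s + j)‖ ^ 2 =
        ∑ j ∈ Finset.range (2 ^ K), ‖β (s + j)‖ ^ 2 +
          ∑ j ∈ Finset.range (2 ^ K), ‖β (s + 2 ^ K + j)‖ ^ 2 := by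
      rw [pow_succ, mul_two, Finset.sum_range_add]
      simp only [add_assoc]
    have hsum2 : ∑ j ∈ Finset.range (2 ^ (K + 1)), β (s + j) = Sl + Sr := by
      rw [pow_succ, mul_two, Finset.sum_range_add, hSl, hSr]
      simp only [add_assoc]
    rw [hsum1, hsum2]
    have hdy : dy (K + 1) s (fun a j => (inner ℂ (α a) (β j) : ℂ)) =
        dy K s (fun a j => (inner ℂ (α a) (β j) : ℂ)) +
        dy K (s + 2 ^ K) (fun a j => (inner ℂ (α a) (β j) : ℂ)) +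
        ((2 / 2 ^ K : ℂ) • (inner ℂ Sα (Sl - Sr) : ℂ)) := by
      rw [← hX]; rfl
    rw [hdy]
    refine (norm_add₃_le).trans ?_
    have hE : ∀ A B : ℝ, (1 / τ) * (A + B - ‖Sl + Sr‖ ^ 2 / 2 ^ (K + 1)) =
        (1 / τ) * (A - ‖Sl‖ ^ 2 / 2 ^ K) + (1 / τ) * (B - ‖Sr‖ ^ 2 / 2 ^ K) +
          (1 / τ) * (‖Sl - Sr‖ ^ 2 / (2 * 2 ^ K)) := by
      intro A B
      have h3 : ‖Sl + Sr‖ ^ 2 = 2 * (‖Sl‖ ^ 2 + ‖Sr‖ ^ 2) - ‖Sl - Sr‖ ^ 2 := by linarith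
      rw [h3, pow_succ]
      field_simp
      ring
    rw [hE]
    have hfin : τ * M ^ 2 * 2 ^ (K + 1) * ((K + 1 : ℕ) : ℝ) =
        τ * M ^ 2 * 2 ^ K * K + τ * M ^ 2 * 2 ^ K * K + 2 * 2 ^ K * τ * M ^ 2 := by
      push_cast
      ring
    rw [hfin]
    linarith

/-- JOB DyB. With `K = L²` (`L ≥ 1`) and `τ = M' / (M L)`. (Treat `M = 0` or `M' = 0` separately:
then all inner products vanish; or use `M + ε`.) -/
theorem dy_bound {H : Type*} [NormedAddCommGroup H] [InnerProductSpace ℂ H]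
    (α β : ℕ → H) (M M' : ℝ) (hα : ∀ a, ‖α a‖ ≤ M) (hβ : ∀ j, ‖β j‖ ≤ M') (L s : ℕ)
    (hL : 1 ≤ L) :
    ‖dy (L ^ 2) s (fun a j => inner ℂ (α a) (β j))‖ ≤ 2 * 2 ^ (L ^ 2) * L * M * M' := by
  have hM : 0 ≤ M := le_trans (norm_nonneg _) (hα 0)
  have hM' : 0 ≤ M' := le_trans (norm_nonneg _) (hβ 0)
  have hLpos : (0 : ℝ) < L := by exact_mod_cast hL
  rcases hM.eq_or_lt with h0 | hMpos
  · have hz : (fun a j => (inner ℂ (α a) (β j) : ℂ)) = fun _ _ => 0 := by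
      funext a j
      have : α a = 0 := norm_le_zero_iff.mp (h0 ▸ hα a)
      rw [this, inner_zero_left]
    rw [hz, dy_zero_fun, norm_zero]
    positivity
  rcases hM'.eq_or_lt with h0 | hM'pos
  · have hz : (fun a j => (inner ℂ (α a) (β j) : ℂ)) = fun _ _ => 0 := by
      funext a j
      have : β j = 0 := norm_le_zero_iff.mp (h0 ▸ hβ j)
      rw [this, inner_zero_right]
    rw [hz, dy_zero_fun, norm_zero]
    positivity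
  have hτ : 0 < M' / (M * L) := by positivity
  refine (dy_bound_aux α β M hα (M' / (M * L)) hτ (L ^ 2) s).trans ?_
  have hE : ∑ j ∈ Finset.range (2 ^ (L ^ 2)), ‖β (s + j)‖ ^ 2 -
        ‖∑ j ∈ Finset.range (2 ^ (L ^ 2)), β (s + j)‖ ^ 2 / 2 ^ (L ^ 2) ≤
        2 ^ (L ^ 2) * M' ^ 2 := by
    have h1 : ∑ j ∈ Finset.range (2 ^ (L ^ 2)), ‖β (s + j)‖ ^ 2 ≤
        ∑ j ∈ Finset.range (2 ^ (L ^ 2)), M' ^ 2 :=
      Finset.sum_le_sum fun j _ => pow_le_pow_left₀ (norm_nonneg _) (hβ _) 2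
    have h2 : ∑ j ∈ Finset.range (2 ^ (L ^ 2)), M' ^ 2 = 2 ^ (L ^ 2) * M' ^ 2 := by simp
    have h3 : 0 ≤ ‖∑ j ∈ Finset.range (2 ^ (L ^ 2)), β (s + j)‖ ^ 2 / 2 ^ (L ^ 2) := by
      positivity
    linarith
  have hle : (1 / (M' / (M * L))) * (∑ j ∈ Finset.range (2 ^ (L ^ 2)), ‖β (s + j)‖ ^ 2 -
        ‖∑ j ∈ Finset.range (2 ^ (L ^ 2)), β (s + j)‖ ^ 2 / 2 ^ (L ^ 2)) ≤
        (1 / (M' / (M * L))) * (2 ^ (L ^ 2) * M' ^ 2) :=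
    mul_le_mul_of_nonneg_left hE (by positivity)
  refine (add_le_add_right hle _).trans ?_
  apply le_of_eq
  push_cast
  field_simp
  ring

end Pool.MP_1c66c9_an
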