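import Mathlib

namespace Pool.MP_1c66c9_an

/-- The dyadic functional on matrices indexed by `[s, s + 2^K) × [s, s + 2^K)`. -/
noncomputable def dy {V : Type*} [AddCommGroup V] [Module ℂ V] : ℕ → ℕ → (ℕ → ℕ → V) → V
  | 0, _, _ => 0
  | K + 1, s, θ => dy K s θ + dy K (s + 2 ^ K) θ +
      (2 / 2 ^ K : ℂ) • ∑ a ∈ Finset.range (2 ^ K),
        (∑ j ∈ Finset.range (2 ^ K), θ (s + 2 ^ K + a) (s + j) -
          ∑ j ∈ Finset.range (2 ^ K), θ (s + 2 ^ K + a) (s + 2 ^ K + j))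

end Pool.MP_1c66c9_an
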