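import Pool.Agent.Lib.MP_1c66c9_an.MinDefs

namespace Pool.MP_1c66c9_an

universe u

private lemma finDim_corner {B : Type u} [CStarAlgebra B]
    (hmin : ∀ p : B, IsMinProj p → ∀ x : B, ∃ c : ℂ, p * x * p = c • p) {p q : B}
    (hp : IsMinProj p) (hq : IsMinProj q) :
    ∃ V : Submodule ℂ B, FiniteDimensional ℂ V ∧ ∀ y : B, p * y * q ∈ V := by
  by_cases h : ∀ y : B, p * y * q = 0
  · exact ⟨⊥, inferInstance, fun y => by rw [h y]; exact Submodule.zero_mem _⟩
  push Not at h
  obtain ⟨x, hx⟩ := h
  have hps : star p = p := hp.1.1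
  have hqs : star q = q := hq.1.1
  have hpp : p * p = p := hp.1.2
  have hqq : q * q = q := hq.1.2
  obtain ⟨c', hc'⟩ := hmin p hp (x * q * star x)
  have hxx : (p * x * q) * star (p * x * q) = c' • p := by
    rw [star_mul, star_mul, hps, hqs, ← hc']
    calc p * x * q * (q * (star x * p)) = p * x * (q * q) * star x * p := by
          simp only [mul_assoc]
      _ = p * (x * q * star x) * p := by rw [hqq]; simp only [mul_assoc]
  have hc0 : c' ≠ 0 := by
    rintro rfl
    rw [zero_smul, CStarRing.mul_star_self_eq_zero_iff] at hxx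
    exact hx hxx
  refine ⟨Submodule.span ℂ {p * x * q}, inferInstance, fun y => ?_⟩
  obtain ⟨d, hd⟩ := hmin q hq (star x * p * y)
  have hxy : star (p * x * q) * (p * y * q) = d • q := by
    rw [star_mul, star_mul, hps, hqs, ← hd]
    calc q * (star x * p) * (p * y * q) = q * star x * (p * p) * y * q := by
          simp only [mul_assoc]
      _ = q * (star x * p * y) * q := by rw [hpp]; simp only [mul_assoc]
  have h1 : c' • (p * y * q) = d • (p * x * q) := by
    calc c' • (p * y * q) = (c' • p) * (p * y * q) := by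
          rw [smul_mul_assoc, mul_assoc p y q, ← mul_assoc p p, hpp]
      _ = (p * x * q) * (star (p * x * q) * (p * y * q)) := by rw [← hxx, mul_assoc]
      _ = d • (p * x * q) := by rw [hxy, mul_smul_comm, mul_assoc (p * x) q q, hqq]
  rw [Submodule.mem_span_singleton]
  refine ⟨c'⁻¹ * d, ?_⟩
  rw [mul_smul, ← h1, smul_smul, inv_mul_cancel₀ hc0, one_smul]

private lemma finDim_right {B : Type u} [CStarAlgebra B]
    (hmin : ∀ p : B, IsMinProj p → ∀ x : B, ∃ c : ℂ, p * x * p = c • p) {p t : B}
    (hp : IsMinProj p) (ht : t ∈ AddSubmonoid.closure {p : B | IsMinProj p}) :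
    ∃ V : Submodule ℂ B, FiniteDimensional ℂ V ∧ ∀ y : B, p * y * t ∈ V := by
  induction ht using AddSubmonoid.closure_induction with
  | mem q hq => exact finDim_corner hmin hp hq
  | zero => exact ⟨⊥, inferInstance, fun y => by rw [mul_zero]; exact Submodule.zero_mem _⟩
  | add a b _ _ iha ihb =>
    obtain ⟨V, hV, hVa⟩ := iha
    obtain ⟨W, hW, hWb⟩ := ihb
    refine ⟨V ⊔ W, inferInstance, fun y => ?_⟩
    rw [mul_add]
    exact Submodule.add_mem_sup (hVa y) (hWb y)

private lemma finDim_both {B : Type u} [CStarAlgebra B]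
    (hmin : ∀ p : B, IsMinProj p → ∀ x : B, ∃ c : ℂ, p * x * p = c • p) {s t : B}
    (hs : s ∈ AddSubmonoid.closure {p : B | IsMinProj p})
    (ht : t ∈ AddSubmonoid.closure {p : B | IsMinProj p}) :
    ∃ V : Submodule ℂ B, FiniteDimensional ℂ V ∧ ∀ y : B, s * y * t ∈ V := by
  induction hs using AddSubmonoid.closure_induction with
  | mem q hq => exact finDim_right hmin hq ht
  | zero => exact ⟨⊥, inferInstance, fun y => by
      rw [zero_mul, zero_mul]; exact Submodule.zero_mem _⟩
  | add a b _ _ iha ihb =>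
    obtain ⟨V, hV, hVa⟩ := iha
    obtain ⟨W, hW, hWb⟩ := ihb
    refine ⟨V ⊔ W, inferInstance, fun y => ?_⟩
    rw [add_mul, add_mul]
    exact Submodule.add_mem_sup (hVa y) (hWb y)

/-- JOB FinDim. If `p x p ∈ ℂ p` for all minimal projections and `1` is a finite sum of minimal
projections, then `B` is finite-dimensional.

Proof. For minimal projections `p, q` the subspace `p B q` has dimension `≤ 1`: let
`x = p x q ≠ 0`. `x* x = q x* x q = c q`, `x x* = c' p` with `c' ≠ 0` (as `x ≠ 0`, C*-identity). For
`y = p y q`: `x* y = q (x* y) q = d q`, so `c' y = c' p y = x x* y = d x q = d x`, `y ∈ ℂ x`.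
Since `1 = p₁ + ⋯ + pᵣ` (`AddSubmonoid.exists_multiset_of_mem_closure` or
`AddSubmonoid.closure_induction` with the statement: for `s, t` in the closure, `{s y t}` spans a
finite-dimensional space, i.e. there is a finite-dimensional submodule containing `s * y * t` for all
`y`), `y = 1 y 1` lies in a fixed finite-dimensional subspace. -/
theorem finiteDimensional_of_minProj {B : Type u} [CStarAlgebra B]
    (hmin : ∀ p : B, IsMinProj p → ∀ x : B, ∃ c : ℂ, p * x * p = c • p)
    (h1 : (1 : B) ∈ AddSubmonoid.closure {p : B | IsMinProj p}) : FiniteDimensional ℂ B := by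
  obtain ⟨V, hV, hVy⟩ := finDim_both hmin h1 h1
  have htop : V = ⊤ := by
    rw [eq_top_iff]
    intro y _
    have := hVy y
    rwa [one_mul, mul_one] at this
  rw [htop] at hV
  exact Module.finite_def.2 (Module.Finite.iff_fg.1 hV)

end Pool.MP_1c66c9_an
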