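import Pool.Agent.Lib.MP_1c66c9_an.HeartDefs

open Filter Topology
open scoped InnerProductSpace

namespace Pool.MP_1c66c9_an

universe u

variable {B : Type u} [CStarAlgebra B] {S : Setup B} (D : XData S)
  (b : B →L[ℂ] D.X →L[ℂ] PT B (PT B D.X))

private lemma GGb_unit (z : ℂ) : ∃ c : ℂ, ‖c‖ ≤ 1 ∧ c * z = (‖z‖ : ℂ) := by
  by_cases hz : z = 0
  · exact ⟨0, by simp, by simp [hz]⟩
  · refine ⟨star z / (‖z‖ : ℂ), ?_, ?_⟩
    · rw [norm_div, norm_star, Complex.norm_real, norm_norm, div_self (norm_ne_zero_iff.2 hz)]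
    · have h1 : star z * z = (‖z‖ : ℂ) * (‖z‖ : ℂ) := by
        have := Complex.conj_mul' z
        rw [Complex.star_def, this]; ring
      have h2 : (‖z‖ : ℂ) ≠ 0 := by exact_mod_cast norm_ne_zero_iff.2 hz
      rw [div_mul_eq_mul_div, h1, mul_div_assoc, div_self h2, mul_one]

private lemma GGb_list (ι' ι : Idx B) (l : List (Set (Idx B))) (hl : l.Pairwise Disjoint) :
    ∃ x : D.X, D.Phi ι' ι (b (S.h (S.n ι')) x) = (((l.map fun E => ‖GG D b ι' ι E‖).sum : ℝ) : ℂ) ∧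
      (∀ j, ‖D.ev j x‖ ≤ 1) ∧ (∀ j, (∀ E ∈ l, j ∉ E) → D.ev j x = 0) := by
  induction l with
  | nil => exact ⟨0, by simp, fun j => by simp, fun j _ => by simp⟩
  | cons E l ih =>
      rw [List.pairwise_cons] at hl
      obtain ⟨x, hx1, hx2, hx3⟩ := ih hl.2
      obtain ⟨c, hc1, hc2⟩ := GGb_unit (GG D b ι' ι E)
      refine ⟨c • D.xE E + x, ?_, ?_, ?_⟩
      · rw [map_add, map_smul, map_add, map_smul, hx1, List.map_cons, List.sum_cons,
          Complex.ofReal_add, ← hc2, smul_eq_mul]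
        rfl
      · intro j
        rw [map_add, map_smul]
        by_cases hj : j ∈ E
        · have h0 : D.ev j x = 0 := hx3 j fun E' hE' hjE' =>
            Set.disjoint_left.1 (hl.1 E' hE') hj hjE'
          rw [h0, add_zero, (D.ev_xE E j).1 hj, norm_smul]
          have h1 := S.k_le (S.n j)
          have h2 := norm_nonneg (S.k (S.n j))
          have h3 := norm_nonneg c
          nlinarith
        · rw [(D.ev_xE E j).2 hj, smul_zero, zero_add]
          exact hx2 j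
      · intro j hj
        rw [map_add, map_smul, (D.ev_xE E j).2 (hj E (by simp)), smul_zero, zero_add]
        exact hx3 j fun E' hE' => hj E' (by simp [hE'])

/-- JOB HeartA1. The variation of `GG` is bounded by `4 ‖b‖`.

Proof. For a pairwise disjoint list `E₁, …, E_r` choose `c i` with `|c i| ≤ 1` and
`c i * GG E_i = ‖GG E_i‖`. Then `∑ ‖GG E_i‖ = Phi (b (h _) (∑ c i • xE E_i))` and
`‖∑ c i • xE E_i‖ ≤ 1` (coordinatewise: `D.norm_le`; at each `ι` at most one `E_i` contains `ι`;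
`‖S.k‖ ≤ 1`), `‖h‖ ≤ 1` (`S.hS {n}`), `Phi_bound`. Induction on the list is convenient: there is
`x : D.X` with `∑ ‖GG E_i‖ = Phi (b (h _) x)` and: for all `ι`, `‖ev ι x‖ ≤ 1`, and
`ev ι x = 0` if `ι` is in no `E_i`. -/
theorem GG_bound (ι' ι : Idx B) (l : List (Set (Idx B))) (hl : l.Pairwise Disjoint) :
    (l.map fun E => ‖GG D b ι' ι E‖).sum ≤ 4 * ‖b‖ := by
  obtain ⟨x, hx1, hx2, -⟩ := GGb_list D b ι' ι l hl
  have hx : ‖x‖ ≤ 1 := D.norm_le x 1 zero_le_one hx2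
  have hh : ‖S.h (S.n ι')‖ ≤ 1 := by
    have := S.hS {S.n ι'}
    rwa [Finset.sum_singleton] at this
  have h0 : 0 ≤ (l.map fun E => ‖GG D b ι' ι E‖).sum := by
    refine List.sum_nonneg fun r hr => ?_
    obtain ⟨E, -, rfl⟩ := List.mem_map.1 hr
    exact norm_nonneg _
  have h1 : (l.map fun E => ‖GG D b ι' ι E‖).sum = ‖D.Phi ι' ι (b (S.h (S.n ι')) x)‖ := by
    rw [hx1, Complex.norm_real, Real.norm_of_nonneg h0]
  rw [h1]
  refine (D.Phi_bound ι' ι _).trans ?_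
  refine mul_le_mul_of_nonneg_left ?_ (by norm_num)
  have h2 : ‖b (S.h (S.n ι')) x‖ ≤ ‖b‖ * ‖S.h (S.n ι')‖ * ‖x‖ := b.le_opNorm₂ _ _
  have h3 := norm_nonneg b
  have h4 := norm_nonneg x
  have h5 := norm_nonneg (S.h (S.n ι'))
  calc ‖b (S.h (S.n ι')) x‖ ≤ ‖b‖ * ‖S.h (S.n ι')‖ * ‖x‖ := h2
    _ ≤ ‖b‖ * 1 * 1 := by gcongr
    _ = ‖b‖ := by ring

end Pool.MP_1c66c9_an
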