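import Pool.Agent.Lib.MP_1c66c9_an.Phi

open Filter Topology
open scoped InnerProductSpace

namespace Pool.MP_1c66c9_an

universe u

variable {B : Type u} [CStarAlgebra B]

lemma phiLimA_inv_card (S : Setup B) :
    Tendsto (fun ι : Idx B => 1 / (1 + ((supp ι).card : ℝ))) (Filt B) (𝓝 0) := by
  rw [Metric.tendsto_nhds]
  intro ε hε
  have := S.inf
  obtain ⟨N, hN⟩ := exists_nat_gt (1 / ε)
  filter_upwards [eventually_card_ge (T := B) N] with ι hι
  have h1 : (N : ℝ) ≤ ((supp ι).card : ℝ) := by exact_mod_cast hι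
  have h2 : 0 < 1 + ((supp ι).card : ℝ) := by positivity
  rw [Real.dist_eq, sub_zero, abs_of_pos (by positivity)]
  rw [div_lt_iff₀ h2]
  rw [div_lt_iff₀ hε] at hN
  nlinarith

/-- `w ι (y * k_{n ι}) → π y ζ`. -/
lemma phiLimA_w (S : Setup B) (y : B) :
    Tendsto (fun ι => S.w ι (y * S.k (S.n ι))) (Filt B) (𝓝 (S.π y S.ζ)) := by
  rw [tendsto_iff_norm_sub_tendsto_zero]
  refine squeeze_zero' (Eventually.of_forall fun _ => norm_nonneg _) ?_ (phiLimA_inv_card S)
  filter_upwards [eventually_mem y] with ι hι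
  exact S.w_app ι y hι

namespace XData

variable {S : Setup B} (D : XData S)

lemma W_lmul (ι : Idx B) (u : B) (s : PT B D.X) :
    D.W ι (lmul B D.X u s) = S.π u (D.W ι s) := by
  have : (D.W ι).comp (lmul B D.X u) = (S.π u).comp (D.W ι) := PT_ext fun y x => by
    rw [ContinuousLinearMap.comp_apply, ContinuousLinearMap.comp_apply, lmul_tm, D.W_tm, D.W_tm,
      map_mul]
    rfl
  exact congrArg (fun f => f s) this

/-- JOB PhiLimA. `Phi ι' ι t → Theta ι (mu12 t)` in `ι'`. -/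
theorem limA (ι : Idx B) (t : PT B (PT B D.X)) :
    Tendsto (fun ι' => D.Phi ι' ι t) (Filt B) (𝓝 (D.Theta ι (mu12 B D.X t))) := by
  refine PT_tendsto (Φ := fun ι' => D.Phi ι' ι) (Ψ := (D.Theta ι).comp (mu12 B D.X))
    (fun ι' t => D.Phi_bound ι' ι t) (fun u s => ?_) t
  have h1 : ((D.Theta ι).comp (mu12 B D.X)) (tm u s) = ⟪S.π (star u) S.ζ, D.W ι s⟫_ℂ := by
    rw [ContinuousLinearMap.comp_apply, mu12_tm, S.π_star_inner]
    show ⟪S.ζ, D.W ι (lmul B D.X u s)⟫_ℂ = _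
    rw [W_lmul]
  rw [h1]
  simp only [D.Phi_tm]
  exact (phiLimA_w S (star u)).inner tendsto_const_nhds

end XData

end Pool.MP_1c66c9_an
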