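import Pool.Agent.Lib.MP_1c66c9_an.HeartDefs
import Pool.Agent.Lib.MP_1c66c9_an.PhiLimA

open Filter Topology
open scoped InnerProductSpace

namespace Pool.MP_1c66c9_an

universe u

variable {B : Type u} [CStarAlgebra B] {S : Setup B}

/-- JOB HeartA2. `kappa ι = ⟪ζ, w ι (k_{n ι})⟫ → 1`. -/
theorem kappa_lim :
    Tendsto (fun ι => ⟪S.ζ, S.w ι (S.k (S.n ι))⟫_ℂ) (Filt B) (𝓝 1) := by
  have h1 := phiLimA_w S 1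
  have h2 : Tendsto (fun ι => ⟪S.ζ, S.w ι (1 * S.k (S.n ι))⟫_ℂ) (Filt B)
      (𝓝 ⟪S.ζ, S.π 1 S.ζ⟫_ℂ) := tendsto_const_nhds.inner h1
  simp only [one_mul] at h2
  have h3 : ⟪S.ζ, S.π 1 S.ζ⟫_ℂ = 1 := by
    rw [map_one]
    show ⟪S.ζ, S.ζ⟫_ℂ = 1
    rw [inner_self_eq_norm_sq_to_K, S.ζ_norm]
    simp
  rwa [h3] at h2

end Pool.MP_1c66c9_an
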