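import Pool.Agent.Lib.MP_1c66c9_an.HeartDefs
import Pool.Agent.Lib.MP_1c66c9_an.PhiLimA

open Filter Topology
open scoped InnerProductSpace

namespace Pool.MP_1c66c9_an

universe u

variable {B : Type u} [CStarAlgebra B] {S : Setup B} (D : XData S)
  (b : B →L[ℂ] D.X →L[ℂ] PT B (PT B D.X))

private lemma HeartA3_act (l : Idx B) : D.α (S.h (S.n l)) (D.xE {l}) = D.xE {l} := by
  refine D.ev_ext _ _ fun ι => ?_
  rw [D.ev_act]
  by_cases h : ι ∈ ({l} : Set (Idx B))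
  · rw [(D.ev_xE _ ι).1 h]
    have h' : ι = l := h
    subst h'
    exact S.hk _
  · rw [(D.ev_xE _ ι).2 h, mul_zero]

private lemma HeartA3_pi_h (m : ℕ) : S.π (S.h m) S.ζ = 0 := by
  rw [← S.hg m, map_mul]
  show S.π (S.h m) (S.π (S.g m) S.ζ) = 0
  rw [S.gζ, map_zero]

private lemma HeartA3_theta_h (j : Idx B) (m : ℕ) (x : D.X) :
    D.Theta j (tm (S.h m) x) = 0 := by
  rw [D.Theta_tm, ← S.π_star_inner, (S.h_sa m).star_eq, HeartA3_pi_h, inner_zero_left]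

private lemma HeartA3_lim (hb : IsB D.α b) (j l : Idx B) :
    Tendsto (fun ι' => GG D b ι' j {l}) (Filt B)
      (𝓝 ⟪S.ζ, S.w j (D.ev j (D.xE {l}))⟫_ℂ) := by
  haveI := S.inf
  have h1 : Tendsto (fun ι' => - D.Phi ι' j (b (S.h (S.n l)) (D.xE {l}))) (Filt B)
      (𝓝 ⟪S.ζ, S.w j (D.ev j (D.xE {l}))⟫_ℂ) := by
    have h2 := (D.limA j (b (S.h (S.n l)) (D.xE {l}))).neg
    have h3 : - D.Theta j (mu12 B D.X (b (S.h (S.n l)) (D.xE {l}))) =
        ⟪S.ζ, S.w j (D.ev j (D.xE {l}))⟫_ℂ := by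
      rw [hb.mu12_eq, HeartA3_act, map_sub, HeartA3_theta_h, D.Theta_tm, map_one]
      simp
    rwa [h3] at h2
  refine h1.congr' ?_
  filter_upwards [eventually_card_ge (T := B) (S.n l + 1)] with ι' hι'
  have hne : S.n ι' ≠ S.n l := by
    have := S.n_ge ι'
    omega
  have h4 := hb.left (S.h (S.n ι')) (S.h (S.n l)) (D.xE {l})
  rw [S.hh_ne hne, HeartA3_act, map_zero, ContinuousLinearMap.zero_apply, zero_sub] at h4
  have h5 := D.Phi_lmul ι' j (S.h (S.n ι'))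
    (by rw [(S.h_sa _).star_eq, S.hk]) (b (S.h (S.n l)) (D.xE {l}))
  rw [h4, map_neg] at h5
  show - D.Phi ι' j (b (S.h (S.n l)) (D.xE {l})) = D.Phi ι' j (b (S.h (S.n ι')) (D.xE {l}))
  rw [← h5, neg_neg]

/-- JOB HeartA3. The limit of `GG ι' j {l}` in `ι'`: `kappa j` if `j = l` and `0` otherwise. -/
theorem GG_limA (hb : IsB D.α b) (j l : Idx B) :
    (j = l → Tendsto (fun ι' => GG D b ι' j {l}) (Filt B)
      (𝓝 ⟪S.ζ, S.w j (S.k (S.n j))⟫_ℂ)) ∧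
    (j ≠ l → Tendsto (fun ι' => GG D b ι' j {l}) (Filt B) (𝓝 0)) := by
  have h := HeartA3_lim D b hb j l
  constructor
  · intro hjl
    have h1 : D.ev j (D.xE {l}) = S.k (S.n j) := (D.ev_xE _ j).1 hjl
    rwa [h1] at h
  · intro hjl
    have h1 : D.ev j (D.xE {l}) = 0 := (D.ev_xE _ j).2 hjl
    rw [h1, map_zero, inner_zero_right] at h
    exact h

end Pool.MP_1c66c9_an
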