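import Pool.Agent.Lib.MP_1c66c9_an.HeartDefs

open Filter Topology
open scoped InnerProductSpace

namespace Pool.MP_1c66c9_an

universe u

variable {B : Type u} [CStarAlgebra B] {S : Setup B} (D : XData S)
  (b : B →L[ℂ] D.X →L[ℂ] PT B (PT B D.X))

/-- JOB HeartA4. `h_S` for a finite set of values: if `x` has `h_{S} x = 0` and `n ι' ∈ s`,
then `Phi ι' ι (b (∑_{n ∈ s} h n) x) = Phi ι' ι (b (h_{n ι'}) x)`.

Proof. `hb.left (g n') (∑ h) x`: `g n' * ∑ h = h n'` (`S.gh`, `OrthSeq.gh_ne`),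
`D.α (∑ h) x = 0`, so `lmul (g n') (b (∑ h) x) = b (h n') x`; `Phi_lmul` with
`star (g n') * k = k` (`OrthSeq.gk`). -/
theorem Phi_hS (hb : IsB D.α b) (ι' ι : Idx B) (s : Finset ℕ) (hs : S.n ι' ∈ s) (x : D.X)
    (hx : D.α (∑ n ∈ s, S.h n) x = 0) :
    D.Phi ι' ι (b (∑ n ∈ s, S.h n) x) = D.Phi ι' ι (b (S.h (S.n ι')) x) := by
  have h1 := hb.left (S.g (S.n ι')) (∑ n ∈ s, S.h n) x
  rw [hx, map_zero, sub_zero] at h1
  have h2 : S.g (S.n ι') * ∑ n ∈ s, S.h n = S.h (S.n ι') := by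
    rw [Finset.mul_sum, Finset.sum_eq_single (S.n ι')]
    · exact S.gh _
    · intro m _ hm
      exact S.gh_ne (Ne.symm hm)
    · intro h
      exact absurd hs h
  rw [h2] at h1
  rw [← h1]
  symm
  apply D.Phi_lmul
  rw [(S.g_sa _).star_eq]
  exact S.gk _

end Pool.MP_1c66c9_an
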