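import Pool.Agent.Lib.MP_1c66c9_an.Phi
import Pool.Agent.Lib.MP_1c66c9_an.DyA
import Pool.Agent.Lib.MP_1c66c9_an.DyB

open Filter Topology
open scoped InnerProductSpace

namespace Pool.MP_1c66c9_an

universe u

variable {B : Type u} [CStarAlgebra B] {S : Setup B} (D : XData S)

/-- A bounded functional on a projective tensor product can be bounded on elementary tensors. -/
theorem heartB1_bound {E F : Type*} [NormedAddCommGroup E] [NormedSpace ℂ E]
    [NormedAddCommGroup F] [NormedSpace ℂ F] (Ψ : PT E F →L[ℂ] ℂ) {C : ℝ} (hC : 0 ≤ C)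
    (h : ∀ x y, ‖Ψ (tm x y)‖ ≤ C * ‖x‖ * ‖y‖) (t : PT E F) : ‖Ψ t‖ ≤ C * ‖t‖ := by
  have h1 : Ψ = lift ((ContinuousLinearMap.compL ℂ F (PT E F) ℂ Ψ).comp (tmL E F)) :=
    PT_ext fun x y => by
      rw [lift_tm]
      rfl
  rw [h1]
  exact lift_bound _ hC (fun x y => h x y) t

/-- JOB HeartB1. The dyadic functional applied to the functionals `Phi` has norm
`≤ 8 · 2^(L²) · L`. -/
theorem dy_Phi_bound (i i' : ℕ → Idx B) (L : ℕ) (hL : 1 ≤ L) (t : PT B (PT B D.X)) :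
    ‖dy (L ^ 2) 0 (fun a j => D.Phi (i' a) (i j) t)‖ ≤ 8 * 2 ^ (L ^ 2) * L * ‖t‖ := by
  have h0 : ∀ t : PT B (PT B D.X), dy (L ^ 2) 0 (fun a j => D.Phi (i' a) (i j) t) =
      (dy (L ^ 2) 0 (fun a j => D.Phi (i' a) (i j)) : PT B (PT B D.X) →L[ℂ] ℂ) t := by
    intro t
    exact (dy_map ((ContinuousLinearMap.apply ℂ ℂ t).toLinearMap) (L ^ 2) 0
      (fun a j => D.Phi (i' a) (i j))).symm
  rw [h0]
  refine heartB1_bound _ (by positivity) (fun u v => ?_) t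
  rw [← h0]
  have h1 : (fun a j => D.Phi (i' a) (i j) (tm u v)) =
      fun a j => ⟪S.lv (i' a) u, D.W (i j) v⟫_ℂ := by
    funext a j
    rw [D.Phi_tm]
  rw [h1]
  refine (dy_bound (fun a => S.lv (i' a) u) (fun j => D.W (i j) v) (2 * ‖u‖) (2 * ‖v‖)
    (fun a => S.lv_bound _ _) (fun j => D.W_bound _ _) L 0 hL).trans (le_of_eq ?_)
  ring

end Pool.MP_1c66c9_an
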