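import Pool.Agent.Lib.MP_1c66c9_an.Core

open Filter Topology

namespace Pool.MP_1c66c9_an

universe u

/-- JOB PhilB. The combinatorial selection.

`V ι E` is nonnegative, monotone and superadditive in `E`. If `γ` is an injective map from
`(m+1)`-tuples of finite sets to the index set with `a i ⊆ supp (γ a)`, and
`V ι (range γ \ {ι}) ≤ m δ` for all `ι ∈ range γ`, then there is `J ⊆ range γ` which is frequent
(`∃ᶠ ι in Filt T, ι ∈ J`) with `V ι (J \ {ι}) < δ` for all `ι ∈ J`.

Proof by induction on `m`. `m = 0`: `J = range γ` (frequent by `frequently_iff`: for `F` take the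
tuple `fun _ => F`), `V ≤ 0 < δ`. Step `m → m + 1` (so `γ` lives on `(m+2)`-tuples): for each
`(m+1)`-tuple `a` let `J_a = {γ (Fin.cons c a) | c}`, pairwise disjoint (`Fin.cons_injective2`) and each
frequent. If some `J_a` has `V ι (J_a \ {ι}) < δ` for all `ι ∈ J_a`: done. Otherwise choose
`c a` with `ι_a = γ (Fin.cons (c a) a)` and `V ι_a (J_a \ {ι_a}) ≥ δ`; `γ' a = ι_a` is injective
with `a i ⊆ supp (γ' a)` (`Fin.cons_succ`), and `range γ' \ {ι_a}`, `J_a \ {ι_a}` are disjoint subsets of
`range γ \ {ι_a}`, so `V ι_a (range γ' \ {ι_a}) ≤ (m + 1) δ - δ = m δ`. Apply the induction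
hypothesis to `γ'`. -/
theorem phillips_select {T : Type u} (V : Idx T → Set (Idx T) → ℝ)
    (hV0 : ∀ ι E, 0 ≤ V ι E) (hmono : ∀ ι E E', E ⊆ E' → V ι E ≤ V ι E')
    (hsup : ∀ ι E E', Disjoint E E' → V ι E + V ι E' ≤ V ι (E ∪ E'))
    (δ : ℝ) (hδ : 0 < δ) (m : ℕ) (γ : (Fin (m + 1) → Finset T) → Idx T)
    (hγ : Function.Injective γ) (hsub : ∀ a i, a i ⊆ supp (γ a))
    (hle : ∀ ι ∈ Set.range γ, V ι (Set.range γ \ {ι}) ≤ m * δ) :
    ∃ J ⊆ Set.range γ, (∃ᶠ ι in Filt T, ι ∈ J) ∧ ∀ ι ∈ J, V ι (J \ {ι}) < δ := by
  induction m with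
  | zero =>
      refine ⟨Set.range γ, subset_rfl, ?_, ?_⟩
      · rw [frequently_iff]
        intro F
        exact ⟨γ (fun _ => F), hsub (fun _ => F) 0, Set.mem_range_self _⟩
      · intro ι hι
        have h := hle ι hι
        have h2 : V ι (Set.range γ \ {ι}) ≤ 0 := by simpa using h
        linarith
  | succ m ih =>
      have hdisj : ∀ a a' : Fin (m + 1) → Finset T, ∀ c c' : Finset T,
          γ (Fin.cons c a) = γ (Fin.cons c' a') → c = c' ∧ a = a' := by
        intro a a' c c' h
        exact Fin.cons_injective2 (hγ h)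
      have hfreq : ∀ a : Fin (m + 1) → Finset T,
          ∃ᶠ ι in Filt T, ι ∈ Set.range (fun c : Finset T => γ (Fin.cons c a)) := by
        intro a
        rw [frequently_iff]
        intro F
        refine ⟨γ (Fin.cons F a), ?_, F, rfl⟩
        have h := hsub (Fin.cons F a) 0
        rwa [Fin.cons_zero] at h
      have hJsub : ∀ a : Fin (m + 1) → Finset T,
          Set.range (fun c : Finset T => γ (Fin.cons c a)) ⊆ Set.range γ := by
        rintro a _ ⟨c, rfl⟩
        exact ⟨_, rfl⟩
      by_cases hex : ∃ a : Fin (m + 1) → Finset T,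
          ∀ ι ∈ Set.range (fun c : Finset T => γ (Fin.cons c a)),
            V ι (Set.range (fun c : Finset T => γ (Fin.cons c a)) \ {ι}) < δ
      · obtain ⟨a, ha⟩ := hex
        exact ⟨_, hJsub a, hfreq a, ha⟩
      · have hex' : ∀ a : Fin (m + 1) → Finset T, ∃ c : Finset T,
            δ ≤ V (γ (Fin.cons c a))
              (Set.range (fun c : Finset T => γ (Fin.cons c a)) \ {γ (Fin.cons c a)}) := by
          intro a
          by_contra hcon
          apply hex
          refine ⟨a, ?_⟩
          rintro _ ⟨c, rfl⟩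
          by_contra hc
          exact hcon ⟨c, not_lt.1 hc⟩
        choose c hc using hex'
        have hinj : Function.Injective (fun a : Fin (m + 1) → Finset T => γ (Fin.cons (c a) a)) := by
          intro a a' h
          exact (hdisj a a' (c a) (c a') h).2
        have hsub' : ∀ (a : Fin (m + 1) → Finset T) (i : Fin (m + 1)),
            a i ⊆ supp (γ (Fin.cons (c a) a)) := by
          intro a i
          have h := hsub (Fin.cons (c a) a) i.succ
          rwa [Fin.cons_succ] at h
        have hsubr : Set.range (fun a : Fin (m + 1) → Finset T => γ (Fin.cons (c a) a)) ⊆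
            Set.range γ := by
          rintro _ ⟨a, rfl⟩
          exact ⟨_, rfl⟩
        have hle' : ∀ ι ∈ Set.range (fun a : Fin (m + 1) → Finset T => γ (Fin.cons (c a) a)),
            V ι (Set.range (fun a : Fin (m + 1) → Finset T => γ (Fin.cons (c a) a)) \ {ι}) ≤
              (m : ℝ) * δ := by
          rintro _ ⟨a, rfl⟩
          have hd : Disjoint
              (Set.range (fun a : Fin (m + 1) → Finset T => γ (Fin.cons (c a) a)) \
                {γ (Fin.cons (c a) a)})
              (Set.range (fun c : Finset T => γ (Fin.cons c a)) \ {γ (Fin.cons (c a) a)}) := by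
            rw [Set.disjoint_left]
            rintro x ⟨⟨a', rfl⟩, hne⟩ ⟨⟨c', hc'⟩, _⟩
            have hc'' : γ (Fin.cons c' a) = γ (Fin.cons (c a') a') := hc'
            have h := hdisj a a' c' (c a') hc''
            apply hne
            have haa : a = a' := h.2
            subst haa
            exact Set.mem_singleton _
          have h1 := hsup (γ (Fin.cons (c a) a)) _ _ hd
          have h2 : (Set.range (fun a : Fin (m + 1) → Finset T => γ (Fin.cons (c a) a)) \
                {γ (Fin.cons (c a) a)}) ∪
              (Set.range (fun c : Finset T => γ (Fin.cons c a)) \ {γ (Fin.cons (c a) a)}) ⊆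
              Set.range γ \ {γ (Fin.cons (c a) a)} := by
            apply Set.union_subset
            · exact Set.diff_subset_diff_left hsubr
            · exact Set.diff_subset_diff_left (hJsub a)
          have h3 := hmono (γ (Fin.cons (c a) a)) _ _ h2
          have h4 := hle (γ (Fin.cons (c a) a)) ⟨_, rfl⟩
          have h5 := hc a
          push_cast at h4
          have h6 : ((m : ℝ) + 1) * δ = m * δ + δ := by ring
          rw [h6] at h4
          show V (γ (Fin.cons (c a) a)) _ ≤ _
          linarith
        obtain ⟨J, hJ1, hJ2, hJ3⟩ := ih _ hinj hsub' hle'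
        exact ⟨J, hJ1.trans hsubr, hJ2, hJ3⟩

end Pool.MP_1c66c9_an
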