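import Pool.Agent.Lib.MP_1c66c9_an.PhilA
import Pool.Agent.Lib.MP_1c66c9_an.PhilB

open Filter Topology

namespace Pool.MP_1c66c9_an

universe u

/-- JOB PhilC. Rosenthal-Phillips: if `μ ι E → 0` along the filter for every fixed set `E`, then
frequently `|μ ι {ι}| < δ`.

Proof. Otherwise (`frequently_iff`) there is `F0` with `‖μ ι {ι}‖ ≥ δ` for all `ι` with
`F0 ⊆ supp ι`. Choose `m` with `C ≤ m (δ / 2)` and `γ a = F0 :: List.ofFn a` (injective:
`List.ofFn_injective`; support contains `F0` and all `a i`). `phillips_select` with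
`V ι = vari (μ ι)` and `δ / 2` gives a frequent `J` with `vari (μ ι) (J \ {ι}) < δ/2` on `J`. For
`ι ∈ J`: `μ ι J = μ ι {ι} + μ ι (J \ {ι})`, so `‖μ ι J‖ > δ / 2`. But `μ ι J → 0`:
contradiction. -/
theorem phillips {T : Type u} (μ : Idx T → Set (Idx T) → ℂ)
    (hadd : ∀ ι E E', Disjoint E E' → μ ι (E ∪ E') = μ ι E + μ ι E')
    (C : ℝ) (hC : ∀ ι, ∀ l : List (Set (Idx T)), l.Pairwise Disjoint →
      (l.map fun E => ‖μ ι E‖).sum ≤ C)
    (hlim : ∀ E, Tendsto (fun ι => μ ι E) (Filt T) (𝓝 0)) (δ : ℝ) (hδ : 0 < δ) :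
    ∃ᶠ ι in Filt T, ‖μ ι {ι}‖ < δ := by
  by_contra hcon
  have hcon' : ∀ᶠ ι in Filt T, δ ≤ ‖μ ι {ι}‖ := by
    rw [Filter.not_frequently] at hcon
    filter_upwards [hcon] with ι hι
    exact not_lt.1 hι
  rw [eventually_iff] at hcon'
  obtain ⟨F0, hF0⟩ := hcon'
  have hp : ∀ ι : Idx T, _ := fun ι => vari_props (μ ι) C (hC ι)
  obtain ⟨m, hm⟩ := exists_nat_ge (C / (δ / 2))
  have hδ2 : 0 < δ / 2 := by linarith
  have hm' : C ≤ m * (δ / 2) := by
    rwa [div_le_iff₀ hδ2] at hm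
  let γ : (Fin (m + 1) → Finset T) → Idx T := fun a => F0 :: List.ofFn a
  have hγinj : Function.Injective γ := by
    intro a a' h
    have h2 : List.ofFn a = List.ofFn a' := (List.cons.inj h).2
    exact List.ofFn_injective h2
  have hsub : ∀ (a : Fin (m + 1) → Finset T) (i : Fin (m + 1)), a i ⊆ supp (γ a) := by
    intro a i
    apply subset_supp_of_mem
    exact List.mem_cons_of_mem _ (List.mem_ofFn.2 ⟨i, rfl⟩)
  have hF0sub : ∀ a, F0 ⊆ supp (γ a) := by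
    intro a
    apply subset_supp_of_mem
    exact List.mem_cons_self
  obtain ⟨J, hJ1, hJ2, hJ3⟩ := phillips_select (fun ι => vari (μ ι))
    (fun ι E => (hp ι).1 E) (fun ι E E' h => (hp ι).2.2.1 E E' h)
    (fun ι E E' h => (hp ι).2.2.2.1 E E' h) (δ / 2) hδ2 m γ hγinj hsub
    (fun ι _ => ((hp ι).2.1 _).trans hm')
  have hsmall : ∀ᶠ ι in Filt T, ‖μ ι J‖ < δ / 2 := by
    have h := (hlim J).norm
    rw [norm_zero] at h
    exact h.eventually (gt_mem_nhds hδ2)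
  obtain ⟨ι, hιJ, hι⟩ := (hJ2.and_eventually hsmall).exists
  have h1 : μ ι J = μ ι {ι} + μ ι (J \ {ι}) := by
    rw [← hadd ι {ι} (J \ {ι}) Set.disjoint_sdiff_right]
    congr 1
    rw [Set.union_sdiff_cancel]
    exact Set.singleton_subset_iff.2 hιJ
  have h2 : ‖μ ι (J \ {ι})‖ < δ / 2 := lt_of_le_of_lt ((hp ι).2.2.2.2 _) (hJ3 ι hιJ)
  have h3 : δ ≤ ‖μ ι {ι}‖ := by
    obtain ⟨a, ha⟩ := hJ1 hιJ
    apply hF0
    rw [← ha]
    exact hF0sub a
  have h4 : ‖μ ι {ι}‖ ≤ ‖μ ι J‖ + ‖μ ι (J \ {ι})‖ := by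
    have h5 : μ ι {ι} = μ ι J - μ ι (J \ {ι}) := by rw [h1]; ring
    rw [h5]
    exact norm_sub_le _ _
  linarith

end Pool.MP_1c66c9_an
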