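import Pool.Agent.Lib.MP_1c66c9_an.SelDefs
import Pool.Agent.Lib.MP_1c66c9_an.PhilC

open Filter Topology

namespace Pool.MP_1c66c9_an

universe u

variable {T : Type u} (D : SelData T)

private lemma selA_nn (M : ℕ) : ∀ᶠ ι in Filt T, M < D.nn ι := by
  have := D.inf
  filter_upwards [eventually_card_ge (T := T) (M + 1)] with ι hι
  have := D.nn_ge ι
  omega

private lemma selA_fin (ι' j : Idx T) (δ : ℝ) (hδ : 0 < δ) :
    {ι : Idx T | δ < ‖D.G ι' j {ι}‖}.Finite := by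
  by_contra hinf
  have hinf' : {ι : Idx T | δ < ‖D.G ι' j {ι}‖}.Infinite := hinf
  obtain ⟨k, hk⟩ := exists_nat_gt (D.C / δ)
  obtain ⟨s, hs, hcard⟩ := hinf'.exists_subset_card_eq k
  have h1 := D.bound ι' j (s.toList.map fun ι => ({ι} : Set (Idx T))) (by
    rw [List.pairwise_map]
    refine (Finset.nodup_toList s).imp ?_
    intro a b hab
    exact Set.disjoint_singleton.2 hab)
  rw [List.map_map] at h1
  have h2 : (s.toList.map ((fun E => ‖D.G ι' j E‖) ∘ fun ι => ({ι} : Set (Idx T)))).sum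
      = ∑ ι ∈ s, ‖D.G ι' j {ι}‖ := by
    rw [Finset.sum_map_toList]
    rfl
  rw [h2] at h1
  have h3 : ∑ _ι ∈ s, δ ≤ ∑ ι ∈ s, ‖D.G ι' j {ι}‖ :=
    Finset.sum_le_sum fun ι hι => (hs (Finset.mem_coe.2 hι)).le
  rw [Finset.sum_const, hcard, nsmul_eq_mul] at h3
  rw [div_lt_iff₀ hδ] at hk
  linarith

private lemma selA_avoid (ι' j : Idx T) (δ : ℝ) (hδ : 0 < δ) :
    ∀ᶠ ι in Filt T, ‖D.G ι' j {ι}‖ ≤ δ := by
  have h := (Filter.eventually_all_finite (selA_fin D ι' j δ hδ)).2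
    (fun ι0 _ => selA_nn D (D.nn ι0))
  filter_upwards [h] with ι hι
  by_contra hcon
  have := hι ι (not_le.1 hcon)
  exact lt_irrefl _ this

private lemma selA_freq (N : ℕ) (δ : ℝ) (hδ : 0 < δ) (i' : ℕ → Idx T) :
    ∃ᶠ ι in Filt T, ∀ a < N, ‖D.G (i' a) ι {ι}‖ ≤ δ := by
  classical
  let aa : Idx T → ℕ := fun ι => if h : ∃ a, a < N ∧ δ ≤ ‖D.G (i' a) ι {ι}‖ then h.choose else 0
  have haa : ∀ ι, aa ι ∈ Finset.range (N + 1) := by
    intro ι
    simp only [aa]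
    split_ifs with h
    · have := h.choose_spec.1
      exact Finset.mem_range.2 (by omega)
    · exact Finset.mem_range.2 (Nat.succ_pos N)
  have hph := phillips (fun ι E => D.G (i' (aa ι)) ι E) (fun ι E E' h => D.add _ _ _ _ h) D.C
    (fun ι l hl => D.bound _ _ l hl) (by
      intro E
      have h1 : Tendsto (fun ι => ∑ a ∈ Finset.range (N + 1), ‖D.G (i' a) ι E‖) (Filt T)
          (𝓝 0) := by
        have h2 : Tendsto (fun ι => ∑ a ∈ Finset.range (N + 1), ‖D.G (i' a) ι E‖) (Filt T)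
            (𝓝 (∑ a ∈ Finset.range (N + 1), (0 : ℝ))) := by
          refine tendsto_finsetSum _ fun a _ => ?_
          have := (D.limB (i' a) E).norm
          rwa [norm_zero] at this
        rwa [Finset.sum_const_zero] at h2
      refine squeeze_zero_norm (fun ι => ?_) h1
      exact Finset.single_le_sum (f := fun a => ‖D.G (i' a) ι E‖) (fun a _ => norm_nonneg _)
        (haa ι)) δ hδ
  refine hph.mono ?_
  intro ι hι a ha
  by_contra hcon
  have hex : ∃ a, a < N ∧ δ ≤ ‖D.G (i' a) ι {ι}‖ := ⟨a, ha, (not_le.1 hcon).le⟩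
  have h1 : aa ι = hex.choose := by
    simp only [aa]
    rw [dif_pos hex]
  simp only [h1] at hι
  have h2 := hex.choose_spec.2
  exact absurd hι (not_lt.2 h2)

/-- JOB SelA. Choice of the next `i N`: given good data for `N`, there is `ι` with new `nn`-value,
`|κ ι - 1| ≤ δ/2`, and `|G (i' a) (i j) {ι}|, |G (i' a) ι {i l}|, |G (i' a) ι {ι}| ≤ δ` for all
`a, j, l < N`.

Proof. Eventually: `nn ι > M` (`eventually_card_ge`, `nn_ge`), `|κ ι - 1| ≤ δ/2`,
`‖G (i' a) ι {i l}‖ ≤ δ` (`limB`). For each `a, j` only finitely many `ι` have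
`‖G (i' a) (i j) {ι}‖ > δ` (`bound` for lists of distinct singletons), and a finite set of indices is
eventually avoided (`nn ι` is eventually larger than its maximum on the finite set). Frequently
`‖G (i' a) ι {ι}‖ < δ` for all `a < N` simultaneously: otherwise, eventually there is
`a(ι) < N` with `‖G (i' a(ι)) ι {ι}‖ ≥ δ`; apply `phillips` to `μ ι E = G (i' a(ι)) ι E`
(`a(ι)` arbitrary, e.g. by choice, when there is none), for which
`‖μ ι E‖ ≤ ∑ a < N, ‖G (i' a) ι E‖ → 0`. (For `N = 0`: nothing to do for this condition; take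
care of `a(ι)`.) -/
theorem select_step_i (N : ℕ) (δ : ℝ) (hδ : 0 < δ) (i i' : ℕ → Idx T) :
    ∃ ι : Idx T, (∀ j < N, D.nn ι ≠ D.nn (i j)) ∧ (∀ a < N, D.nn ι ≠ D.nn (i' a)) ∧
      ‖D.κ ι - 1‖ ≤ δ / 2 ∧ (∀ a < N, ∀ j < N, ‖D.G (i' a) (i j) {ι}‖ ≤ δ) ∧
      (∀ a < N, ∀ l < N, ‖D.G (i' a) ι {i l}‖ ≤ δ) ∧ ∀ a < N, ‖D.G (i' a) ι {ι}‖ ≤ δ := by
  classical
  obtain ⟨M, hM⟩ : ∃ M : ℕ, ∀ j < N, D.nn (i j) ≤ M ∧ D.nn (i' j) ≤ M := by
    refine ⟨∑ j ∈ Finset.range N, (D.nn (i j) + D.nn (i' j)), fun j hj => ?_⟩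
    have h0 : D.nn (i j) + D.nn (i' j)
        ≤ ∑ j ∈ Finset.range N, (D.nn (i j) + D.nn (i' j)) :=
      Finset.single_le_sum (f := fun j => D.nn (i j) + D.nn (i' j))
        (fun _ _ => Nat.zero_le _) (Finset.mem_range.2 hj)
    omega
  have e1 := selA_nn D M
  have e2 : ∀ᶠ ι in Filt T, ‖D.κ ι - 1‖ ≤ δ / 2 := by
    have := (Metric.tendsto_nhds.1 D.κ_lim) (δ / 2) (by linarith)
    filter_upwards [this] with ι hι
    rw [dist_eq_norm] at hι
    exact hι.le
  have e3 : ∀ᶠ ι in Filt T, ∀ a < N, ∀ j < N, ‖D.G (i' a) (i j) {ι}‖ ≤ δ :=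
    (Filter.eventually_all_finite (Set.finite_lt_nat N)).2 fun a _ =>
      (Filter.eventually_all_finite (Set.finite_lt_nat N)).2 fun j _ =>
        selA_avoid D (i' a) (i j) δ hδ
  have e4 : ∀ᶠ ι in Filt T, ∀ a < N, ∀ l < N, ‖D.G (i' a) ι {i l}‖ ≤ δ := by
    refine (Filter.eventually_all_finite (Set.finite_lt_nat N)).2 fun a _ =>
      (Filter.eventually_all_finite (Set.finite_lt_nat N)).2 fun l _ => ?_
    have := (Metric.tendsto_nhds.1 (D.limB (i' a) {i l})) δ hδ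
    filter_upwards [this] with ι hι
    rw [dist_eq_norm, sub_zero] at hι
    exact hι.le
  obtain ⟨ι, h5, h1, h2, h3, h4⟩ :=
    ((selA_freq D N δ hδ i').and_eventually (e1.and (e2.and (e3.and e4)))).exists
  refine ⟨ι, fun j hj => ?_, fun a ha => ?_, h2, h3, h4, h5⟩
  · have := (hM j hj).1
    omega
  · have := (hM a ha).2
    omega

end Pool.MP_1c66c9_an
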