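import Pool.Agent.Lib.MP_1c66c9_an.SelDefs
import Pool.Agent.Lib.MP_1c66c9_an.SelA

open Filter Topology

namespace Pool.MP_1c66c9_an

universe u

variable {T : Type u} (D : SelData T)

/-- eventually the `nn`-value is larger than a given number -/
private lemma selB_ev_gt (M : ℕ) : ∀ᶠ ι in Filt T, M < D.nn ι := by
  have := D.inf
  filter_upwards [eventually_card_ge (T := T) (M + 1)] with ι hι
  have := D.nn_ge ι
  omega

/-- JOB SelB. Choice of the next `i' N` and induction: good data exist for every `N`.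

Proof. Induction on `N`, with the additional invariant `∀ j < N, ‖κ (i j) - 1‖ ≤ δ/2`. Given good
`(i, i')` for `N`, choose `ι` by `select_step_i`, set `i N := ι` (`Function.update`). Then
eventually in `ι'`: `nn ι'` is different from all `nn (i j)` (`j ≤ N`), `nn (i' a)` (`a < N`), and
`‖G ι' (i j) {i l} - (if j = l then κ (i j) else 0)‖ ≤ δ/2` for `j, l ≤ N` (`limA`, `limA'`; for
`j ≠ l`, `i j ≠ i l` as their `nn`-values differ). Put `i' N := ι'`. -/
theorem exists_good (N : ℕ) (δ : ℝ) (hδ : 0 < δ) : ∃ i i' : ℕ → Idx T, Good D N δ i i' := by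
  suffices H : ∃ i i' : ℕ → Idx T, Good D N δ i i' ∧ ∀ j < N, ‖D.κ (i j) - 1‖ ≤ δ / 2 by
    obtain ⟨i, i', h, -⟩ := H
    exact ⟨i, i', h⟩
  induction N with
  | zero =>
    refine ⟨fun _ => [], fun _ => [], ⟨?_, ?_, ?_, ?_⟩, ?_⟩
    all_goals (intro a ha; exact absurd ha (Nat.not_lt_zero _))
  | succ N ih =>
    obtain ⟨i₀, i'₀, hg, hκ⟩ := ih
    obtain ⟨ι, h1, h2, h3, h4, h5, h6⟩ := select_step_i D N δ hδ i₀ i'₀
    -- the new `i`
    set i : ℕ → Idx T := Function.update i₀ N ι with hi
    have iN : i N = ι := by simp [hi]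
    have iL : ∀ j < N, i j = i₀ j := by
      intro j hj
      simp [hi, Function.update_of_ne hj.ne]
    have hκ' : ∀ j < N + 1, ‖D.κ (i j) - 1‖ ≤ δ / 2 := by
      intro j hj
      rcases Nat.lt_succ_iff_lt_or_eq.1 hj with hj | rfl
      · rw [iL j hj]; exact hκ j hj
      · rw [iN]; exact h3
    have hd1 : ∀ j < N + 1, ∀ l < N + 1, j ≠ l → D.nn (i j) ≠ D.nn (i l) := by
      intro j hj l hl hjl
      rcases Nat.lt_succ_iff_lt_or_eq.1 hj with hj | rfl
      · rcases Nat.lt_succ_iff_lt_or_eq.1 hl with hl | rfl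
        · rw [iL j hj, iL l hl]; exact hg.d1 j hj l hl hjl
        · rw [iL j hj, iN]; exact (h1 j hj).symm
      · rcases Nat.lt_succ_iff_lt_or_eq.1 hl with hl | rfl
        · rw [iL l hl, iN]; exact h1 l hl
        · exact absurd rfl hjl
    -- the new `i'`
    have e1 : ∀ᶠ ι' in Filt T, ∀ j ∈ Finset.range (N + 1), D.nn (i j) < D.nn ι' :=
      (Finset.eventually_all _).2 fun j _ => selB_ev_gt D _
    have e2 : ∀ᶠ ι' in Filt T, ∀ a ∈ Finset.range N, D.nn (i'₀ a) < D.nn ι' :=
      (Finset.eventually_all _).2 fun j _ => selB_ev_gt D _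
    have e3 : ∀ᶠ ι' in Filt T, ∀ j ∈ Finset.range (N + 1), ∀ l ∈ Finset.range (N + 1),
        ‖D.G ι' (i j) {i l} - (if j = l then D.κ (i j) else 0)‖ ≤ δ / 2 := by
      refine (Finset.eventually_all _).2 fun j hj => (Finset.eventually_all _).2 fun l hl => ?_
      rw [Finset.mem_range] at hj hl
      have hlim : Tendsto (fun ι' => D.G ι' (i j) {i l}) (Filt T)
          (𝓝 (if j = l then D.κ (i j) else 0)) := by
        split_ifs with hjl
        · subst hjl
          exact D.limA (i j)
        · refine D.limA' (i j) (i l) fun h => ?_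
          exact hd1 j hj l hl hjl (by rw [h])
      have := (Metric.tendsto_nhds.1 hlim) (δ / 2) (by positivity)
      filter_upwards [this] with ι' hι'
      rw [dist_eq_norm] at hι'
      exact hι'.le
    obtain ⟨ι', g1, g2, g3⟩ := (e1.and (e2.and e3)).exists
    set i' : ℕ → Idx T := Function.update i'₀ N ι' with hi'
    have i'N : i' N = ι' := by simp [hi']
    have i'L : ∀ j < N, i' j = i'₀ j := by
      intro j hj
      simp [hi', Function.update_of_ne hj.ne]
    refine ⟨i, i', ⟨hd1, ?_, ?_, ?_⟩, hκ'⟩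
    · -- d2
      intro a ha l hl
      rcases Nat.lt_succ_iff_lt_or_eq.1 ha with ha | rfl
      · rw [i'L a ha]
        rcases Nat.lt_succ_iff_lt_or_eq.1 hl with hl | rfl
        · rw [iL l hl]; exact hg.d2 a ha l hl
        · rw [iN]; exact (h2 a ha).symm
      · rw [i'N]
        exact (g1 l (Finset.mem_range.2 hl)).ne'
    · -- d3
      intro a ha b hb hab
      rcases Nat.lt_succ_iff_lt_or_eq.1 ha with ha | rfl
      · rcases Nat.lt_succ_iff_lt_or_eq.1 hb with hb | rfl
        · rw [i'L a ha, i'L b hb]; exact hg.d3 a ha b hb hab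
        · rw [i'L a ha, i'N]; exact (g2 a (Finset.mem_range.2 ha)).ne
      · rcases Nat.lt_succ_iff_lt_or_eq.1 hb with hb | rfl
        · rw [i'L b hb, i'N]; exact (g2 b (Finset.mem_range.2 hb)).ne'
        · exact absurd rfl hab
    · -- near
      intro a ha j hj l hl
      rcases Nat.lt_succ_iff_lt_or_eq.1 ha with ha | rfl
      · rw [i'L a ha]
        rcases Nat.lt_succ_iff_lt_or_eq.1 hj with hj | rfl
        · rw [iL j hj]
          rcases Nat.lt_succ_iff_lt_or_eq.1 hl with hl | rfl
          · rw [iL l hl]; exact hg.near a ha j hj l hl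
          · rw [iN, if_neg (by omega), sub_zero]; exact h4 a ha j hj
        · rw [iN]
          rcases Nat.lt_succ_iff_lt_or_eq.1 hl with hl | rfl
          · rw [iL l hl, if_neg (by omega), sub_zero]; exact h5 a ha l hl
          · rw [iN, if_neg (by omega), sub_zero]; exact h6 a ha
      · rw [i'N]
        have h := g3 j (Finset.mem_range.2 hj) l (Finset.mem_range.2 hl)
        by_cases hjl : j = l
        · rw [if_pos hjl] at h
          rw [if_pos ⟨hjl, by omega⟩]
          have hk := hκ' j hj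
          calc ‖D.G ι' (i j) {i l} - 1‖
              = ‖(D.G ι' (i j) {i l} - D.κ (i j)) + (D.κ (i j) - 1)‖ := by ring_nf
            _ ≤ ‖D.G ι' (i j) {i l} - D.κ (i j)‖ + ‖D.κ (i j) - 1‖ := norm_add_le _ _
            _ ≤ δ := by linarith
        · rw [if_neg hjl] at h
          rw [if_neg (by tauto)]
          linarith

end Pool.MP_1c66c9_an
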