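import Pool.Agent.Lib.MP_1c66c9_an.SelDefs

open Filter Topology

namespace Pool.MP_1c66c9_an

universe u

variable {T : Type u} (D : SelData T)

private lemma selC_empty (ι' ι : Idx T) : D.G ι' ι ∅ = 0 := by
  have h := D.add ι' ι ∅ ∅ (by simp)
  rw [Set.union_empty] at h
  exact (add_eq_left.1 h.symm)

private lemma selC_sum {N : ℕ} {δ : ℝ} {i i' : ℕ → Idx T} (hg : Good D N δ i i') (α ι : Idx T)
    (M : ℕ) (hM : M ≤ N) :
    D.G α ι {x | ∃ l < M, i l = x} = ∑ l ∈ Finset.range M, D.G α ι {i l} := by
  induction M with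
  | zero =>
      have : {x : Idx T | ∃ l < 0, i l = x} = ∅ := by
        ext x; simp
      rw [this, selC_empty]; simp
  | succ M ih =>
      have hset : {x : Idx T | ∃ l < M + 1, i l = x} = {x | ∃ l < M, i l = x} ∪ {i M} := by
        ext x
        simp only [Set.mem_setOf_eq, Set.mem_union, Set.mem_singleton_iff]
        constructor
        · rintro ⟨l, hl, rfl⟩
          rcases Nat.lt_succ_iff_lt_or_eq.1 hl with h | h
          · exact Or.inl ⟨l, h, rfl⟩
          · right; rw [h]
        · rintro (⟨l, hl, rfl⟩ | h)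
          · exact ⟨l, by omega, rfl⟩
          · exact ⟨M, by omega, h.symm⟩
      have hdisj : Disjoint {x : Idx T | ∃ l < M, i l = x} {i M} := by
        rw [Set.disjoint_singleton_right]
        rintro ⟨l, hl, hlM⟩
        exact hg.d1 l (by omega) M (by omega) (by omega) (by rw [hlM])
      rw [hset, D.add _ _ _ _ hdisj, ih (by omega), Finset.sum_range_succ]

/-- JOB SelC. The set function on `{i l | l < N}`: `G (i' a) (i j) {i 0, …, i (N-1)}` is
`N δ`-close to `1` if `j ≤ a` and to `0` otherwise (finite additivity; the `i l` are distinct since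
their `nn`-values are; `G ∅ = 0` by additivity). -/
theorem good_sum {N : ℕ} {δ : ℝ} {i i' : ℕ → Idx T} (hg : Good D N δ i i') (a j : ℕ)
    (ha : a < N) (hj : j < N) :
    ‖D.G (i' a) (i j) {ι | ∃ l < N, i l = ι} - (if j ≤ a then 1 else 0)‖ ≤ N * δ := by
  have hone : (if j ≤ a then (1 : ℂ) else 0) =
      ∑ l ∈ Finset.range N, (if j = l ∧ j ≤ a then (1 : ℂ) else 0) := by
    rw [Finset.sum_eq_single j]
    · simp
    · intro b _ hb
      rw [if_neg]
      rintro ⟨h, _⟩
      exact hb h.symm
    · intro h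
      exact absurd (Finset.mem_range.2 hj) h
  rw [selC_sum D hg _ _ N le_rfl, hone, ← Finset.sum_sub_distrib]
  refine (norm_sum_le _ _).trans ?_
  refine (Finset.sum_le_sum (fun l hl =>
    hg.near a ha j hj l (Finset.mem_range.1 hl))).trans ?_
  simp

end Pool.MP_1c66c9_an
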