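import Pool.Agent.Lib.MP_1c66c9_an.HeartSel
import Pool.Agent.Lib.MP_1c66c9_an.HeartA4
import Pool.Agent.Lib.MP_1c66c9_an.HeartB1
import Pool.Agent.Lib.MP_1c66c9_an.SelB
import Pool.Agent.Lib.MP_1c66c9_an.SelC
import Pool.Agent.Lib.MP_1c66c9_an.DyA

open Filter Topology
open scoped InnerProductSpace

namespace Pool.MP_1c66c9_an

universe u

variable {B : Type u} [CStarAlgebra B] {S : Setup B} (D : XData S)

/-- JOB HeartB2. No bilinear map as in `IsB` exists: the final contradiction. -/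
theorem no_b (b : B →L[ℂ] D.X →L[ℂ] PT B (PT B D.X)) (hb : IsB D.α b) : False := by
  obtain ⟨L, hL⟩ := exists_nat_gt (32 * ‖b‖ + 4)
  have hb0 : 0 ≤ ‖b‖ := norm_nonneg b
  have hL4 : (4 : ℝ) < L := by linarith
  have hL1 : 1 ≤ L := by
    have : (1 : ℝ) ≤ L := by linarith
    exact_mod_cast this
  obtain ⟨N, hN⟩ : ∃ N : ℕ, N = 2 ^ (L ^ 2) := ⟨_, rfl⟩
  have hNr : (N : ℝ) = 2 ^ (L ^ 2) := by rw [hN]; push_cast; rfl
  have hNpos : (0 : ℝ) < N := by rw [hNr]; positivity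
  obtain ⟨i, i', hg⟩ := exists_good (selData D b hb) N (1 / (8 * N)) (by positivity)
  let E : Set (Idx B) := {ι | ∃ l < N, i l = ι}
  let s : Finset ℕ := (Finset.range N).image (fun a => S.n (i' a))
  have hx1 : ‖D.xE E‖ ≤ 1 := D.norm_le _ 1 zero_le_one fun ι => by
    by_cases h : ι ∈ E
    · rw [(D.ev_xE E ι).1 h]; exact S.k_le _
    · rw [(D.ev_xE E ι).2 h, norm_zero]; exact zero_le_one
  have hx0 : D.α (∑ n ∈ s, S.h n) (D.xE E) = 0 := by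
    refine D.ev_ext _ _ fun ι => ?_
    rw [D.ev_act, map_zero]
    by_cases h : ι ∈ E
    · rw [(D.ev_xE E ι).1 h, Finset.sum_mul]
      refine Finset.sum_eq_zero fun n hn => ?_
      obtain ⟨a, ha, rfl⟩ := Finset.mem_image.1 hn
      obtain ⟨l, hl, rfl⟩ := h
      exact S.toOrthSeq.hk_ne (hg.d2 a (Finset.mem_range.1 ha) l hl)
    · rw [(D.ev_xE E ι).2 h, mul_zero]
  obtain ⟨t, ht⟩ : ∃ t, t = b (∑ n ∈ s, S.h n) (D.xE E) := ⟨_, rfl⟩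
  have htn : ‖t‖ ≤ ‖b‖ := by
    rw [ht]
    have h1 := b.le_opNorm₂ (∑ n ∈ s, S.h n) (D.xE E)
    have h2 : ‖∑ n ∈ s, S.h n‖ ≤ 1 := S.hS s
    have h3 := norm_nonneg (∑ n ∈ s, S.h n)
    have h4 := norm_nonneg (D.xE E)
    calc ‖b (∑ n ∈ s, S.h n) (D.xE E)‖ ≤ ‖b‖ * ‖∑ n ∈ s, S.h n‖ * ‖D.xE E‖ := h1
      _ ≤ ‖b‖ * 1 * 1 := by gcongr
      _ = ‖b‖ := by ring
  have hθ : ∀ a j, a < N → j < N →
      ‖D.Phi (i' a) (i j) t - (if j ≤ a then 1 else 0)‖ ≤ 1 / 8 := by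
    intro a j ha hj
    rw [ht, Phi_hS D b hb (i' a) (i j) s
      (Finset.mem_image.2 ⟨a, Finset.mem_range.2 ha, rfl⟩) _ hx0]
    refine (good_sum (selData D b hb) hg a j ha hj).trans (le_of_eq ?_)
    field_simp
  have h1 := dy_near (L ^ 2) 0 (fun a j => D.Phi (i' a) (i j) t)
    (fun a j => if j ≤ a then (1 : ℂ) else 0) (1 / 8) (fun a j _ ha _ hj => by
      rw [zero_add, ← hN] at ha hj
      exact hθ a j ha hj)
  have h3 := dy_Phi_bound D i i' L hL1 t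
  rw [dy_triangular] at h1
  have h4 : ‖(2 ^ (L ^ 2) * ((L ^ 2 : ℕ) : ℂ) / 2 - 2 ^ (L ^ 2) + 1 : ℂ)‖ =
      |(N : ℝ) * (L : ℝ) ^ 2 / 2 - N + 1| := by
    have h40 : (2 ^ (L ^ 2) * ((L ^ 2 : ℕ) : ℂ) / 2 - 2 ^ (L ^ 2) + 1 : ℂ) =
        (((N : ℝ) * (L : ℝ) ^ 2 / 2 - N + 1 : ℝ) : ℂ) := by
      rw [hNr]
      push_cast
      ring
    rw [h40, Complex.norm_real, Real.norm_eq_abs]
  have h5 : (N : ℝ) * (L : ℝ) ^ 2 / 2 - N + 1 ≤ 8 * N * L * ‖b‖ + 2 * (L : ℝ) ^ 2 * N * (1 / 8) := by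
    have h6 : ‖(2 ^ (L ^ 2) * ((L ^ 2 : ℕ) : ℂ) / 2 - 2 ^ (L ^ 2) + 1 : ℂ)‖ ≤
        ‖dy (L ^ 2) 0 (fun a j => D.Phi (i' a) (i j) t)‖ +
        ‖dy (L ^ 2) 0 (fun a j => D.Phi (i' a) (i j) t) -
          (2 ^ (L ^ 2) * ((L ^ 2 : ℕ) : ℂ) / 2 - 2 ^ (L ^ 2) + 1 : ℂ)‖ := by
      have := norm_sub_le (dy (L ^ 2) 0 (fun a j => D.Phi (i' a) (i j) t))
        (dy (L ^ 2) 0 (fun a j => D.Phi (i' a) (i j) t) -
          (2 ^ (L ^ 2) * ((L ^ 2 : ℕ) : ℂ) / 2 - 2 ^ (L ^ 2) + 1 : ℂ))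
      rwa [sub_sub_cancel] at this
    rw [h4] at h6
    have h7 := (le_abs_self _).trans (h6.trans (add_le_add h3 h1))
    rw [← hNr] at h7
    push_cast at h7
    have h8 : 8 * (N : ℝ) * L * ‖t‖ ≤ 8 * N * L * ‖b‖ := by gcongr
    linarith
  have h9 : (N : ℝ) * ((L : ℝ) ^ 2 / 4 - 1 - 8 * L * ‖b‖) ≤ 0 := by nlinarith
  have h10 : 0 < (L : ℝ) ^ 2 / 4 - 1 - 8 * L * ‖b‖ := by nlinarith
  exact absurd h9 (not_le.2 (mul_pos hNpos h10))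

end Pool.MP_1c66c9_an
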