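import Pool.Agent.Lib.MP_1c66c9_an.Phi

open Filter Topology
open scoped InnerProductSpace

namespace Pool.MP_1c66c9_an

universe u

variable {B : Type u} [CStarAlgebra B] {S : Setup B} (D : XData S)
  (b : B →L[ℂ] D.X →L[ℂ] PT B (PT B D.X))

/-- The set functions. -/
noncomputable def GG (ι' ι : Idx B) (E : Set (Idx B)) : ℂ :=
  D.Phi ι' ι (b (S.h (S.n ι')) (D.xE E))

/-- `xE` is additive on disjoint sets. -/
lemma xE_union {E E' : Set (Idx B)} (h : Disjoint E E') : D.xE (E ∪ E') = D.xE E + D.xE E' := by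
  refine D.ev_ext _ _ fun ι => ?_
  rw [map_add]
  by_cases h1 : ι ∈ E
  · have h2 : ι ∉ E' := Set.disjoint_left.1 h h1
    rw [(D.ev_xE _ ι).1 (Or.inl h1), (D.ev_xE _ ι).1 h1, (D.ev_xE _ ι).2 h2, add_zero]
  · by_cases h2 : ι ∈ E'
    · rw [(D.ev_xE _ ι).1 (Or.inr h2), (D.ev_xE _ ι).2 h1, (D.ev_xE _ ι).1 h2, zero_add]
    · rw [(D.ev_xE _ ι).2 (by rintro (h | h) <;> contradiction), (D.ev_xE _ ι).2 h1,
        (D.ev_xE _ ι).2 h2, add_zero]

end Pool.MP_1c66c9_an
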