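import Pool.Agent.Lib.MP_1c66c9_an.Phi

open Filter Topology
open scoped InnerProductSpace

namespace Pool.MP_1c66c9_an

universe u

variable {B : Type u} [CStarAlgebra B]

namespace XData

variable {S : Setup B} (D : XData S)

/-- The functional `u ⊗ x ↦ ⟪lv u, w ι (x ι)⟫`. -/
noncomputable def Omega (ι' ι : Idx B) : PT B D.X →L[ℂ] ℂ :=
  (lift (S.lamBil ι')).comp (mapR B ((S.w ι).comp (D.ev ι)))

lemma Omega_tm (ι' ι : Idx B) (u : B) (x : D.X) :
    D.Omega ι' ι (tm u x) = ⟪S.lv ι' u, S.w ι (D.ev ι x)⟫_ℂ := by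
  unfold Omega
  rw [ContinuousLinearMap.comp_apply, mapR_tm, lift_tm]
  rfl

lemma Omega_bound (ι' ι : Idx B) (t : PT B D.X) : ‖D.Omega ι' ι t‖ ≤ 4 * ‖t‖ := by
  unfold Omega
  rw [ContinuousLinearMap.comp_apply]
  have h1 : ‖lift (S.lamBil ι') (mapR B ((S.w ι).comp (D.ev ι)) t)‖ ≤
      2 * ‖mapR B ((S.w ι).comp (D.ev ι)) t‖ :=
    lift_bound _ (by norm_num) (fun u v => by
      rw [S.lamBil_apply]
      refine (norm_inner_le_norm _ _).trans ?_
      exact mul_le_mul_of_nonneg_right (S.lv_bound ι' u) (norm_nonneg v)) _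
  have h2 := mapR_bound (E := B) ((S.w ι).comp (D.ev ι)) t
  have h3 : ‖(S.w ι).comp (D.ev ι)‖ ≤ 2 :=
    ContinuousLinearMap.opNorm_le_bound _ (by norm_num) (fun x => by
      rw [ContinuousLinearMap.comp_apply]
      exact (S.w_le _ _).trans (by have := D.ev_le ι x; linarith))
  have h4 := norm_nonneg t
  nlinarith

/-- JOB PhiLimB. If `mu23 t = 0` then `Phi ι' ι t → 0` in `ι`. -/
theorem limB (ι' : Idx B) (t : PT B (PT B D.X)) (ht : mu23 D.α t = 0) :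
    Tendsto (fun ι => D.Phi ι' ι t) (Filt B) (𝓝 0) := by
  -- the difference operators
  let Δ : Idx B → PT B (PT B D.X) →L[ℂ] ℂ := fun ι =>
    D.Phi ι' ι - (D.Omega ι' ι).comp (mu23 D.α)
  have hΔ : ∀ ι t, ‖Δ ι t‖ ≤ (4 + 4 * ‖mu23 D.α‖) * ‖t‖ := by
    intro ι t
    show ‖D.Phi ι' ι t - D.Omega ι' ι (mu23 D.α t)‖ ≤ _
    have h1 := D.Phi_bound ι' ι t
    have h2 := D.Omega_bound ι' ι (mu23 D.α t)
    have h3 := (mu23 D.α).le_opNorm t
    have h4 := norm_sub_le (D.Phi ι' ι t) (D.Omega ι' ι (mu23 D.α t))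
    nlinarith
  have key : ∀ t, Tendsto (fun ι => Δ ι t) (Filt B)
      (𝓝 ((0 : PT B (PT B D.X) →L[ℂ] ℂ) t)) := by
    refine PT_tendsto hΔ fun u s => ?_
    let Δu : Idx B → PT B D.X →L[ℂ] ℂ := fun ι => (Δ ι).comp (tmL B (PT B D.X) u)
    have hΔu : ∀ ι s, ‖Δu ι s‖ ≤ ((4 + 4 * ‖mu23 D.α‖) * ‖u‖) * ‖s‖ := by
      intro ι s
      refine (hΔ ι (tm u s)).trans ?_
      rw [mul_assoc]
      exact mul_le_mul_of_nonneg_left (norm_tm_le u s) (by positivity)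
    have := PT_tendsto (Ψ := (0 : PT B D.X →L[ℂ] ℂ)) (l := Filt B) hΔu (fun y x => ?_) s
    · exact this
    · show Tendsto (fun ι => D.Phi ι' ι (tm u (tm y x)) -
        D.Omega ι' ι (mu23 D.α (tm u (tm y x)))) (Filt B) (𝓝 0)
      have h1 : ∀ ι, D.Phi ι' ι (tm u (tm y x)) - D.Omega ι' ι (mu23 D.α (tm u (tm y x))) =
          ⟪S.lv ι' u, S.π y (S.w ι (D.ev ι x)) - S.w ι (y * D.ev ι x)⟫_ℂ := by
        intro ι
        rw [D.Phi_tm, D.W_tm, mu23_tm_tm, D.Omega_tm, D.ev_act, inner_sub_right]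
      simp only [h1]
      rw [tendsto_zero_iff_norm_tendsto_zero]
      have h2 := (D.lim x y).const_mul ‖S.lv ι' u‖
      rw [mul_zero] at h2
      refine squeeze_zero (fun _ => norm_nonneg _) (fun ι => ?_) h2
      refine (norm_inner_le_norm _ _).trans (le_of_eq ?_)
      rw [norm_sub_rev]
  have h := key t
  have h1 : ∀ ι, Δ ι t = D.Phi ι' ι t := by
    intro ι
    show D.Phi ι' ι t - D.Omega ι' ι (mu23 D.α t) = _
    rw [ht, map_zero, sub_zero]
  simp only [h1] at h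
  exact h

end XData

end Pool.MP_1c66c9_an
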