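import Pool.Agent.Lib.MP_1c66c9_an.Core

open Filter Topology

namespace Pool.MP_1c66c9_an

universe u

/-- The family of set functions used in the selection: `G ι' ι E`. -/
structure SelData (T : Type u) where
  inf : Infinite T
  nn : Idx T → ℕ
  nn_ge : ∀ ι, (supp ι).card ≤ nn ι
  G : Idx T → Idx T → Set (Idx T) → ℂ
  add : ∀ ι' ι E E', Disjoint E E' → G ι' ι (E ∪ E') = G ι' ι E + G ι' ι E'
  C : ℝ
  bound : ∀ ι' ι, ∀ l : List (Set (Idx T)), l.Pairwise Disjoint →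
    (l.map fun E => ‖G ι' ι E‖).sum ≤ C
  limB : ∀ ι' E, Tendsto (fun ι => G ι' ι E) (Filt T) (𝓝 0)
  κ : Idx T → ℂ
  κ_lim : Tendsto κ (Filt T) (𝓝 1)
  limA : ∀ j, Tendsto (fun ι' => G ι' j {j}) (Filt T) (𝓝 (κ j))
  limA' : ∀ j l, j ≠ l → Tendsto (fun ι' => G ι' j {l}) (Filt T) (𝓝 0)

variable {T : Type u} (D : SelData T)

/-- Indices `i 0, i' 0, …, i (N-1), i' (N-1)` are well chosen: `nn`-values distinct and
`G (i' a) (i j) {i l}` is `δ`-close to `1` if `j = l ≤ a` and to `0` otherwise. -/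
structure Good (N : ℕ) (δ : ℝ) (i i' : ℕ → Idx T) : Prop where
  d1 : ∀ j < N, ∀ l < N, j ≠ l → D.nn (i j) ≠ D.nn (i l)
  d2 : ∀ a < N, ∀ l < N, D.nn (i' a) ≠ D.nn (i l)
  d3 : ∀ a < N, ∀ b < N, a ≠ b → D.nn (i' a) ≠ D.nn (i' b)
  near : ∀ a < N, ∀ j < N, ∀ l < N,
    ‖D.G (i' a) (i j) {i l} - (if j = l ∧ j ≤ a then 1 else 0)‖ ≤ δ

end Pool.MP_1c66c9_an
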