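import Pool.Agent.Lib.MP_1c66c9_an.HeartA1
import Pool.Agent.Lib.MP_1c66c9_an.HeartA2
import Pool.Agent.Lib.MP_1c66c9_an.HeartA3
import Pool.Agent.Lib.MP_1c66c9_an.PhiLimB
import Pool.Agent.Lib.MP_1c66c9_an.SelDefs

open Filter Topology
open scoped InnerProductSpace

namespace Pool.MP_1c66c9_an

universe u

variable {B : Type u} [CStarAlgebra B] {S : Setup B} (D : XData S)
  (b : B →L[ℂ] D.X →L[ℂ] PT B (PT B D.X))

/-- The selection data. -/
noncomputable def selData (hb : IsB D.α b) : SelData B where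
  inf := S.inf
  nn := S.n
  nn_ge := S.n_ge
  G := GG D b
  add ι' ι E E' h := by
    unfold GG
    rw [xE_union D h, map_add, map_add]
  C := 4 * ‖b‖
  bound ι' ι l hl := GG_bound D b ι' ι l hl
  limB ι' E := D.limB ι' _ (hb.mu23_eq _ _)
  κ := fun ι => ⟪S.ζ, S.w ι (S.k (S.n ι))⟫_ℂ
  κ_lim := kappa_lim
  limA j := (GG_limA D b hb j j).1 rfl
  limA' j l h := (GG_limA D b hb j l).2 h

end Pool.MP_1c66c9_an
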