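import Pool.Agent.Lib.MP_1c66c9_an.MinDefs

namespace Pool.MP_1c66c9_an

universe u

private lemma minProj_sa {B : Type u} [CStarAlgebra B]
    (hfin : ∀ a : B, IsSelfAdjoint a → (spectrum ℝ a).Finite) (p : B) (hp : IsMinProj p) (x : B)
    (hx : IsSelfAdjoint x) : ∃ c : ℝ, p * x * p = c • p := by
  obtain ⟨⟨hpsa, hpp⟩, hp0, hmin⟩ := hp
  set y := p * x * p with hy
  have hysa : IsSelfAdjoint y := by
    have := hx.conjugate p
    rwa [hpsa.star_eq] at this
  have hpy : p * y = y := by rw [hy, ← mul_assoc, ← mul_assoc, hpp]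
  have hyp : y * p = y := by rw [hy, mul_assoc, hpp]
  have hfy : (spectrum ℝ y).Finite := hfin y hysa
  have hco : ∀ f : ℝ → ℝ, ContinuousOn f (spectrum ℝ y) := fun f => hfy.continuousOn f
  by_cases hex : ∃ t ∈ spectrum ℝ y, t ≠ 0
  · obtain ⟨t, ht, ht0⟩ := hex
    let f : ℝ → ℝ := fun s => if s = t then 1 else 0
    have hq : IsProj (cfc f y) := by
      refine ⟨cfc_predicate f y, ?_⟩
      rw [← cfc_mul f f y (hco _) (hco _)]
      refine cfc_congr fun s _ => ?_
      show f s * f s = f s
      by_cases h : s = t <;> simp [f, h]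
    have hq0 : cfc f y ≠ 0 := by
      intro h0
      have h1 := norm_apply_le_norm_cfc f y ht (hco f)
      rw [h0, norm_zero] at h1
      have h2 : f t = 1 := by simp [f]
      rw [h2] at h1
      norm_num at h1
    have hyq : cfc f y = y * cfc (fun s => f s / s) y := by
      have h1 : y * cfc (fun s => f s / s) y
          = cfc (fun s : ℝ => s) y * cfc (fun s => f s / s) y := by
        rw [cfc_id' ℝ y]
      rw [h1, ← cfc_mul _ _ y (hco _) (hco _)]
      refine cfc_congr fun s _ => ?_
      show f s = s * (f s / s)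
      by_cases h : s = t
      · subst h
        field_simp
      · simp [f, h]
    have hpq : p * cfc f y = cfc f y := by
      rw [hyq, ← mul_assoc, hpy]
    rcases hmin _ hq hpq with h | h
    · exact absurd h hq0
    · refine ⟨t, ?_⟩
      have h1 : y = y * cfc f y := by rw [h, hyp]
      have h2 : y * cfc f y = cfc (fun s : ℝ => s) y * cfc f y := by
        rw [cfc_id' ℝ y]
      rw [h1, h2, ← cfc_mul _ _ y (hco _) (hco _), ← h, ← cfc_smul t f y (hco _)]
      refine cfc_congr fun s _ => ?_
      show s * f s = t * f s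
      by_cases h : s = t
      · rw [h]
      · simp [f, h]
  · push Not at hex
    refine ⟨0, ?_⟩
    rw [zero_smul]
    have h1 : y = cfc (fun s : ℝ => s) y := (cfc_id' ℝ y).symm
    rw [h1, ← cfc_zero (R := ℝ) (a := y)]
    refine cfc_congr fun s hs => ?_
    exact hex s hs

/-- JOB MinProj. If all self-adjoint elements have finite spectrum, then `p x p` is a multiple
of `p` for every minimal projection `p`.

Proof. First `x` self-adjoint; put `y = p x p`, self-adjoint with `p y = y = y p`. If `y = 0` done.
Otherwise the (finite) real spectrum of `y` contains some `t ≠ 0` (a self-adjoint element with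
spectrum `⊆ {0}` is `0`: `y = cfc id y = cfc 0 y = 0`). Let `f s = if s = t then 1 else 0`
(continuous on the finite set `spectrum ℝ y`, `Set.Finite.continuousOn`). `q = cfc f y` is a projection,
`q ≠ 0` (`f ≠ 0` on the spectrum; `cfc_eq_zero`-type lemma or spectral mapping), and
`q = y * cfc (f/s) y` (as `f s = s * (f s / s)`), so `p q = q`; by minimality `q = p`.
Then `y = y p = y q = cfc (s f) y = t cfc f y = t q = t p`. For general `x` use
`x = ℜ x + I ℑ x` (`realPart_add_I_smul_imaginaryPart`). -/
theorem minProj_compress {B : Type u} [CStarAlgebra B]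
    (hfin : ∀ a : B, IsSelfAdjoint a → (spectrum ℝ a).Finite) (p : B) (hp : IsMinProj p) (x : B) :
    ∃ c : ℂ, p * x * p = c • p := by
  obtain ⟨a, ha⟩ := minProj_sa hfin p hp (realPart x : B) (realPart x).2
  obtain ⟨b, hb⟩ := minProj_sa hfin p hp (imaginaryPart x : B) (imaginaryPart x).2
  refine ⟨(a : ℂ) + Complex.I * (b : ℂ), ?_⟩
  have hx : x = (realPart x : B) + Complex.I • (imaginaryPart x : B) :=
    (realPart_add_I_smul_imaginaryPart x).symm
  have h1 : p * x * p = p * (realPart x : B) * p + Complex.I • (p * (imaginaryPart x : B) * p) := by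
    conv_lhs => rw [hx]
    rw [mul_add, add_mul, mul_smul_comm, smul_mul_assoc]
  rw [h1, ha, hb, add_smul, mul_smul]
  rfl

end Pool.MP_1c66c9_an
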