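import Pool.Agent.Lib.MP_1c66c9_an.Core

open Filter Topology
open scoped ENNReal

namespace Pool.MP_1c66c9_an

universe u

namespace ModXAux

variable {B : Type u} [CStarAlgebra B]

/-- bounded functions on the index set -/
abbrev LE (B : Type u) [CStarAlgebra B] : Type u := lp (fun _ : Idx B => B) ∞

lemma memLE {f : Idx B → B} (C : ℝ) (hf : ∀ ι, ‖f ι‖ ≤ C) : Memℓp f ∞ :=
  memℓp_infty ⟨C, by rintro _ ⟨ι, rfl⟩; exact hf ι⟩

lemma norm_apply (h : LE B) (ι : Idx B) : ‖(h : ∀ _, B) ι‖ ≤ ‖h‖ :=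
  lp.norm_apply_le_norm ENNReal.top_ne_zero h ι

/-- pointwise left multiplication -/
noncomputable def actE (a : B) (h : LE B) : LE B :=
  ⟨fun ι => a * (h : ∀ _, B) ι, memLE (‖a‖ * ‖h‖) fun ι =>
    (norm_mul_le _ _).trans (mul_le_mul_of_nonneg_left (norm_apply h ι) (norm_nonneg _))⟩

lemma actE_apply (a : B) (h : LE B) (ι : Idx B) :
    (actE a h : ∀ _, B) ι = a * (h : ∀ _, B) ι := rfl

lemma norm_actE (a : B) (h : LE B) : ‖actE a h‖ ≤ ‖a‖ * ‖h‖ := by
  refine lp.norm_le_of_forall_le (by positivity) fun ι => ?_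
  rw [actE_apply]
  exact (norm_mul_le _ _).trans (mul_le_mul_of_nonneg_left (norm_apply h ι) (norm_nonneg _))

variable (S : Setup B)

/-- the defect -/
noncomputable def defect (y : B) (ι : Idx B) (v : B) : S.H :=
  S.w ι (y * v) - S.π y (S.w ι v)

lemma defect_add (y : B) (ι : Idx B) (v v' : B) :
    defect S y ι (v + v') = defect S y ι v + defect S y ι v' := by
  unfold defect
  rw [mul_add, map_add, map_add, map_add]
  abel

lemma defect_sub (y : B) (ι : Idx B) (v v' : B) :
    defect S y ι (v - v') = defect S y ι v - defect S y ι v' := by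
  unfold defect
  rw [mul_sub, map_sub, map_sub, map_sub]
  abel

lemma defect_smul (y : B) (ι : Idx B) (c : ℂ) (v : B) :
    defect S y ι (c • v) = c • defect S y ι v := by
  unfold defect
  rw [mul_smul_comm, map_smul, map_smul, map_smul, smul_sub]

lemma defect_mul (y a : B) (ι : Idx B) (v : B) :
    defect S y ι (a * v) = defect S (y * a) ι v - S.π y (defect S a ι v) := by
  unfold defect
  rw [map_sub, map_mul S.π y a, mul_assoc, mul_apply_eq_comp]
  abel

lemma norm_pi_le (y : B) : ‖S.π y‖ ≤ ‖y‖ := by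
  let _ : CStarAlgebra (S.H →L[ℂ] S.H) := {}
  exact NonUnitalStarAlgHom.norm_apply_le (S.π : B →⋆ₙₐ[ℂ] (S.H →L[ℂ] S.H)) y

lemma norm_pi_apply_le (y : B) (v : S.H) : ‖S.π y v‖ ≤ ‖y‖ * ‖v‖ :=
  (ContinuousLinearMap.le_opNorm _ _).trans
    (mul_le_mul_of_nonneg_right (norm_pi_le S y) (norm_nonneg _))

lemma norm_defect_le (y : B) (ι : Idx B) (v : B) : ‖defect S y ι v‖ ≤ 4 * ‖y‖ * ‖v‖ := by
  unfold defect
  refine (norm_sub_le _ _).trans ?_
  have h1 : ‖S.w ι (y * v)‖ ≤ 2 * (‖y‖ * ‖v‖) :=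
    (S.w_le ι _).trans (mul_le_mul_of_nonneg_left (norm_mul_le _ _) (by norm_num))
  have h2 : ‖S.π y (S.w ι v)‖ ≤ ‖y‖ * (2 * ‖v‖) :=
    (norm_pi_apply_le S y _).trans (mul_le_mul_of_nonneg_left (S.w_le ι _) (norm_nonneg _))
  calc _ ≤ 2 * (‖y‖ * ‖v‖) + ‖y‖ * (2 * ‖v‖) := add_le_add h1 h2
    _ = _ := by ring

/-- the condition defining the module -/
def Good (h : LE B) : Prop :=
  ∀ y : B, Tendsto (fun ι => defect S y ι ((h : ∀ _, B) ι)) (Filt B) (𝓝 0)

/-- the module as a submodule of the space of bounded functions -/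
noncomputable def XS : Submodule ℂ (LE B) where
  carrier := {h | Good S h}
  zero_mem' := by
    intro y
    have : (fun ι => defect S y ι (((0 : LE B) : ∀ _, B) ι)) = fun _ => 0 := by
      funext ι
      simp [defect]
    rw [this]
    exact tendsto_const_nhds
  add_mem' := by
    intro a b ha hb y
    have h := (ha y).add (hb y)
    rw [add_zero] at h
    refine h.congr fun ι => ?_
    rw [lp.coeFn_add, Pi.add_apply, defect_add]
  smul_mem' := by
    intro c a ha y
    have h := (ha y).const_smul c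
    rw [smul_zero] at h
    refine h.congr fun ι => ?_
    rw [lp.coeFn_smul, Pi.smul_apply, defect_smul]

lemma mem_XS {h : LE B} : h ∈ XS S ↔ Good S h := Iff.rfl

lemma isClosed_XS : IsClosed (XS S : Set (LE B)) := by
  rw [← closure_subset_iff_isClosed]
  intro h hh y
  rw [Metric.mem_closure_iff] at hh
  rw [Metric.tendsto_nhds]
  intro ε hε
  have hpos : (0 : ℝ) < 8 * ‖y‖ + 1 := by positivity
  obtain ⟨h', hh', hd⟩ := hh (ε / (8 * ‖y‖ + 1)) (by positivity)
  have h1 := hh' y
  rw [Metric.tendsto_nhds] at h1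
  filter_upwards [h1 (ε / 2) (half_pos hε)] with ι hι
  rw [dist_zero_right] at hι ⊢
  have h2 : defect S y ι ((h : ∀ _, B) ι) =
      defect S y ι ((h' : ∀ _, B) ι) + defect S y ι ((h : ∀ _, B) ι - (h' : ∀ _, B) ι) := by
    rw [defect_sub]; abel
  rw [h2]
  have h3 : ‖(h : ∀ _, B) ι - (h' : ∀ _, B) ι‖ ≤ ε / (8 * ‖y‖ + 1) := by
    have h4 : (h : ∀ _, B) ι - (h' : ∀ _, B) ι = ((h - h' : LE B) : ∀ _, B) ι := by
      rw [lp.coeFn_sub, Pi.sub_apply]
    rw [h4]
    refine (norm_apply _ ι).trans ?_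
    rw [← dist_eq_norm]
    exact hd.le
  have h5 : 4 * ‖y‖ * ‖(h : ∀ _, B) ι - (h' : ∀ _, B) ι‖ ≤ ε / 2 := by
    calc 4 * ‖y‖ * ‖(h : ∀ _, B) ι - (h' : ∀ _, B) ι‖ ≤ 4 * ‖y‖ * (ε / (8 * ‖y‖ + 1)) :=
          mul_le_mul_of_nonneg_left h3 (by positivity)
      _ ≤ ε / 2 := by
          rw [mul_div_assoc', div_le_div_iff₀ hpos (by norm_num)]
          nlinarith [norm_nonneg y]
  calc _ ≤ ‖defect S y ι ((h' : ∀ _, B) ι)‖ +
        ‖defect S y ι ((h : ∀ _, B) ι - (h' : ∀ _, B) ι)‖ := norm_add_le _ _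
    _ ≤ ‖defect S y ι ((h' : ∀ _, B) ι)‖ + 4 * ‖y‖ * ‖(h : ∀ _, B) ι - (h' : ∀ _, B) ι‖ :=
        add_le_add le_rfl (norm_defect_le S y ι _)
    _ < ε := by linarith

lemma actE_mem (a : B) {h : LE B} (hh : h ∈ XS S) : actE a h ∈ XS S := by
  intro y
  have h1 := (hh (y * a)).sub (((S.π y).continuous.tendsto 0).comp (hh a))
  rw [map_zero, sub_zero] at h1
  refine h1.congr fun ι => ?_
  rw [actE_apply, defect_mul]
  rfl

/-- the action of `B` on the module -/
noncomputable def actX : B →L[ℂ] (XS S) →L[ℂ] (XS S) :=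
  LinearMap.mkContinuous₂
    (LinearMap.mk₂ ℂ (fun (a : B) (h : XS S) => (⟨actE a h.1, actE_mem S a h.2⟩ : XS S))
      (fun a b h => by
        apply Subtype.ext
        apply lp.ext
        funext ι
        simp only [Submodule.coe_add, lp.coeFn_add, Pi.add_apply, actE_apply, add_mul])
      (fun c a h => by
        apply Subtype.ext
        apply lp.ext
        funext ι
        simp only [Submodule.coe_smul, lp.coeFn_smul, Pi.smul_apply, actE_apply,
          smul_mul_assoc])
      (fun a h h' => by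
        apply Subtype.ext
        apply lp.ext
        funext ι
        simp only [Submodule.coe_add, lp.coeFn_add, Pi.add_apply, actE_apply, mul_add])
      (fun c a h => by
        apply Subtype.ext
        apply lp.ext
        funext ι
        simp only [Submodule.coe_smul, lp.coeFn_smul, Pi.smul_apply, actE_apply,
          mul_smul_comm]))
    1 (fun a h => by
      rw [one_mul]
      exact norm_actE a h.1)

lemma actX_apply (a : B) (h : XS S) (ι : Idx B) :
    ((actX S a h : XS S).1 : ∀ _, B) ι = a * (h.1 : ∀ _, B) ι := rfl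

/-- evaluation -/
noncomputable def evX (ι : Idx B) : (XS S) →L[ℂ] B :=
  LinearMap.mkContinuous
    { toFun := fun h => (h.1 : ∀ _, B) ι
      map_add' := fun h h' => by
        rw [Submodule.coe_add, lp.coeFn_add, Pi.add_apply]
      map_smul' := fun c h => by
        rw [Submodule.coe_smul, lp.coeFn_smul, Pi.smul_apply, RingHom.id_apply] }
    1 (fun h => by
      rw [one_mul]
      exact norm_apply h.1 ι)

lemma evX_apply (ι : Idx B) (h : XS S) : evX S ι h = (h.1 : ∀ _, B) ι := rfl

open Classical in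
/-- the function `k (n ι)` for `ι ∈ E` and zero otherwise -/
noncomputable def xEf (E : Set (Idx B)) (ι : Idx B) : B := if ι ∈ E then S.k (S.n ι) else 0

lemma norm_xEf (E : Set (Idx B)) (ι : Idx B) : ‖xEf S E ι‖ ≤ 1 := by
  unfold xEf
  split_ifs
  · exact S.k_le _
  · rw [norm_zero]; exact zero_le_one

/-- the corresponding bounded function -/
noncomputable def xEl (E : Set (Idx B)) : LE B := ⟨xEf S E, memLE 1 (norm_xEf S E)⟩

lemma xEl_apply (E : Set (Idx B)) (ι : Idx B) : (xEl S E : ∀ _, B) ι = xEf S E ι := rfl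

lemma xEl_mem (E : Set (Idx B)) : xEl S E ∈ XS S := by
  intro y
  have := S.inf
  have hcard : Tendsto (fun ι : Idx B => ((supp ι).card : ℝ)) (Filt B) atTop := by
    rw [tendsto_atTop]
    intro b
    obtain ⟨N, hN⟩ := exists_nat_ge b
    filter_upwards [eventually_card_ge (T := B) N] with ι hι
    exact hN.trans (by exact_mod_cast hι)
  have hlim : Tendsto (fun ι : Idx B => (1 + ‖y‖) * (1 / (1 + ((supp ι).card : ℝ))))
      (Filt B) (𝓝 0) := by
    have h1 : Tendsto (fun ι : Idx B => 1 + ((supp ι).card : ℝ)) (Filt B) atTop :=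
      tendsto_atTop_add_const_left _ _ hcard
    have h2 := (tendsto_const_nhds (x := (1 : ℝ))).div_atTop h1
    have h3 := h2.const_mul (1 + ‖y‖)
    rwa [mul_zero] at h3
  refine squeeze_zero_norm' ?_ hlim
  filter_upwards [eventually_mem y, eventually_mem (1 : B)] with ι hy h1
  rw [xEl_apply]
  unfold xEf
  split_ifs with hE
  · have e1 := S.w_app ι y hy
    have e2 := S.w_app ι 1 h1
    rw [one_mul, map_one, one_apply_eq_self] at e2
    have e3 : defect S y ι (S.k (S.n ι)) =
        (S.w ι (y * S.k (S.n ι)) - S.π y S.ζ) - S.π y (S.w ι (S.k (S.n ι)) - S.ζ) := by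
      unfold defect
      rw [map_sub]; abel
    rw [e3]
    calc _ ≤ ‖S.w ι (y * S.k (S.n ι)) - S.π y S.ζ‖ +
          ‖S.π y (S.w ι (S.k (S.n ι)) - S.ζ)‖ := norm_sub_le _ _
      _ ≤ 1 / (1 + ((supp ι).card : ℝ)) + ‖y‖ * (1 / (1 + ((supp ι).card : ℝ))) :=
          add_le_add e1 ((norm_pi_apply_le S y _).trans
            (mul_le_mul_of_nonneg_left e2 (norm_nonneg _)))
      _ = _ := by ring
  · have e4 : defect S y ι 0 = 0 := by
      unfold defect
      rw [mul_zero, map_zero, map_zero, sub_zero]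
    rw [e4, norm_zero]
    positivity

end ModXAux

open ModXAux in
/-- JOB ModX. Existence of the module.

`X` = closed subspace of `ℓ∞(Idx B; B) = lp (fun _ : Idx B => B) ∞` (or bounded functions in any
other implementation) of all `h` such that for all `y : B`
`‖w ι (y * h ι) - π y (w ι (h ι))‖ → 0` along `Filt B`.
It is closed: the expression is `≤ 4 ‖y‖ ‖h‖` (`‖π y‖ ≤ ‖y‖`: `StarAlgHom` is norm-decreasing), so
uniform limits preserve the condition. It is invariant under `h ↦ a h`:
`w (y a h) - π y (w (a h)) = [w ((y a) h) - π (y a) (w h)] - π y [w (a h) - π a (w h)]`.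
`ev ι` = evaluation, `α a h = a h` (pointwise), sup norm. `xE E` = the function `k (n ι)` for `ι ∈ E`,
`0` otherwise; it is in `X` because for `y, 1 ∈ supp ι`:
`‖w (y k) - π y (w k)‖ ≤ ‖w (y k) - π y ζ‖ + ‖π y‖ ‖w (1 * k) - π 1 ζ‖ ≤ (1 + ‖y‖)/(1 + card)`,
and `card → ∞` (`eventually_card_ge`, `S.inf`). -/
theorem exists_xdata {B : Type u} [CStarAlgebra B] (S : Setup B) : Nonempty (XData S) := by
  classical
  have : CompleteSpace (XS S) := (isClosed_XS S).completeSpace_coe
  refine ⟨{
    X := XS S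
    α := actX S
    ev := evX S
    xE := fun E => ⟨xEl S E, xEl_mem S E⟩
    α_one := ?_
    α_mul := ?_
    ev_le := ?_
    norm_le := ?_
    ev_ext := ?_
    ev_act := ?_
    lim := ?_
    ev_xE := ?_ }⟩
  · intro x
    apply Subtype.ext
    apply lp.ext
    funext ι
    rw [actX_apply, one_mul]
  · intro a b x
    apply Subtype.ext
    apply lp.ext
    funext ι
    rw [actX_apply, actX_apply, actX_apply, mul_assoc]
  · intro ι x
    exact norm_apply x.1 ι
  · intro x C hC h
    exact lp.norm_le_of_forall_le hC h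
  · intro x y h
    apply Subtype.ext
    apply lp.ext
    funext ι
    exact h ι
  · intro ι a x
    exact actX_apply S a x ι
  · intro x y
    exact tendsto_zero_iff_norm_tendsto_zero.1 (x.2 y)
  · intro E ι
    constructor
    · intro h
      show xEf S E ι = _
      unfold xEf
      rw [if_pos h]
    · intro h
      show xEf S E ι = _
      unfold xEf
      rw [if_neg h]

end Pool.MP_1c66c9_an
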