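import Pool.Agent.Lib.MP_1c66c9_an.Core

open Filter Topology

namespace Pool.MP_1c66c9_an

universe u

/-- An infinite set of reals contains a sequence with separated neighbourhoods. -/
private lemma orthA_exists_seq (σ : Set ℝ) (hinf : σ.Infinite) :
    ∃ (t : ℕ → ℝ) (r : ℕ → ℝ), (∀ n, t n ∈ σ) ∧ (∀ n, 0 < r n) ∧
      ∀ m n, m ≠ n → ∀ x ∈ σ, |x - t m| < r m → |x - t n| < r n → False := by
  have : Infinite σ := hinf.to_subtype
  obtain ⟨U, hUi, hUo, hUd⟩ := exists_seq_infinite_isOpen_pairwise_disjoint σ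
  have h1 : ∀ n, ∃ t : σ, t ∈ U n := fun n => (hUi n).nonempty
  choose t ht using h1
  have h2 : ∀ n, ∃ r > 0, Metric.ball (t n) r ⊆ U n := fun n =>
    Metric.isOpen_iff.1 (hUo n) (t n) (ht n)
  choose r hr hrU using h2
  refine ⟨fun n => (t n : ℝ), r, fun n => (t n).2, hr, ?_⟩
  intro m n hmn x hx hxm hxn
  have hm : (⟨x, hx⟩ : σ) ∈ U m := hrU m (by
    rw [Metric.mem_ball, Subtype.dist_eq, Real.dist_eq]; exact hxm)
  have hn : (⟨x, hx⟩ : σ) ∈ U n := hrU n (by
    rw [Metric.mem_ball, Subtype.dist_eq, Real.dist_eq]; exact hxn)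
  exact (Set.disjoint_left.1 (hUd hmn)) hm hn

/-- bump function of level `c` -/
private noncomputable def orthA_bump (c : ℝ) (t r : ℝ) (x : ℝ) : ℝ :=
  min 1 (max 0 (c - 3 * (|x - t| / r)))

private lemma orthA_bump_cont (c t r : ℝ) : Continuous (orthA_bump c t r) := by
  unfold orthA_bump
  fun_prop

private lemma orthA_bump_nonneg (c t r x : ℝ) : 0 ≤ orthA_bump c t r x :=
  le_min zero_le_one (le_max_left _ _)

private lemma orthA_bump_le_one (c t r x : ℝ) : orthA_bump c t r x ≤ 1 := min_le_left _ _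

private lemma orthA_bump_eq_zero {c t r x : ℝ} (h : c ≤ 3 * (|x - t| / r)) :
    orthA_bump c t r x = 0 := by
  unfold orthA_bump
  rw [max_eq_left (by linarith)]
  exact min_eq_right zero_le_one

private lemma orthA_bump_eq_one {c t r x : ℝ} (h : 3 * (|x - t| / r) ≤ c - 1) :
    orthA_bump c t r x = 1 := by
  unfold orthA_bump
  exact min_eq_left (le_trans (by linarith) (le_max_right _ _))

private lemma orthA_bump_mul (c t r x : ℝ) :
    orthA_bump (c + 1) t r x * orthA_bump c t r x = orthA_bump c t r x := by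
  by_cases h : c ≤ 3 * (|x - t| / r)
  · rw [orthA_bump_eq_zero h, mul_zero]
  · rw [orthA_bump_eq_one (c := c + 1) (by push Not at h; linarith), one_mul]

private lemma orthA_bump_supp {c t r x : ℝ} (hc : c ≤ 3) (hr : 0 < r)
    (h : orthA_bump c t r x ≠ 0) : |x - t| < r := by
  by_contra h'
  push Not at h'
  apply h
  apply orthA_bump_eq_zero
  have : 1 ≤ |x - t| / r := by rw [le_div_iff₀ hr]; linarith
  linarith

/-- JOB OrthA. A self-adjoint element with infinite spectrum gives orthogonal sequences.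

Proof. The spectrum `σ = spectrum ℝ a` is an infinite subset of `ℝ`. By
`Topology.exists_seq_infinite_isOpen_pairwise_disjoint` (or by hand) there are `tₙ ∈ σ` and `rₙ > 0`
such that the sets `{x ∈ σ | |x - tₙ| < rₙ}` are pairwise disjoint. Put `Dₙ(x) = |x - tₙ| / rₙ`,
`Kₙ = max 0 (1 - 3 Dₙ)`, `Hₙ = min 1 (max 0 (2 - 3 Dₙ))`, `Gₙ = min 1 (max 0 (3 - 3 Dₙ))`
(continuous real functions with values in `[0,1]`, `Gₙ Hₙ = Hₙ`, `Hₙ Kₙ = Kₙ`,
`Gₘ Gₙ = 0` on `σ` for `m ≠ n`), `g n = cfc Gₙ a` etc. (real continuous functional calculus).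
`∑_{S} Hₙ` has values in `[0,1]` on `σ` (at each point at most one summand is nonzero), so
`‖∑ h n‖ ≤ 1` (`norm_cfc_le`). `1 + k n = cfc (1 + Kₙ) a`, and `1 + Kₙ(tₙ) = 2`, `tₙ ∈ σ`, so the
norm is `≥ 2` (e.g. `norm_apply_le_norm_cfc`). -/
theorem orthSeq_of_infinite_spectrum (B : Type u) [CStarAlgebra B] (a : B)
    (ha : IsSelfAdjoint a) (hinf : (spectrum ℝ a).Infinite) : Nonempty (OrthSeq B) := by
  obtain ⟨t, r, ht, hr, hd⟩ := orthA_exists_seq _ hinf
  have hco : ∀ c n, ContinuousOn (orthA_bump c (t n) (r n)) (spectrum ℝ a) := fun c n =>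
    (orthA_bump_cont c (t n) (r n)).continuousOn
  have hmul : ∀ c n, cfc (orthA_bump (c + 1) (t n) (r n)) a * cfc (orthA_bump c (t n) (r n)) a
      = cfc (orthA_bump c (t n) (r n)) a := by
    intro c n
    rw [← cfc_mul _ _ a (hco _ n) (hco _ n)]
    exact cfc_congr fun x _ => orthA_bump_mul c (t n) (r n) x
  refine ⟨{ g := fun n => cfc (orthA_bump 3 (t n) (r n)) a
            h := fun n => cfc (orthA_bump 2 (t n) (r n)) a
            k := fun n => cfc (orthA_bump 1 (t n) (r n)) a
            g_sa := fun n => cfc_predicate _ a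
            h_sa := fun n => cfc_predicate _ a
            k_sa := fun n => cfc_predicate _ a
            gh := ?_
            hk := ?_
            gg := ?_
            hS := ?_
            k_le := ?_
            k_norm := ?_ }⟩
  · intro n
    have := hmul 2 n
    norm_num at this
    exact this
  · intro n
    have := hmul 1 n
    norm_num at this
    exact this
  · intro m n hmn
    rw [← cfc_mul _ _ a (hco _ m) (hco _ n)]
    rw [← cfc_zero (R := ℝ) (a := a)]
    refine cfc_congr fun x hx => ?_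
    by_contra h
    have h' : orthA_bump 3 (t m) (r m) x * orthA_bump 3 (t n) (r n) x ≠ 0 := h
    exact hd m n hmn x hx (orthA_bump_supp le_rfl (hr m) (left_ne_zero_of_mul h'))
      (orthA_bump_supp le_rfl (hr n) (right_ne_zero_of_mul h'))
  · intro S
    rw [← cfc_sum (fun n => orthA_bump 2 (t n) (r n)) a S (fun n _ => hco 2 n)]
    refine norm_cfc_le zero_le_one fun x hx => ?_
    rw [Finset.sum_apply, Real.norm_eq_abs,
      abs_of_nonneg (Finset.sum_nonneg fun n _ => orthA_bump_nonneg _ _ _ _)]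
    by_cases hex : ∃ m ∈ S, orthA_bump 2 (t m) (r m) x ≠ 0
    · obtain ⟨m, hm, hmx⟩ := hex
      rw [Finset.sum_eq_single_of_mem m hm]
      · exact orthA_bump_le_one _ _ _ _
      · intro n _ hnm
        by_contra hn
        exact hd m n (Ne.symm hnm) x hx (orthA_bump_supp (by norm_num) (hr m) hmx)
          (orthA_bump_supp (by norm_num) (hr n) hn)
    · push Not at hex
      rw [Finset.sum_eq_zero hex]
      exact zero_le_one
  · intro n
    refine norm_cfc_le zero_le_one fun x _ => ?_
    rw [Real.norm_eq_abs, abs_of_nonneg (orthA_bump_nonneg _ _ _ _)]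
    exact orthA_bump_le_one _ _ _ _
  · intro n
    have h1 : (1 : B) + cfc (orthA_bump 1 (t n) (r n)) a
        = cfc (fun x => 1 + orthA_bump 1 (t n) (r n) x) a := by
      rw [cfc_const_add (1 : ℝ) (orthA_bump 1 (t n) (r n)) a (hco 1 n)]
      simp
    rw [h1]
    have h2 := norm_apply_le_norm_cfc (fun x => 1 + orthA_bump 1 (t n) (r n) x) a (ht n)
      (continuousOn_const.add (hco 1 n))
    refine le_trans ?_ h2
    have h3 : orthA_bump 1 (t n) (r n) (t n) = 1 := by
      apply orthA_bump_eq_one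
      simp
    show (2 : ℝ) ≤ ‖1 + orthA_bump 1 (t n) (r n) (t n)‖
    rw [h3]
    norm_num

end Pool.MP_1c66c9_an
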