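import Pool.Agent.Lib.MP_1c66c9_an.Core

open Filter Topology

namespace Pool.MP_1c66c9_an

universe u

/-- JOB OrthP. Orthogonal nonzero projections: `g = h = k = p`. (`p n ≠ 0` gives
`‖p n‖ = 1`; `∑_S p n` is a projection, so has norm `≤ 1`: `T = T* = T²` gives `‖T‖ = ‖T‖²`;
`(1 + p) p = 2 p` gives `2 = ‖2 p‖ ≤ ‖1 + p‖ ‖p‖`.) -/
theorem orthSeq_of_projections (B : Type u) [CStarAlgebra B] (p : ℕ → B)
    (hp : ∀ n, IsSelfAdjoint (p n) ∧ p n * p n = p n ∧ p n ≠ 0)
    (hpp : ∀ m n, m ≠ n → p m * p n = 0) : Nonempty (OrthSeq B) := by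
  have hnorm : ∀ t : B, IsSelfAdjoint t → t * t = t → ‖t‖ = 0 ∨ ‖t‖ = 1 := by
    intro t ht htt
    have h := CStarRing.norm_star_mul_self (x := t)
    rw [ht.star_eq, htt] at h
    by_cases h0 : ‖t‖ = 0
    · exact Or.inl h0
    · right
      have h1 : ‖t‖ * 1 = ‖t‖ * ‖t‖ := by rw [mul_one]; exact h
      exact (mul_left_cancel₀ h0 h1).symm
  have hle : ∀ t : B, IsSelfAdjoint t → t * t = t → ‖t‖ ≤ 1 := by
    intro t ht htt
    rcases hnorm t ht htt with h | h <;> rw [h]
    exact zero_le_one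
  have hone : ∀ n, ‖p n‖ = 1 := by
    intro n
    rcases hnorm (p n) (hp n).1 (hp n).2.1 with h | h
    · exact absurd (norm_eq_zero.1 h) (hp n).2.2
    · exact h
  refine ⟨{ g := p, h := p, k := p, g_sa := fun n => (hp n).1, h_sa := fun n => (hp n).1, k_sa := fun n => (hp n).1,
            gh := fun n => (hp n).2.1, hk := fun n => (hp n).2.1, gg := hpp, hS := ?_,
            k_le := fun n => (hone n).le, k_norm := ?_ }⟩
  · intro S
    apply hle
    · exact isSelfAdjoint_sum S (fun n _ => (hp n).1)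
    · rw [Finset.sum_mul]
      apply Finset.sum_congr rfl
      intro i hi
      rw [Finset.mul_sum, Finset.sum_eq_single i]
      · exact (hp i).2.1
      · intro j _ hji
        exact hpp i j (Ne.symm hji)
      · intro h
        exact absurd hi h
  · intro n
    have h1 : ((1 : B) + p n) * p n = (2 : ℝ) • p n := by
      rw [add_mul, one_mul, (hp n).2.1, two_smul]
    have h2 : ‖(2 : ℝ) • p n‖ = 2 := by
      rw [norm_smul, hone n]
      norm_num
    have h3 := norm_mul_le ((1 : B) + p n) (p n)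
    rw [h1, h2, hone n, mul_one] at h3
    exact h3

end Pool.MP_1c66c9_an
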