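import Pool.Agent.Lib.MP_1c66c9_an.Core

open scoped TensorProduct

namespace Pool.MP_1c66c9_an

universe u

variable {A : Type u} [NonUnitalCStarAlgebra A]

private lemma Res1_dec (a : Unitization ℂ A) :
    a = a.fst • (1 : Unitization ℂ A) + ((a.snd : A) : Unitization ℂ A) := by
  ext
  · simp
  · simp

private lemma Res1_actU_hom {P Y : LMod A} {f : P.carrier →L[ℂ] Y.carrier} (hf : LMod.IsHom P Y f)
    (a : Unitization ℂ A) (p : P.carrier) : f (P.actU a p) = Y.actU a (f p) := by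
  unfold LMod.actU
  rw [extAct_apply, extAct_apply, map_add, map_smul, hf]

private lemma Res1_lmul_dec {E : Type*} [NormedAddCommGroup E] [NormedSpace ℂ E]
    (a : Unitization ℂ A) (t : PT (Unitization ℂ A) E) :
    lmul (Unitization ℂ A) E a t =
      a.fst • t + lmul (Unitization ℂ A) E ((a.snd : A) : Unitization ℂ A) t := by
  have h := congrArg (fun z => lmul (Unitization ℂ A) E z t) (Res1_dec a)
  simp only [map_add, map_smul, add_apply, smul_apply,
    lmul_one] at h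
  exact h

private lemma Res1_actU_rho {P : LMod A} {ρ : P.carrier →L[ℂ] PT (Unitization ℂ A) P.carrier}
    (hρ : ∀ (a : A) (x : P.carrier), ρ (P.act a x) = lmul (Unitization ℂ A) P.carrier a (ρ x))
    (a : Unitization ℂ A) (p : P.carrier) :
    ρ (P.actU a p) = lmul (Unitization ℂ A) P.carrier a (ρ p) := by
  rw [Res1_lmul_dec]
  unfold LMod.actU
  rw [extAct_apply, map_add, map_smul, hρ]

private lemma Res1_actU_one (X : LMod A) (x : X.carrier) : X.actU 1 x = x := by
  unfold LMod.actU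
  rw [extAct_apply]
  simp

private lemma Res1_actU_mul (X : LMod A) (a b : Unitization ℂ A) (x : X.carrier) :
    X.actU (a * b) x = X.actU a (X.actU b x) := by
  unfold LMod.actU
  rw [extAct_apply, extAct_apply, extAct_apply, Unitization.fst_mul, Unitization.snd_mul]
  simp only [map_add, map_smul, add_apply, smul_apply,
    X.act_mul, smul_add, mul_smul]
  abel

private lemma Res1_mu12_mapR {X Y : Type*} [NormedAddCommGroup X] [NormedSpace ℂ X]
    [NormedAddCommGroup Y] [NormedSpace ℂ Y] [CompleteSpace Y]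
    (β : Unitization ℂ A →L[ℂ] Y →L[ℂ] Y) (φ : Y →L[ℂ] PT (Unitization ℂ A) X)
    (hφ : ∀ a y, φ (β a y) = lmul (Unitization ℂ A) X a (φ y)) (t : PT (Unitization ℂ A) Y) :
    mu12 (Unitization ℂ A) X (mapR (Unitization ℂ A) φ t) = φ (lift β t) := by
  have : (mu12 (Unitization ℂ A) X).comp (mapR (Unitization ℂ A) φ) = φ.comp (lift β) :=
    PT_ext fun u y => by
      rw [ContinuousLinearMap.comp_apply, ContinuousLinearMap.comp_apply, mapR_tm, mu12_tm,
        lift_tm, hφ]
  exact congrArg (fun f => f t) this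

private lemma Res1_mapR_zero {E F F' : Type*} [NormedAddCommGroup E] [NormedSpace ℂ E]
    [NormedAddCommGroup F] [NormedSpace ℂ F] [NormedAddCommGroup F'] [NormedSpace ℂ F']
    (g : F →L[ℂ] F') (hg : ∀ y, g y = 0) (t : PT E F) : mapR E g t = 0 := by
  have : mapR E g = 0 := PT_ext fun u y => by
    rw [mapR_tm, hg, tm_zero_right]
    rfl
  rw [this]
  rfl

private lemma Res1_lift_mapR {E F F' G : Type*} [NormedAddCommGroup E] [NormedSpace ℂ E]
    [NormedAddCommGroup F] [NormedSpace ℂ F] [NormedAddCommGroup F'] [NormedSpace ℂ F']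
    [NormedAddCommGroup G] [NormedSpace ℂ G] [CompleteSpace G]
    [CompleteSpace F']
    (β : E →L[ℂ] F →L[ℂ] F) (γ : E →L[ℂ] F' →L[ℂ] F') (ε : F →L[ℂ] F') [CompleteSpace F]
    (h : ∀ a y, ε (β a y) = γ a (ε y)) (t : PT E F) :
    lift γ (mapR E ε t) = ε (lift β t) := by
  have : (lift γ).comp (mapR E ε) = ε.comp (lift β) :=
    PT_ext fun u y => by
      rw [ContinuousLinearMap.comp_apply, ContinuousLinearMap.comp_apply, mapR_tm, lift_tm,
        lift_tm, h]
  exact congrArg (fun f => f t) this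

/-- JOB Res1. A resolution of length `≤ 1` gives the bilinear map `b`.

Proof. Write `B = A₊ = Unitization ℂ A`, `X.actU = extAct X.act`. First note (from `d_hom` etc. and
`extAct_apply`) that module morphisms over `A` commute with the actions `actU` of `B`
(and for `ρᵢ : Pᵢ → B ⊗ Pᵢ`: `ρ (actU a p) = lmul a (ρ p)` for all `a : B`, since
`a = algebraMap a.fst + inr a.snd`, `lmul 1 = id`).
`P 2` is subsingleton, so `homotopy_succ 0` gives `s₀ (d₀ p) = p` for all `p ∈ P₁`
(`d 1 (s 1 x) = d 1 0 = 0` because `s 1 x : P 2`).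
f0 := lift (u ↦ x ↦ u σ(x)) : B ⊗ X → P₀   (a bounded bilinear map: `((compL ..).flip σ).comp actU`),
g0 := (mapR B ε) ∘ ρ₀ : P₀ → B ⊗ X. Then `ε f0 = lift X.actU`, `lift X.actU ∘ g0 = ε`; both are
morphisms. `j := lift (u ↦ x ↦ tm u (tm 1 x)) = mapR B (tmL B X 1) : B ⊗ X → B ⊗ (B ⊗ X)`.
r := (mapR B (g0 ∘ d₀)) ∘ ρ₁ ∘ s₀ ∘ f0 + (mapR B (id - g0 ∘ f0)) ∘ j : B ⊗ X → B ⊗ (B ⊗ X).
For `k` in `K = ker (lift X.actU)`: `f0 k ∈ ker ε`, so `f0 k = d₀ s₀ f0 k` (`homotopy_zero`), and
`s₀ (f0 (a k)) = a s₀ (f0 k)` (as `f0 (a k) = a d₀ s₀ f0 k = d₀ (a s₀ f0 k)` and `s₀ d₀ = id`), hence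
`r (lmul a k) = lmul a (r k)`; `mu12 (r k) = g0 d₀ s₀ f0 k + k - g0 f0 k = k`
(use `mu12 ∘ mapR B φ = φ ∘ (lift act)` for a morphism `φ` into `B ⊗ X`, `mu12 ∘ j = id`);
`mu23 (r k) = 0` because `lift X.actU ∘ g0 ∘ d₀ = ε d₀ = 0`, `lift X.actU ∘ (id - g0 f0) = 0`.
Finally `b a x := r (tm a x - tm 1 (a x))` (a bounded bilinear map in `(a, x)`:
`r ∘ (tmL B X a - (tmL B X 1) ∘ (actU a))`). -/
theorem exists_b_of_resolution (X : LMod A) {n : ℕ} (hn : n ≤ 1) (R : X.Resolution n) :
    ∃ b, IsB X.actU b := by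
  haveI : Subsingleton (R.P 2).carrier := R.zero 2 (by omega)
  have hsd : ∀ p : (R.P 1).carrier, R.s 0 (R.d 0 p) = p := by
    intro p
    have h := R.homotopy_succ 0 p
    have h0 : R.s 1 p = 0 := Subsingleton.elim (α := (R.P 2).carrier) _ _
    have h1 : R.d (0 + 1) (R.s (0 + 1) p) = 0 := by
      rw [show R.s (0 + 1) p = 0 from h0, map_zero]
    rw [h1, add_zero] at h
    exact h
  obtain ⟨ρ0, hρ0, hc0⟩ := R.proj 0
  obtain ⟨ρ1, hρ1, hc1⟩ := R.proj 1
  have hρ0' := Res1_actU_rho hρ0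
  have hρ1' := Res1_actU_rho hρ1
  have hε := Res1_actU_hom R.ε_hom
  have hd := Res1_actU_hom (R.d_hom 0)
  have hc0' : ∀ p, lift (R.P 0).actU (ρ0 p) = p := hc0
  have hc1' : ∀ p, lift (R.P 1).actU (ρ1 p) = p := hc1
  set B := Unitization ℂ A with hB
  set f0 : PT B X.carrier →L[ℂ] (R.P 0).carrier :=
    lift (((ContinuousLinearMap.compL ℂ X.carrier (R.P 0).carrier (R.P 0).carrier).flip R.σ).comp
      (R.P 0).actU) with hf0
  have f0_tm : ∀ u x, f0 (tm u x) = (R.P 0).actU u (R.σ x) := by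
    intro u x
    rw [hf0, lift_tm]
    rfl
  have f0_l : ∀ a t, f0 (lmul B X.carrier a t) = (R.P 0).actU a (f0 t) := by
    intro a t
    have : f0.comp (lmul B X.carrier a) = ((R.P 0).actU a).comp f0 := PT_ext fun u x => by
      rw [ContinuousLinearMap.comp_apply, ContinuousLinearMap.comp_apply, lmul_tm, f0_tm, f0_tm,
        Res1_actU_mul]
    exact congrArg (fun f => f t) this
  have εf0 : ∀ t, R.ε (f0 t) = lift X.actU t := by
    intro t
    have : R.ε.comp f0 = lift X.actU := PT_ext fun u x => by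
      rw [ContinuousLinearMap.comp_apply, f0_tm, hε, R.ε_σ, lift_tm]
    exact congrArg (fun f => f t) this
  set g0 : (R.P 0).carrier →L[ℂ] PT B X.carrier := (mapR B R.ε).comp ρ0 with hg0
  have g0_l : ∀ a p, g0 ((R.P 0).actU a p) = lmul B X.carrier a (g0 p) := by
    intro a p
    rw [hg0, ContinuousLinearMap.comp_apply, ContinuousLinearMap.comp_apply, hρ0', mapR_lmul]
  have g0_c : ∀ p, lift X.actU (g0 p) = R.ε p := by
    intro p
    rw [hg0, ContinuousLinearMap.comp_apply,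
      Res1_lift_mapR (G := X.carrier) (R.P 0).actU X.actU R.ε hε, hc0']
  set ψ : PT B X.carrier →L[ℂ] PT B X.carrier :=
    ContinuousLinearMap.id ℂ _ - g0.comp f0 with hψ
  have ψ_app : ∀ t, ψ t = t - g0 (f0 t) := fun t => rfl
  set j : PT B X.carrier →L[ℂ] PT B (PT B X.carrier) := mapR B (tmL B X.carrier 1) with hj
  have hjm : ∀ t, mu12 B X.carrier (j t) = t := by
    intro t
    have : (mu12 B X.carrier).comp j = ContinuousLinearMap.id ℂ _ := PT_ext fun u x => by
      rw [ContinuousLinearMap.comp_apply, hj, mapR_tm, tmL_apply, mu12_tm_tm, mul_one]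
      rfl
    exact congrArg (fun f => f t) this
  set φ : (R.P 1).carrier →L[ℂ] PT B X.carrier := g0.comp (R.d 0) with hφ
  have φ_app : ∀ p, φ p = g0 (R.d 0 p) := fun p => rfl
  have φ_l : ∀ a p, φ ((R.P 1).actU a p) = lmul B X.carrier a (φ p) := by
    intro a p
    rw [φ_app, φ_app, hd, g0_l]
  have ψ_l : ∀ a t, ψ (lmul B X.carrier a t) = lmul B X.carrier a (ψ t) := by
    intro a t
    rw [ψ_app, ψ_app, f0_l, g0_l, map_sub]
  set r : PT B X.carrier →L[ℂ] PT B (PT B X.carrier) :=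
    (mapR B φ).comp (ρ1.comp ((R.s 0).comp f0)) + (mapR B ψ).comp j with hr
  have r_app : ∀ t, r t = mapR B φ (ρ1 (R.s 0 (f0 t))) + mapR B ψ (j t) := fun t => rfl
  have hds : ∀ t, lift X.actU t = 0 → R.d 0 (R.s 0 (f0 t)) = f0 t := by
    intro t ht
    have h := R.homotopy_zero (f0 t)
    rw [εf0, ht, map_zero, zero_add] at h
    exact h
  have r_l : ∀ a t, lift X.actU t = 0 → r (lmul B X.carrier a t) = lmul B _ a (r t) := by
    intro a t ht
    have h1 : R.s 0 ((R.P 0).actU a (f0 t)) = (R.P 1).actU a (R.s 0 (f0 t)) := by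
      conv_lhs => rw [← hds t ht, ← hd]
      rw [hsd]
    rw [r_app, r_app, f0_l, h1, hρ1', mapR_lmul, map_add, hj, mapR_lmul, mapR_lmul]
  have r_12 : ∀ t, lift X.actU t = 0 → mu12 B X.carrier (r t) = t := by
    intro t ht
    rw [r_app, map_add, Res1_mu12_mapR (R.P 1).actU φ φ_l, hc1', φ_app, hds t ht,
      Res1_mu12_mapR (lmul B X.carrier) ψ ψ_l]
    have : lift (lmul B X.carrier) (j t) = t := hjm t
    rw [this, ψ_app]
    abel
  have r_23 : ∀ t, mu23 X.actU (r t) = 0 := by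
    intro t
    unfold mu23
    rw [r_app, map_add, mapR_comp, mapR_comp, Res1_mapR_zero _ _ _, Res1_mapR_zero _ _ _, add_zero]
    · intro y
      rw [ContinuousLinearMap.comp_apply, ψ_app, map_sub, g0_c, εf0, sub_self]
    · intro y
      rw [ContinuousLinearMap.comp_apply, φ_app, g0_c, R.ε_d]
  refine ⟨(ContinuousLinearMap.compL ℂ X.carrier (PT B X.carrier) (PT B (PT B X.carrier)) r).comp
    (tmL B X.carrier - (ContinuousLinearMap.compL ℂ X.carrier X.carrier (PT B X.carrier)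
      (tmL B X.carrier 1)).comp X.actU), ?_⟩
  have b_app : ∀ a x, ((ContinuousLinearMap.compL ℂ X.carrier (PT B X.carrier)
      (PT B (PT B X.carrier)) r).comp
    (tmL B X.carrier - (ContinuousLinearMap.compL ℂ X.carrier X.carrier (PT B X.carrier)
      (tmL B X.carrier 1)).comp X.actU)) a x = r (tm a x - tm 1 (X.actU a x)) := fun a x => rfl
  have hk : ∀ a x, lift X.actU (tm a x - tm 1 (X.actU a x)) = 0 := by
    intro a x
    rw [map_sub, lift_tm, lift_tm, Res1_actU_one, sub_self]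
  refine ⟨?_, ?_, ?_⟩
  · intro a' a x
    rw [b_app, b_app, b_app, ← r_l _ _ (hk a x), ← map_sub]
    congr 1
    rw [map_sub, lmul_tm, lmul_tm, mul_one, Res1_actU_mul]
    abel
  · intro a x
    rw [b_app, r_23]
  · intro a x
    rw [b_app, r_12 _ (hk a x)]

end Pool.MP_1c66c9_an
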