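import Pool.Agent.Lib.MP_1c66c9_an.Core

open scoped TensorProduct

namespace Pool.MP_1c66c9_an

universe u

section core

variable {B : Type*} [NormedRing B] [NormedAlgebra ℂ B] [CompleteSpace B]
  {P0 : Type*} [NormedAddCommGroup P0] [NormedSpace ℂ P0] [CompleteSpace P0]
  {P1 : Type*} [NormedAddCommGroup P1] [NormedSpace ℂ P1] [CompleteSpace P1]

private lemma ResB1_mu12_mapR {M : Type*} [NormedAddCommGroup M] [NormedSpace ℂ M]
    [CompleteSpace M] {X : Type*} [NormedAddCommGroup X] [NormedSpace ℂ X]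
    (l : B →L[ℂ] M →L[ℂ] M) (φ : M →L[ℂ] PT B X)
    (hφ : ∀ a x, φ (l a x) = lmul B X a (φ x)) (t : PT B M) :
    mu12 B X (mapR B φ t) = φ (lift l t) := by
  have h : (mu12 B X).comp (mapR B φ) = φ.comp (lift l) := PT_ext fun u x => by
    rw [ContinuousLinearMap.comp_apply, ContinuousLinearMap.comp_apply, mapR_tm, mu12_tm,
      lift_tm, hφ]
  exact congrArg (fun f => f t) h

private lemma ResB1_core
    (l0 r0 : B →L[ℂ] P0 →L[ℂ] P0) (l1 r1 : B →L[ℂ] P1 →L[ℂ] P1)
    (hl0 : ∀ a b x, l0 (a * b) x = l0 a (l0 b x))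
    (hr0 : ∀ a b x, r0 (a * b) x = r0 b (r0 a x))
    (hlr0 : ∀ a b x, l0 a (r0 b x) = r0 b (l0 a x))
    (ρ0 : P0 →L[ℂ] PT B P0) (hρ0l : ∀ a x, ρ0 (l0 a x) = lmul B P0 a (ρ0 x))
    (hρ0r : ∀ a x, ρ0 (r0 a x) = mapR B (r0 a) (ρ0 x)) (hρ0 : ∀ x, lift l0 (ρ0 x) = x)
    (ρ1 : P1 →L[ℂ] PT B P1) (hρ1l : ∀ a x, ρ1 (l1 a x) = lmul B P1 a (ρ1 x))
    (hρ1r : ∀ a x, ρ1 (r1 a x) = mapR B (r1 a) (ρ1 x)) (hρ1 : ∀ x, lift l1 (ρ1 x) = x)
    (ε : P0 →L[ℂ] B) (hεl : ∀ a x, ε (l0 a x) = a * ε x) (hεr : ∀ a x, ε (r0 a x) = ε x * a)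
    (d : P1 →L[ℂ] P0) (hdl : ∀ a x, d (l1 a x) = l0 a (d x))
    (hdr : ∀ a x, d (r1 a x) = r0 a (d x)) (hεd : ∀ x, ε (d x) = 0)
    (s : P0 →L[ℂ] P1) (hsd : ∀ x, s (d x) = x) (e1 : P0) (he1 : ε e1 = 1)
    (hh : ∀ x, ε x = 0 → d (s x) = x) :
    ∃ b : B →L[ℂ] PT B (PT B B), IsB' b := by
  let m : B →L[ℂ] B →L[ℂ] B := ContinuousLinearMap.mul ℂ B
  have hm : ∀ u v, m u v = u * v := fun u v => rfl
  let rm : B → B →L[ℂ] B := fun v => (ContinuousLinearMap.mul ℂ B).flip v
  have hrm : ∀ u v, rm u v = v * u := fun u v => rfl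
  let f0 : PT B B →L[ℂ] P0 :=
    lift (((ContinuousLinearMap.compL ℂ B P0 P0).flip (r0.flip e1)).comp l0)
  have hf0 : ∀ u v, f0 (tm u v) = l0 u (r0 v e1) := fun u v => by
    simp only [f0]
    rw [lift_tm]
    rfl
  let g0 : P0 →L[ℂ] PT B B := (mapR B ε).comp ρ0
  have hg0 : ∀ x, g0 x = mapR B ε (ρ0 x) := fun x => rfl
  -- (1)
  have h1 : ∀ t, ε (f0 t) = lift m t := by
    intro t
    have : ε.comp f0 = lift m := PT_ext fun u v => by
      rw [ContinuousLinearMap.comp_apply, hf0, hεl, hεr, he1, one_mul, lift_tm, hm]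
    exact congrArg (fun f => f t) this
  -- (2)
  have h2 : ∀ x, lift m (g0 x) = ε x := by
    intro x
    have h : ∀ t, lift m (mapR B ε t) = ε (lift l0 t) := by
      intro t
      have : (lift m).comp (mapR B ε) = ε.comp (lift l0) := PT_ext fun u p => by
        rw [ContinuousLinearMap.comp_apply, ContinuousLinearMap.comp_apply, mapR_tm, lift_tm,
          lift_tm, hm, hεl]
      exact congrArg (fun f => f t) this
    rw [hg0, h, hρ0]
  -- (3)
  have h3 : ∀ a t, f0 (lmul B B a t) = l0 a (f0 t) := by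
    intro a t
    have : f0.comp (lmul B B a) = (l0 a).comp f0 := PT_ext fun u v => by
      rw [ContinuousLinearMap.comp_apply, ContinuousLinearMap.comp_apply, lmul_tm, hf0, hf0, hl0]
    exact congrArg (fun f => f t) this
  -- (4)
  have h4 : ∀ a t, f0 (mapR B (rm a) t) = r0 a (f0 t) := by
    intro a t
    have : f0.comp (mapR B (rm a)) = (r0 a).comp f0 := PT_ext fun u v => by
      rw [ContinuousLinearMap.comp_apply, ContinuousLinearMap.comp_apply, mapR_tm, hf0, hf0,
        hrm, hr0, hlr0]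
    exact congrArg (fun f => f t) this
  -- (5)
  have h5 : ∀ a x, g0 (l0 a x) = lmul B B a (g0 x) := by
    intro a x
    rw [hg0, hg0, hρ0l, mapR_lmul]
  -- (6)
  have h6 : ∀ a x, g0 (r0 a x) = mapR B (rm a) (g0 x) := by
    intro a x
    rw [hg0, hg0, hρ0r, mapR_comp, mapR_comp]
    have : ε.comp (r0 a) = (rm a).comp ε := by
      ext y
      rw [ContinuousLinearMap.comp_apply, ContinuousLinearMap.comp_apply, hεr, hrm]
    rw [this]
  let j : PT B B →L[ℂ] PT B (PT B B) := mapR B (tmL B B 1)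
  have hj : ∀ u v, j (tm u v) = tm u (tm 1 v) := fun u v => by
    simp only [j]
    rw [mapR_tm, tmL_apply]
  let q : PT B B →L[ℂ] PT B B := ContinuousLinearMap.id ℂ _ - g0.comp f0
  have hq : ∀ t, q t = t - g0 (f0 t) := fun t => rfl
  have hql : ∀ a t, q (lmul B B a t) = lmul B B a (q t) := by
    intro a t
    rw [hq, hq, h3, h5, map_sub]
  have hqr : ∀ a t, q (mapR B (rm a) t) = mapR B (rm a) (q t) := by
    intro a t
    rw [hq, hq, h4, h6, map_sub]
  have hqm : ∀ t, lift m (q t) = 0 := by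
    intro t
    rw [hq, map_sub, h2, h1, sub_self]
  let gd : P1 →L[ℂ] PT B B := g0.comp d
  have hgd : ∀ x, gd x = g0 (d x) := fun x => rfl
  have hgdl : ∀ a x, gd (l1 a x) = lmul B B a (gd x) := by
    intro a x
    rw [hgd, hgd, hdl, h5]
  have hgdr : ∀ a x, gd (r1 a x) = mapR B (rm a) (gd x) := by
    intro a x
    rw [hgd, hgd, hdr, h6]
  have hgdm : ∀ x, lift m (gd x) = 0 := by
    intro x
    rw [hgd, h2, hεd]
  let ra : P1 →L[ℂ] PT B (PT B B) := (mapR B gd).comp ρ1
  have hra : ∀ x, ra x = mapR B gd (ρ1 x) := fun x => rfl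
  let rb : PT B B →L[ℂ] PT B (PT B B) := (mapR B q).comp j
  have hrb : ∀ t, rb t = mapR B q (j t) := fun t => rfl
  let r : PT B B →L[ℂ] PT B (PT B B) := (ra.comp s).comp f0 + rb
  have hr : ∀ t, r t = ra (s (f0 t)) + rb t := fun t => rfl
  -- equivariance of ra
  have hral : ∀ a x, ra (l1 a x) = lmul B (PT B B) a (ra x) := by
    intro a x
    rw [hra, hra, hρ1l, mapR_lmul]
  have hrar : ∀ a x, ra (r1 a x) = mapR B (mapR B (rm a)) (ra x) := by
    intro a x
    rw [hra, hra, hρ1r, mapR_comp, mapR_comp]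
    have : gd.comp (r1 a) = (mapR B (rm a)).comp gd :=
      ContinuousLinearMap.ext fun y => hgdr a y
    rw [this]
  have hrbl : ∀ a t, rb (lmul B B a t) = lmul B (PT B B) a (rb t) := by
    intro a t
    rw [hrb, hrb]
    simp only [j]
    rw [mapR_lmul, mapR_lmul]
  have hrbr : ∀ a t, rb (mapR B (rm a) t) = mapR B (mapR B (rm a)) (rb t) := by
    intro a t
    rw [hrb, hrb]
    have e1 : j (mapR B (rm a) t) = mapR B (mapR B (rm a)) (j t) := by
      have : j.comp (mapR B (rm a)) = (mapR B (mapR B (rm a))).comp j := PT_ext fun u v => by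
        rw [ContinuousLinearMap.comp_apply, ContinuousLinearMap.comp_apply, mapR_tm, hj, hj,
          mapR_tm, mapR_tm]
      exact congrArg (fun f => f t) this
    rw [e1, mapR_comp (mapR B (rm a)) q, mapR_comp q (mapR B (rm a))]
    have : q.comp (mapR B (rm a)) = (mapR B (rm a)).comp q :=
      ContinuousLinearMap.ext fun y => hqr a y
    rw [this]
  -- the kernel
  have hdk : ∀ k, lift m k = 0 → d (s (f0 k)) = f0 k := by
    intro k hk
    exact hh _ (by rw [h1, hk])
  have hlk : ∀ a k, lift m k = 0 → lift m (lmul B B a k) = 0 := by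
    intro a k hk
    have h : ∀ t, lift m (lmul B B a t) = a * lift m t := by
      intro t
      have : (lift m).comp (lmul B B a) = (m a).comp (lift m) := PT_ext fun u v => by
        rw [ContinuousLinearMap.comp_apply, ContinuousLinearMap.comp_apply, lmul_tm, lift_tm,
          lift_tm, hm, hm, hm, mul_assoc]
      exact congrArg (fun f => f t) this
    rw [h, hk, mul_zero]
  have hrk : ∀ a k, lift m k = 0 → lift m (mapR B (rm a) k) = 0 := by
    intro a k hk
    have h : ∀ t, lift m (mapR B (rm a) t) = lift m t * a := by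
      intro t
      have : (lift m).comp (mapR B (rm a)) = (rm a).comp (lift m) := PT_ext fun u v => by
        rw [ContinuousLinearMap.comp_apply, ContinuousLinearMap.comp_apply, mapR_tm, lift_tm,
          lift_tm, hm, hm, hrm, hrm, mul_assoc]
      exact congrArg (fun f => f t) this
    rw [h, hk, zero_mul]
  have hsl : ∀ a k, lift m k = 0 → s (f0 (lmul B B a k)) = l1 a (s (f0 k)) := by
    intro a k hk
    rw [← hsd (l1 a (s (f0 k))), hdl, hdk k hk, h3]
  have hsr : ∀ a k, lift m k = 0 → s (f0 (mapR B (rm a) k)) = r1 a (s (f0 k)) := by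
    intro a k hk
    rw [← hsd (r1 a (s (f0 k))), hdr, hdk k hk, h4]
  have hrl : ∀ a k, lift m k = 0 → r (lmul B B a k) = lmul B (PT B B) a (r k) := by
    intro a k hk
    rw [hr, hr, hsl a k hk, hral, hrbl, map_add]
  have hrr : ∀ a k, lift m k = 0 → r (mapR B (rm a) k) = mapR B (mapR B (rm a)) (r k) := by
    intro a k hk
    rw [hr, hr, hsr a k hk, hrar, hrbr, map_add]
  have hr12 : ∀ k, lift m k = 0 → mu12 B B (r k) = k := by
    intro k hk
    rw [hr, map_add, hra, ResB1_mu12_mapR l1 gd hgdl, hρ1, hgd, hdk k hk, hrb]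
    have e2 : mu12 B B (mapR B q (j k)) = q (lift (lmul B B) (j k)) :=
      ResB1_mu12_mapR (lmul B B) q hql (j k)
    have e3 : lift (lmul B B) (j k) = k := by
      have : (lift (lmul B B)).comp j = ContinuousLinearMap.id ℂ _ := PT_ext fun u v => by
        rw [ContinuousLinearMap.comp_apply, hj, lift_tm, lmul_tm, mul_one]
        rfl
      exact congrArg (fun f => f k) this
    rw [e2, e3, hq]
    abel
  have hr23 : ∀ k, mu23 m (r k) = 0 := by
    intro k
    unfold mu23
    rw [hr, map_add, hra, hrb, mapR_comp, mapR_comp]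
    have e1 : (lift m).comp gd = 0 := by
      ext y
      rw [ContinuousLinearMap.comp_apply, hgdm]
      rfl
    have e2 : (lift m).comp q = 0 := by
      ext y
      rw [ContinuousLinearMap.comp_apply, hqm]
      rfl
    rw [e1, e2]
    have e3 : ∀ {M : Type _} [NormedAddCommGroup M] [NormedSpace ℂ M] (t : PT B M),
        mapR B (0 : M →L[ℂ] B) t = 0 := by
      intro M _ _ t
      have : mapR B (0 : M →L[ℂ] B) = 0 := PT_ext fun u v => by
        rw [mapR_tm]
        show tm u (0 : B) = 0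
        rw [tm_zero_right]
      rw [this]
      rfl
    rw [e3]
    have e4 : ∀ t : PT B (PT B B), mapR B (0 : PT B B →L[ℂ] B) t = 0 := by
      intro t
      have : mapR B (0 : PT B B →L[ℂ] B) = 0 := PT_ext fun u v => by
        rw [mapR_tm]
        show tm u (0 : B) = 0
        rw [tm_zero_right]
      rw [this]
      rfl
    rw [e4, add_zero]
  let kk : B →L[ℂ] PT B B := (tmL B B).flip 1 - tmL B B 1
  have hkk : ∀ a, kk a = tm a 1 - tm 1 a := fun a => rfl
  have hkk0 : ∀ a, lift m (kk a) = 0 := by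
    intro a
    rw [hkk, map_sub, lift_tm, lift_tm, hm, hm, mul_one, one_mul, sub_self]
  refine ⟨r.comp kk, ⟨?_, ?_, ?_⟩⟩
  · intro a' a
    rw [ContinuousLinearMap.comp_apply, ContinuousLinearMap.comp_apply,
      ContinuousLinearMap.comp_apply, ← hrl a' (kk a) (hkk0 a)]
    have e1 : mapR B (mapR B ((ContinuousLinearMap.mul ℂ B).flip a)) (r (kk a'))
        = r (mapR B (rm a) (kk a')) := (hrr a (kk a') (hkk0 a')).symm
    rw [e1, ← map_sub]
    congr 1
    rw [hkk, hkk, hkk, map_sub, map_sub, lmul_tm, lmul_tm, mapR_tm, mapR_tm, hrm, hrm]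
    simp only [mul_one, one_mul]
    abel
  · intro a
    rw [ContinuousLinearMap.comp_apply]
    exact hr23 _
  · intro a
    rw [ContinuousLinearMap.comp_apply, hr12 _ (hkk0 a), hkk]

end core

variable {A : Type u} [NonUnitalCStarAlgebra A]

private lemma ResB1_extAct_hom {M N : Type*} [NormedAddCommGroup M] [NormedSpace ℂ M]
    [NormedAddCommGroup N] [NormedSpace ℂ N] (α : A →L[ℂ] M →L[ℂ] M) (β : A →L[ℂ] N →L[ℂ] N)
    (f : M →L[ℂ] N) (h : ∀ a x, f (α a x) = β a (f x)) (a : Unitization ℂ A) (x : M) :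
    f (extAct α a x) = extAct β a (f x) := by
  rw [extAct_apply, extAct_apply, map_add, map_smul, h]

private lemma ResB1_lmul_ext {M : Type*} [NormedAddCommGroup M] [NormedSpace ℂ M]
    (a : Unitization ℂ A) (t : PT (Unitization ℂ A) M) :
    lmul (Unitization ℂ A) M a t
      = a.fst • t + lmul (Unitization ℂ A) M (a.snd : Unitization ℂ A) t := by
  have ha : a = a.fst • (1 : Unitization ℂ A) + (a.snd : Unitization ℂ A) := by
    ext
    · simp
    · simp
  conv_lhs => rw [ha]
  rw [map_add, map_smul, add_apply, smul_apply, lmul_one]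

private lemma ResB1_proj (M : BMod A) (hM : M.IsProjective) :
    ∃ ρ : M.carrier →L[ℂ] PT (Unitization ℂ A) M.carrier,
      (∀ a x, ρ (M.lactU a x) = lmul (Unitization ℂ A) M.carrier a (ρ x)) ∧
      (∀ a x, ρ (M.ractU a x) = mapR (Unitization ℂ A) (M.ractU a) (ρ x)) ∧
      ∀ x, lift M.lactU (ρ x) = x := by
  obtain ⟨ρ, h1, h2, h3⟩ := hM
  let ρl : M.carrier →L[ℂ] PT (Unitization ℂ A) M.carrier :=
    (mapR (Unitization ℂ A) M.rcan).comp ρ
  have hρl : ∀ x, ρl x = mapR (Unitization ℂ A) M.rcan (ρ x) := fun x => rfl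
  have hinr : ∀ (a : A) x, M.ractU (a : Unitization ℂ A) x = M.ract a x := by
    intro a x
    show extAct M.ract (a : Unitization ℂ A) x = _
    rw [extAct_apply]
    simp
  refine ⟨ρl, ?_, ?_, ?_⟩
  · intro a x
    show ρl (extAct M.lact a x) = _
    rw [extAct_apply, map_add, map_smul, ResB1_lmul_ext a (ρl x)]
    congr 1
    rw [hρl, h1, mapR_lmul, hρl]
  · have hA : ∀ (a : A) x, ρl (M.ract a x) = mapR (Unitization ℂ A) (M.ract a) (ρl x) := by
      intro a x
      rw [hρl, hρl, h2, mapR_comp, mapR_comp]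
      congr 2
      refine PT_ext fun m v => ?_
      rw [ContinuousLinearMap.comp_apply, ContinuousLinearMap.comp_apply, mapR_tm]
      show lift M.ractU.flip (tm m (v * (a : Unitization ℂ A)))
        = M.ract a (lift M.ractU.flip (tm m v))
      rw [lift_tm, lift_tm]
      show extAct M.ract (v * (a : Unitization ℂ A)) m = M.ract a (extAct M.ract v m)
      rw [extAct_apply, extAct_apply]
      simp only [Unitization.fst_mul, Unitization.fst_inr, mul_zero, zero_smul, zero_add,
        Unitization.snd_mul, Unitization.snd_inr, map_add, map_smul,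
        add_apply, smul_apply, M.ract_mul]
      simp
    intro a x
    show ρl (extAct M.ract a x) = mapR (Unitization ℂ A) (extAct M.ract a) (ρl x)
    rw [extAct_apply, map_add, map_smul, hA]
    have e : ∀ t, mapR (Unitization ℂ A) (extAct M.ract a) t
        = a.fst • t + mapR (Unitization ℂ A) (M.ract a.snd) t := by
      intro t
      have : mapR (Unitization ℂ A) (extAct M.ract a)
          = a.fst • ContinuousLinearMap.id ℂ _ + mapR (Unitization ℂ A) (M.ract a.snd) :=
        PT_ext fun u x => by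
          rw [mapR_tm, extAct_apply, tm_add_right, tm_smul_right]
          simp
      rw [this]
      rfl
    rw [e]
  · intro x
    exact h3 x

/-- JOB ResB1. A bimodule resolution of `A₊` of length `≤ 1` gives the linear map `b'`. -/
theorem exists_b'_of_resolution {n : ℕ} (hn : n ≤ 1)
    (R : (BMod.unitizationBMod A).Resolution n) :
    ∃ b : Unitization ℂ A →L[ℂ] PT (Unitization ℂ A) (PT (Unitization ℂ A) (Unitization ℂ A)),
      IsB' b := by
  have hmulext : ∀ (a y : Unitization ℂ A),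
      a.fst • y + (a.snd : Unitization ℂ A) * y = a * y := by
    intro a y
    have ha : a = a.fst • (1 : Unitization ℂ A) + (a.snd : Unitization ℂ A) := by
      ext
      · simp
      · simp
    conv_rhs => rw [ha]
    rw [add_mul, smul_mul_assoc, one_mul]
  have hmulext' : ∀ (a y : Unitization ℂ A),
      a.fst • y + y * (a.snd : Unitization ℂ A) = y * a := by
    intro a y
    have ha : a = a.fst • (1 : Unitization ℂ A) + (a.snd : Unitization ℂ A) := by
      ext
      · simp
      · simp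
    conv_rhs => rw [ha]
    rw [mul_add, mul_smul_comm, mul_one]
  obtain ⟨ρ0, hρ0l, hρ0r, hρ0⟩ := ResB1_proj (R.P 0) (R.proj 0)
  obtain ⟨ρ1, hρ1l, hρ1r, hρ1⟩ := ResB1_proj (R.P 1) (R.proj 1)
  have hss : Subsingleton (R.P 2).carrier := R.zero 2 (by omega)
  refine ResB1_core (B := Unitization ℂ A) (R.P 0).lactU (R.P 0).ractU (R.P 1).lactU
    (R.P 1).ractU ?_ ?_ ?_ ρ0 hρ0l hρ0r hρ0 ρ1 hρ1l hρ1r hρ1 R.ε ?_ ?_ (R.d 0) ?_ ?_ R.ε_d
    (R.s 0) ?_ (R.σ (1 : Unitization ℂ A)) (R.ε_σ _) ?_
  · intro a b x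
    show extAct (R.P 0).lact (a * b) x = extAct (R.P 0).lact a (extAct (R.P 0).lact b x)
    rw [extAct_apply, extAct_apply, extAct_apply]
    simp only [Unitization.fst_mul, Unitization.snd_mul, map_add, map_smul,
      add_apply, smul_apply, (R.P 0).lact_mul,
      smul_add, mul_smul]
    abel
  · intro a b x
    show extAct (R.P 0).ract (a * b) x = extAct (R.P 0).ract b (extAct (R.P 0).ract a x)
    rw [extAct_apply, extAct_apply, extAct_apply]
    simp only [Unitization.fst_mul, Unitization.snd_mul, map_add, map_smul,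
      add_apply, smul_apply, (R.P 0).ract_mul,
      smul_add, mul_smul]
    rw [smul_comm]
    abel
  · intro a b x
    show extAct (R.P 0).lact a (extAct (R.P 0).ract b x)
      = extAct (R.P 0).ract b (extAct (R.P 0).lact a x)
    rw [extAct_apply, extAct_apply, extAct_apply, extAct_apply]
    simp only [map_add, map_smul, (R.P 0).lact_ract, smul_add]
    rw [smul_comm]
    abel
  · intro a x
    rw [← hmulext]
    show R.ε (extAct (R.P 0).lact a x) = _
    rw [extAct_apply, map_add, map_smul, R.ε_hom.1]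
    rfl
  · intro a x
    rw [← hmulext']
    show R.ε (extAct (R.P 0).ract a x) = _
    rw [extAct_apply, map_add, map_smul, R.ε_hom.2]
    rfl
  · exact ResB1_extAct_hom _ _ _ (R.d_hom 0).1
  · exact ResB1_extAct_hom _ _ _ (R.d_hom 0).2
  · intro x
    have h := R.homotopy_succ 0 x
    have h0 : R.s 1 x = 0 := Subsingleton.elim _ _
    rw [h0, map_zero, add_zero] at h
    exact h
  · intro x hx
    have h := R.homotopy_zero x
    have hx' : R.ε x = (0 : (BMod.unitizationBMod A).carrier) := hx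
    rw [hx', map_zero, zero_add] at h
    exact h

end Pool.MP_1c66c9_an
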