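import Pool.Agent.Lib.MP_1c66c9_an.Core

set_option linter.unusedSectionVars false
set_option linter.deprecated false

open scoped TensorProduct

namespace Pool.MP_1c66c9_an

variable {B : Type*} [NormedRing B] [NormedAlgebra ℂ B] [CompleteSpace B]
  {X : Type*} [NormedAddCommGroup X] [NormedSpace ℂ X] [CompleteSpace X]

/-- `x ↦ id ⊗ (id ⊗ R x)` applied to an element -/
private noncomputable def ResB2_m (α : B →L[ℂ] X →L[ℂ] X) (x : X) :
    PT B (PT B B) →L[ℂ] PT B (PT B X) := mapR B (mapR B (α.flip x))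

private lemma ResB2_m_tm (α : B →L[ℂ] X →L[ℂ] X) (x : X) (u v w : B) :
    ResB2_m α x (tm u (tm v w)) = tm u (tm v (α w x)) := by
  unfold ResB2_m
  rw [mapR_tm, mapR_tm]
  rfl

private lemma ResB2_mapR_add {E F F' : Type*} [NormedAddCommGroup E] [NormedSpace ℂ E]
    [NormedAddCommGroup F] [NormedSpace ℂ F] [NormedAddCommGroup F'] [NormedSpace ℂ F']
    (g h : F →L[ℂ] F') : mapR E (g + h) = mapR E g + mapR E h := by
  refine PT_ext fun x y => ?_
  rw [ContinuousLinearMap.add_apply, mapR_tm, mapR_tm, mapR_tm, ContinuousLinearMap.add_apply,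
    tm_add_right]

private lemma ResB2_mapR_smul {E F F' : Type*} [NormedAddCommGroup E] [NormedSpace ℂ E]
    [NormedAddCommGroup F] [NormedSpace ℂ F] [NormedAddCommGroup F'] [NormedSpace ℂ F']
    (c : ℂ) (g : F →L[ℂ] F') : mapR E (c • g) = c • mapR E g := by
  refine PT_ext fun x y => ?_
  rw [ContinuousLinearMap.smul_apply, mapR_tm, mapR_tm, ContinuousLinearMap.smul_apply,
    tm_smul_right]

private lemma ResB2_mapR_norm {E F F' : Type*} [NormedAddCommGroup E] [NormedSpace ℂ E]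
    [NormedAddCommGroup F] [NormedSpace ℂ F] [NormedAddCommGroup F'] [NormedSpace ℂ F']
    (g : F →L[ℂ] F') : ‖mapR E g‖ ≤ ‖g‖ :=
  ContinuousLinearMap.opNorm_le_bound _ (norm_nonneg g) (mapR_bound g)

private lemma ResB2_m_add (α : B →L[ℂ] X →L[ℂ] X) (x y : X) :
    ResB2_m α (x + y) = ResB2_m α x + ResB2_m α y := by
  unfold ResB2_m
  rw [map_add, ResB2_mapR_add, ResB2_mapR_add]

private lemma ResB2_m_smul (α : B →L[ℂ] X →L[ℂ] X) (c : ℂ) (x : X) :
    ResB2_m α (c • x) = c • ResB2_m α x := by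
  unfold ResB2_m
  rw [map_smul, ResB2_mapR_smul, ResB2_mapR_smul]

private lemma ResB2_m_norm (α : B →L[ℂ] X →L[ℂ] X) (x : X) :
    ‖ResB2_m α x‖ ≤ ‖α‖ * ‖x‖ := by
  unfold ResB2_m
  refine (ResB2_mapR_norm _).trans ((ResB2_mapR_norm _).trans ?_)
  refine ContinuousLinearMap.opNorm_le_bound _ (by positivity) fun w => ?_
  rw [ContinuousLinearMap.flip_apply]
  calc ‖α w x‖ ≤ ‖α‖ * ‖w‖ * ‖x‖ := α.le_opNorm₂ w x
    _ = ‖α‖ * ‖x‖ * ‖w‖ := by ring

/-- the bilinear map -/
private noncomputable def ResB2_b (b' : B →L[ℂ] PT B (PT B B)) (α : B →L[ℂ] X →L[ℂ] X) :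
    B →L[ℂ] X →L[ℂ] PT B (PT B X) :=
  LinearMap.mkContinuous₂
    (LinearMap.mk₂ ℂ (fun (a : B) (x : X) => ResB2_m α x (b' a))
      (fun a a' x => by rw [map_add, map_add])
      (fun c a x => by rw [map_smul, map_smul])
      (fun a x y => by rw [ResB2_m_add]; rfl)
      (fun c a x => by rw [ResB2_m_smul]; rfl))
    (‖α‖ * ‖b'‖) (fun a x => by
      show ‖ResB2_m α x (b' a)‖ ≤ _
      calc ‖ResB2_m α x (b' a)‖ ≤ ‖ResB2_m α x‖ * ‖b' a‖ := (ResB2_m α x).le_opNorm _
        _ ≤ (‖α‖ * ‖x‖) * (‖b'‖ * ‖a‖) := by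
            gcongr
            · exact ResB2_m_norm α x
            · exact b'.le_opNorm a
        _ = ‖α‖ * ‖b'‖ * ‖a‖ * ‖x‖ := by ring)

private lemma ResB2_b_apply (b' : B →L[ℂ] PT B (PT B B)) (α : B →L[ℂ] X →L[ℂ] X) (a : B) (x : X) :
    ResB2_b b' α a x = ResB2_m α x (b' a) := rfl

/-- extensionality on the triple tensor product -/
private lemma ResB2_ext {G : Type*} [NormedAddCommGroup G] [NormedSpace ℂ G]
    {f g : PT B (PT B B) →L[ℂ] G} (h : ∀ u v w, f (tm u (tm v w)) = g (tm u (tm v w))) :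
    f = g := by
  refine PT_ext fun u t => ?_
  have : f.comp (tmL B (PT B B) u) = g.comp (tmL B (PT B B) u) :=
    PT_ext fun v w => h u v w
  exact congrArg (fun f => f t) this

/-- JOB ResB2. From `b'` to `b` for every unital Banach `B`-module.

Proof. For `x : X` let `R x : B →L X`, `v ↦ α v x` (`R = α.flip`, linear in `x`), and
`b a x := mapR B (mapR B (R x)) (b' a)`, i.e. `(u ⊗ (v ⊗ w)) ↦ u ⊗ (v ⊗ (w x))`.
Bilinear and bounded: `‖b a x‖ ≤ ‖R x‖ ‖b' a‖ ≤ ‖α‖ ‖x‖ ‖b'‖ ‖a‖` (`mapR_bound`); linearity in `x`: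
check on elementary tensors with `PT_ext`. The three identities: apply the maps to the
identities of `IsB'`; e.g. `mapR (mapR (R x)) ∘ mapR (mapR (· a)) = mapR (mapR (R (α a x)))` since
`α (w * a) x = α w (α a x)`; `mapR (mapR (R x))` commutes with `lmul`
(`mapR_lmul`); `mu12 ∘ mapR (mapR (R x)) = mapR (R x) ∘ mu12`;
`mu23 α ∘ mapR (mapR (R x)) = mapR (R x) ∘ mu23 (mul)` (by `PT_ext`, twice), and
`mapR (R x) (tm a 1 - tm 1 a) = tm a (α 1 x) - tm 1 (α a x)`. -/
theorem exists_b_of_b' {b' : B →L[ℂ] PT B (PT B B)} (hb' : IsB' b')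
    (α : B →L[ℂ] X →L[ℂ] X) (h1 : ∀ x, α 1 x = x) (hmul : ∀ a b x, α (a * b) x = α a (α b x)) :
    ∃ b, IsB α b := by
  refine ⟨ResB2_b b' α, ?_, ?_, ?_⟩
  · intro a' a x
    rw [ResB2_b_apply, ResB2_b_apply, ResB2_b_apply]
    have e1 : lmul B (PT B X) a' (ResB2_m α x (b' a)) =
        ResB2_m α x (lmul B (PT B B) a' (b' a)) := by
      unfold ResB2_m
      rw [mapR_lmul]
    rw [e1, hb'.left, map_sub]
    have e2 : (ResB2_m α x).comp
        (mapR B (mapR B ((ContinuousLinearMap.mul ℂ B).flip a))) = ResB2_m α (α a x) := by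
      refine ResB2_ext fun u v w => ?_
      rw [ContinuousLinearMap.comp_apply, mapR_tm, mapR_tm, ResB2_m_tm, ResB2_m_tm,
        ContinuousLinearMap.flip_apply, ContinuousLinearMap.mul_apply', hmul]
    rw [← e2]
    rfl
  · intro a x
    rw [ResB2_b_apply]
    have e : (mu23 α).comp (ResB2_m α x) =
        (mapR B (α.flip x)).comp (mu23 (ContinuousLinearMap.mul ℂ B)) := by
      refine ResB2_ext fun u v w => ?_
      rw [ContinuousLinearMap.comp_apply, ContinuousLinearMap.comp_apply, ResB2_m_tm,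
        mu23_tm_tm, mu23_tm_tm, mapR_tm, ContinuousLinearMap.flip_apply,
        ContinuousLinearMap.mul_apply', hmul]
    have e' := congrArg (fun f => f (b' a)) e
    simp only [ContinuousLinearMap.comp_apply] at e'
    rw [e', hb'.mu23_eq, map_zero]
  · intro a x
    rw [ResB2_b_apply]
    have e : (mu12 B X).comp (ResB2_m α x) = (mapR B (α.flip x)).comp (mu12 B B) := by
      refine ResB2_ext fun u v w => ?_
      rw [ContinuousLinearMap.comp_apply, ContinuousLinearMap.comp_apply, ResB2_m_tm,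
        mu12_tm_tm, mu12_tm_tm, mapR_tm, ContinuousLinearMap.flip_apply]
    have e' := congrArg (fun f => f (b' a)) e
    simp only [ContinuousLinearMap.comp_apply] at e'
    rw [e', hb'.mu12_eq, map_sub, mapR_tm, mapR_tm, ContinuousLinearMap.flip_apply,
      ContinuousLinearMap.flip_apply, h1]

end Pool.MP_1c66c9_an
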