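import Mathlib

open Filter Topology

namespace Pool.MP_1c66c9_an

universe u

/-- JOB StateB (first part). Hahn-Banach (`exists_dual_vector`) for the vector `1 + k`:
`‖f‖ = 1`, `f (1 + k) = ‖1 + k‖ ≥ 2`, and `|f 1| ≤ 1`, `|f k| ≤ 1`. (`‖1‖ ≤ 1` in a C*-algebra; `B` may
be assumed nontrivial because `‖1 + k‖ ≥ 2`.) -/
theorem exists_norm_attaining (B : Type u) [CStarAlgebra B] (k : B) (hk : ‖k‖ ≤ 1)
    (hk2 : 2 ≤ ‖(1 : B) + k‖) : ∃ f : B →L[ℂ] ℂ, ‖f‖ ≤ 1 ∧ f 1 = 1 ∧ f k = 1 := by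
  have hne : (1 : B) + k ≠ 0 := by
    intro h
    rw [h, norm_zero] at hk2
    linarith
  have : Nontrivial B := ⟨⟨_, _, hne⟩⟩
  have h1 : ‖(1 : B)‖ = 1 := CStarRing.norm_one
  obtain ⟨f, hf, hf2⟩ := exists_dual_vector ℂ ((1 : B) + k) (norm_ne_zero_iff.mpr hne)
  have hnorm : ‖(1 : B) + k‖ = 2 := by
    refine le_antisymm ?_ hk2
    calc ‖(1 : B) + k‖ ≤ ‖(1 : B)‖ + ‖k‖ := norm_add_le _ _
      _ ≤ 2 := by rw [h1]; linarith
  have hsum : f 1 + f k = 2 := by
    rw [← map_add, hf2, hnorm]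
    norm_num
  have hf1 : ‖f 1‖ ≤ 1 := by
    have := f.le_opNorm 1
    rw [hf, h1] at this
    linarith
  have hfk : ‖f k‖ ≤ 1 := by
    have := f.le_opNorm k
    rw [hf] at this
    linarith
  have hre : (f 1).re + (f k).re = 2 := by
    have := congrArg Complex.re hsum
    simpa using this
  have hr1 : (f 1).re ≤ 1 := (Complex.re_le_norm _).trans hf1
  have hrk : (f k).re ≤ 1 := (Complex.re_le_norm _).trans hfk
  have e1 : (f 1).re = 1 := by linarith
  have ek : (f k).re = 1 := by linarith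
  have key : ∀ z : ℂ, ‖z‖ ≤ 1 → z.re = 1 → z = 1 := by
    intro z hz hzr
    have h2 : z.re ^ 2 + z.im ^ 2 ≤ 1 := by
      have h3 : ‖z‖ ^ 2 ≤ 1 := by nlinarith [norm_nonneg z]
      rw [← Complex.normSq_eq_norm_sq, Complex.normSq_apply] at h3
      nlinarith
    have him : z.im = 0 := by
      rw [hzr] at h2
      nlinarith [sq_nonneg z.im]
    exact Complex.ext (by simp [hzr]) (by simp [him])
  exact ⟨f, hf.le, key _ hf1 e1, key _ hfk ek⟩

/-- JOB StateB (second part). A sequence of functionals of norm `≤ 1` converges pointwise along a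
free ultrafilter to a functional of norm `≤ 1` (Banach-Alaoglu, or pointwise compactness of discs
in `ℂ` and uniqueness of limits). -/
theorem exists_limit_functional (B : Type u) [NormedAddCommGroup B] [NormedSpace ℂ B]
    (f : ℕ → B →L[ℂ] ℂ) (hf : ∀ n, ‖f n‖ ≤ 1) :
    ∃ (U : Ultrafilter ℕ) (F : B →L[ℂ] ℂ), (U : Filter ℕ) ≤ atTop ∧ ‖F‖ ≤ 1 ∧
      ∀ a, Tendsto (fun n => f n a) (U : Filter ℕ) (𝓝 (F a)) := by
  classical
  let U : Ultrafilter ℕ := Ultrafilter.of atTop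
  have hU : (U : Filter ℕ) ≤ atTop := Ultrafilter.of_le atTop
  have hlim : ∀ a : B, ∃ z : ℂ, ‖z‖ ≤ ‖a‖ ∧ Tendsto (fun n => f n a) (U : Filter ℕ) (𝓝 z) := by
    intro a
    have hc : IsCompact (Metric.closedBall (0 : ℂ) ‖a‖) := isCompact_closedBall _ _
    have hmem : ((U.map (fun n => f n a) : Ultrafilter ℂ) : Filter ℂ) ≤
        𝓟 (Metric.closedBall (0 : ℂ) ‖a‖) := by
      rw [Ultrafilter.coe_map, le_principal_iff, mem_map]
      refine Filter.univ_mem' (fun n => ?_)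
      simp only [Set.mem_preimage, Metric.mem_closedBall, dist_zero_right]
      calc ‖f n a‖ ≤ ‖f n‖ * ‖a‖ := (f n).le_opNorm a
        _ ≤ 1 * ‖a‖ := by gcongr; exact hf n
        _ = ‖a‖ := one_mul _
    obtain ⟨z, hz, hz2⟩ := hc.ultrafilter_le_nhds _ hmem
    refine ⟨z, by simpa using hz, ?_⟩
    rw [Ultrafilter.coe_map] at hz2
    exact hz2
  choose F hF1 hF2 using hlim
  have hadd : ∀ a b, F (a + b) = F a + F b := by
    intro a b
    have h1 := (hF2 a).add (hF2 b)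
    have h2 := hF2 (a + b)
    refine tendsto_nhds_unique h2 (h1.congr (fun n => ?_))
    simp
  have hsmul : ∀ (c : ℂ) (a : B), F (c • a) = c • F a := by
    intro c a
    have h1 := (hF2 a).const_smul c
    have h2 := hF2 (c • a)
    refine tendsto_nhds_unique h2 (h1.congr (fun n => ?_))
    simp
  let L : B →ₗ[ℂ] ℂ := { toFun := F, map_add' := hadd, map_smul' := hsmul }
  refine ⟨U, L.mkContinuous 1 (fun a => by simpa [L] using hF1 a), hU,
    L.mkContinuous_norm_le zero_le_one _, fun a => hF2 a⟩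

end Pool.MP_1c66c9_an
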