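import Pool.Agent.Lib.MP_1c66c9_an.StateD1

open Filter Topology

namespace Pool.MP_1c66c9_an

universe u

/-- JOB StateD2. The operators `w`: let `f n` be states with `f n (y * k n) = f n y`, converging
pointwise along an ultrafilter `U` to `F = ⟪ζ, π · ζ⟫`. For every finite set `s ⊆ B`, `n0`, `ε` there
are `n ≥ n0` and `w : B →L H` with `‖w y‖ ≤ 2 ‖y‖` and `‖w (y * k n) - π y ζ‖ ≤ ε` for `y ∈ s`.

Proof. `E = span {π y ζ | y ∈ s}` is finite-dimensional; let `e₁, …, e_r` be an orthonormal basis of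
`E` (`stdOrthonormalBasis`). Every `e i` is of the form `π (v i) ζ` with `v i ∈ B` (the map `y ↦ π y ζ`
is linear, so its range contains `E`). `F (star (v i) * v j) = ⟪e i, e j⟫ = δ_ij`, so for `U`-many `n`
the hypothesis of `state_bessel` holds with `η = 1/(r+1)`. Put
`w y = ∑ i, f n (star (v i) * y) • e i`; `‖w y‖² = ∑ |f n (v i* y)|² ≤ 4 ‖y‖²`.
`w (y * k n) = ∑ f n (v i* y) e i → ∑ F (v i* y) e i = ∑ ⟪e i, π y ζ⟫ e i = π y ζ` along `U`
(for `y ∈ s`, `π y ζ ∈ E`). Combine the finitely many eventual conditions and `U ≤ atTop`. -/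
theorem exists_w {B : Type u} [CStarAlgebra B] (k : ℕ → B) (f : ℕ → B →L[ℂ] ℂ)
    (hf : ∀ n, ‖f n‖ ≤ 1) (hf1 : ∀ n, f n 1 = 1) (hfk : ∀ n y, f n (y * k n) = f n y)
    (U : Ultrafilter ℕ) (hU : (U : Filter ℕ) ≤ atTop) (F : B →L[ℂ] ℂ)
    (hF : ∀ a, Tendsto (fun n => f n a) (U : Filter ℕ) (𝓝 (F a)))
    {H : Type u} [NormedAddCommGroup H] [InnerProductSpace ℂ H] [CompleteSpace H]
    (π : B →⋆ₐ[ℂ] (H →L[ℂ] H)) (ζ : H) (hπ : ∀ a, F a = inner ℂ ζ (π a ζ))
    (s : Finset B) (n0 : ℕ) (ε : ℝ) (hε : 0 < ε) :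
    ∃ n, n0 ≤ n ∧ ∃ w : B →L[ℂ] H, (∀ y, ‖w y‖ ≤ 2 * ‖y‖) ∧
      ∀ y ∈ s, ‖w (y * k n) - π y ζ‖ ≤ ε := by
  classical
  let ℓ : B →ₗ[ℂ] H :=
    { toFun := fun y => π y ζ
      map_add' := fun a b => by simp
      map_smul' := fun c a => by simp }
  let E : Submodule ℂ H := Submodule.span ℂ ((s.image fun y => π y ζ : Finset H) : Set H)
  have hfinE : FiniteDimensional ℂ E := FiniteDimensional.span_finset ℂ _
  have hE : E ≤ LinearMap.range ℓ := by
    refine Submodule.span_le.2 ?_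
    intro x hx
    obtain ⟨y, _, rfl⟩ := Finset.mem_image.1 (Finset.mem_coe.1 hx)
    exact ⟨y, rfl⟩
  have hsE : ∀ y ∈ s, π y ζ ∈ E := fun y hy =>
    Submodule.subset_span (Finset.mem_coe.2 (Finset.mem_image_of_mem _ hy))
  obtain ⟨r, hr⟩ : ∃ r, r = Module.finrank ℂ E := ⟨_, rfl⟩
  let e : OrthonormalBasis (Fin (Module.finrank ℂ E)) ℂ E := stdOrthonormalBasis ℂ E
  have hv : ∀ i, ∃ v : B, π v ζ = (e i : H) := fun i => hE (e i).2
  choose v hv using hv
  have hinner : ∀ a b : B, F (star a * b) = inner ℂ (π a ζ) (π b ζ) := by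
    intro a b
    rw [hπ, map_mul, map_star, mul_apply_eq_comp, ContinuousLinearMap.star_eq_adjoint,
      ContinuousLinearMap.adjoint_inner_right]
  have hort : ∀ i j, F (star (v i) * v j) = if i = j then 1 else 0 := by
    intro i j
    rw [hinner, hv, hv, ← Submodule.coe_inner]
    exact orthonormal_iff_ite.1 e.orthonormal i j
  set η : ℝ := 1 / ((Module.finrank ℂ E : ℝ) + 1) with hη
  have hηpos : 0 < η := by positivity
  have hrη : (Module.finrank ℂ E : ℝ) * η ≤ 3 := by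
    rw [hη, mul_one_div, div_le_iff₀ (by positivity)]
    nlinarith [(Nat.cast_nonneg (Module.finrank ℂ E) : (0 : ℝ) ≤ _)]
  -- eventual conditions
  have ev1 : ∀ᶠ n in (U : Filter ℕ), ∀ i j,
      ‖f n (star (v i) * v j) - (if i = j then 1 else 0)‖ ≤ η := by
    rw [eventually_all]; intro i
    rw [eventually_all]; intro j
    have h1 := hF (star (v i) * v j)
    rw [hort] at h1
    have h2 := (tendsto_iff_norm_sub_tendsto_zero.1 h1).eventually (gt_mem_nhds hηpos)
    exact h2.mono fun n hn => hn.le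
  let w : ℕ → B →L[ℂ] H := fun n => ∑ i,
    ((f n).comp (ContinuousLinearMap.mul ℂ B (star (v i)))).smulRight (e i : H)
  have hw : ∀ n y, w n y = ∑ i, f n (star (v i) * y) • (e i : H) := by
    intro n y
    simp [w]
  have ev2 : ∀ᶠ n in (U : Filter ℕ), ∀ y ∈ s, ‖w n (y * k n) - π y ζ‖ ≤ ε := by
    rw [eventually_all_finset]
    intro y hy
    have h1 : Tendsto (fun n => w n (y * k n)) (U : Filter ℕ) (𝓝 (π y ζ)) := by
      have h2 : (fun n => w n (y * k n)) = fun n => ∑ i, f n (star (v i) * y) • (e i : H) := by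
        funext n
        rw [hw]
        refine Finset.sum_congr rfl fun i _ => ?_
        rw [← mul_assoc, hfk]
      have h3 : π y ζ = ∑ i, F (star (v i) * y) • (e i : H) := by
        have h4 := e.sum_repr' ⟨π y ζ, hsE y hy⟩
        have h5 := congrArg (Subtype.val) h4
        rw [Submodule.coe_sum] at h5
        refine Eq.trans (Eq.symm h5) ?_
        refine Finset.sum_congr rfl fun i _ => ?_
        rw [hinner, hv]
        rfl
      rw [h2, h3]
      exact tendsto_finsetSum _ fun i _ => (hF (star (v i) * y)).smul_const _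
    have h2 := (tendsto_iff_norm_sub_tendsto_zero.1 h1).eventually (gt_mem_nhds hε)
    exact h2.mono fun n hn => hn.le
  have ev3 : ∀ᶠ n in (U : Filter ℕ), n0 ≤ n := hU (eventually_ge_atTop n0)
  obtain ⟨n, ⟨h1, h2⟩, h3⟩ := ((ev1.and ev2).and ev3).exists
  refine ⟨n, h3, w n, fun y => ?_, h2⟩
  have hb := state_bessel (hf n) (hf1 n) v η hηpos.le hrη h1 y
  have hnorm : ‖w n y‖ ^ 2 = ∑ i, ‖f n (star (v i) * y)‖ ^ 2 := by
    have h4 : w n y = ((∑ i, f n (star (v i) * y) • e i : E) : H) := by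
      rw [hw, Submodule.coe_sum]
      rfl
    rw [h4]
    refine Eq.trans (e.sum_sq_norm_inner_right (∑ i, f n (star (v i) * y) • e i)).symm ?_
    refine Finset.sum_congr rfl fun i _ => ?_
    rw [e.orthonormal.inner_right_fintype]
  rw [← hnorm] at hb
  have h5 : ‖w n y‖ ^ 2 ≤ (2 * ‖y‖) ^ 2 := by nlinarith
  exact le_of_sq_le_sq h5 (by positivity)

end Pool.MP_1c66c9_an
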