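import Pool.Agent.Lib.MP_1c66c9_an.Core
import Pool.Agent.Lib.MP_1c66c9_an.StateB
import Pool.Agent.Lib.MP_1c66c9_an.StateD2

open Filter Topology

namespace Pool.MP_1c66c9_an

universe u

/-- the limit functional kills `g m * g m` -/
private theorem setupEx_lim {B : Type u} [CStarAlgebra B] (D : OrthSeq B)
    (f : ℕ → B →L[ℂ] ℂ) (hfk : ∀ n y, f n (y * D.k n) = f n y)
    (U : Ultrafilter ℕ) (hU : (U : Filter ℕ) ≤ atTop) (F : B →L[ℂ] ℂ)
    (hF : ∀ a, Tendsto (fun n => f n a) (U : Filter ℕ) (𝓝 (F a))) (m : ℕ) :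
    F (star (D.g m) * D.g m) = 0 := by
  have h1 : ∀ᶠ n in (U : Filter ℕ), f n (star (D.g m) * D.g m) = 0 := by
    have h2 : ∀ᶠ n in (U : Filter ℕ), m < n := hU (eventually_gt_atTop m)
    filter_upwards [h2] with n hn
    rw [← hfk n, mul_assoc, D.gk_ne (ne_of_lt hn), mul_zero, map_zero]
  have h3 : Tendsto (fun n => f n (star (D.g m) * D.g m)) (U : Filter ℕ) (𝓝 0) :=
    tendsto_const_nhds.congr' (h1.mono fun n hn => hn.symm)
  exact tendsto_nhds_unique (hF _) h3

/-- JOB SetupEx. Existence of all data.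

Proof. `exists_norm_attaining` gives states `f n` with `f n (k n) = 1`; `exists_limit_functional`
gives `U` and `F` with `F 1 = 1`; `exists_gns` gives `H, π, ζ` for `F`. `state_mul_k` gives
`f n (y * k n) = f n y`. For `n ≠ m`, `f n (star (g m) * g m) = f n (g m * g m * k n) = 0`
(`OrthSeq.gk_ne`), `U` is free (`≤ atTop`), so `F (star (g m) * g m) = 0 = ‖π (g m) ζ‖²`.
For every `ι : Idx B` apply `exists_w` with `s = supp ι`, `n0 = (supp ι).card`,
`ε = 1 / (1 + card)` and use choice. `Infinite B`: an infinite-dimensional space is infinite (here: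
hypothesis). -/
theorem exists_setup {B : Type u} [CStarAlgebra B] (hB : Infinite B) (D : OrthSeq B) :
    Nonempty (Setup B) := by
  choose f hf hf1 hfkk using fun n => exists_norm_attaining B (D.k n) (D.k_le n) (D.k_norm n)
  have hfk : ∀ n y, f n (y * D.k n) = f n y := fun n y =>
    state_mul_k (hf n) (hf1 n) (D.k_le n) (hfkk n) y
  obtain ⟨U, F, hU, hFn, hF⟩ := exists_limit_functional B f hf
  have hF1 : F 1 = 1 := by
    have h1 : Tendsto (fun n => f n 1) (U : Filter ℕ) (𝓝 (1 : ℂ)) := by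
      simp only [hf1]
      exact tendsto_const_nhds
    exact tendsto_nhds_unique (hF 1) h1
  obtain ⟨H, i1, i2, i3, π, ζ, hζ, hπ⟩ := exists_gns B F hFn hF1
  have hg : ∀ m, π (D.g m) ζ = 0 := by
    intro m
    have h0 := setupEx_lim D f hfk U hU F hF m
    rw [hπ, map_mul, map_star, ContinuousLinearMap.star_eq_adjoint] at h0
    have h1 : inner ℂ (π (D.g m) ζ) (π (D.g m) ζ) = 0 := by
      rw [← h0]
      exact (ContinuousLinearMap.adjoint_inner_right _ _ _).symm
    exact inner_self_eq_zero.1 h1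
  have hw : ∀ ι : Idx B, ∃ n, (supp ι).card ≤ n ∧ ∃ w : B →L[ℂ] H, (∀ y, ‖w y‖ ≤ 2 * ‖y‖) ∧
      ∀ y ∈ supp ι, ‖w (y * D.k n) - π y ζ‖ ≤ 1 / (1 + ((supp ι).card : ℝ)) := fun ι =>
    exists_w D.k f hf hf1 hfk U hU F hF π ζ hπ (supp ι) (supp ι).card _ (by positivity)
  choose n hn w hw2 hw3 using hw
  exact ⟨{ D with
    inf := hB
    H := H
    ngH := i1
    ipH := i2
    csH := i3
    π := π
    ζ := ζ
    ζ_norm := hζ
    gζ := hg
    n := n
    w := w
    n_ge := hn
    w_le := hw2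
    w_app := hw3 }⟩

end Pool.MP_1c66c9_an
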