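import Pool.Agent.Lib.MP_1c66c9_an.MinDefs

namespace Pool.MP_1c66c9_an

universe u

/-- JOB SumMin. If there is no infinite orthogonal sequence of nonzero projections, every
projection is a finite sum of minimal projections.

Proof. Let `q < q'` mean `IsProj q ∧ IsProj q' ∧ q' * q = q ∧ q ≠ q'`. There is no infinite strictly
descending sequence `q₀ > q₁ > ⋯` (the differences `qₙ - qₙ₊₁` would be nonzero pairwise orthogonal
projections), so `<` is well founded (`wellFounded_iff_isEmpty_descending_chain` or
`RelEmbedding.wellFounded_iff_isEmpty`). Well-founded induction: `q = 0`: empty sum; `q` minimal: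
one summand; otherwise there is a projection `q'` with `q q' = q'`, `q' ≠ 0`, `q' ≠ q`; both `q'` and
`q - q'` are smaller than `q`, and `q = q' + (q - q')`. -/
theorem proj_mem_closure {B : Type u} [CStarAlgebra B]
    (hno : ¬ ∃ p : ℕ → B, (∀ n, IsSelfAdjoint (p n) ∧ p n * p n = p n ∧ p n ≠ 0) ∧
      ∀ m n, m ≠ n → p m * p n = 0) (q : B) (hq : IsProj q) :
    q ∈ AddSubmonoid.closure {p : B | IsMinProj p} := by
  have hcomm : ∀ a b : B, IsProj a → IsProj b → a * b = b → b * a = b := by
    intro a b ha hb h
    have h2 := congrArg star h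
    rw [star_mul, ha.1.star_eq, hb.1.star_eq] at h2
    exact h2
  have hwf : WellFounded (fun q q' : B => IsProj q ∧ IsProj q' ∧ q' * q = q ∧ q ≠ q') := by
    rw [wellFounded_iff_isEmpty_descending_chain]
    refine ⟨?_⟩
    rintro ⟨f, hf⟩
    have hproj : ∀ n, IsProj (f n) := fun n => (hf n).2.1
    have hle : ∀ m k, f m * f (m + k) = f (m + k) := by
      intro m k
      induction k with
      | zero => exact (hproj m).2
      | succ k ih =>
          have h1 : f (m + k) * f (m + (k + 1)) = f (m + (k + 1)) := (hf (m + k)).2.2.1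
          rw [← h1, ← mul_assoc, ih]
    have hle1 : ∀ m n, m ≤ n → f m * f n = f n := by
      intro m n hmn
      obtain ⟨k, rfl⟩ := Nat.exists_eq_add_of_le hmn
      exact hle m k
    have hle2 : ∀ m n, m ≤ n → f n * f m = f n := fun m n hmn =>
      hcomm _ _ (hproj m) (hproj n) (hle1 m n hmn)
    apply hno
    refine ⟨fun n => f n - f (n + 1), fun n => ⟨?_, ?_, ?_⟩, ?_⟩
    · exact (hproj n).1.sub (hproj (n + 1)).1
    · simp only [mul_sub, sub_mul]
      rw [hle1 n (n + 1) (Nat.le_succ n), hle2 n (n + 1) (Nat.le_succ n), (hproj n).2,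
        (hproj (n + 1)).2]
      abel
    · rw [Ne, sub_eq_zero]
      exact fun h => (hf n).2.2.2 h.symm
    · intro m n hmn
      rcases lt_or_gt_of_ne hmn with h | h
      · simp only [mul_sub, sub_mul]
        rw [hle1 m n h.le, hle1 (m + 1) n h, hle1 m (n + 1) (by omega),
          hle1 (m + 1) (n + 1) (by omega)]
        abel
      · simp only [mul_sub, sub_mul]
        rw [hle2 n m h.le, hle2 (n + 1) m h, hle2 n (m + 1) (by omega),
          hle2 (n + 1) (m + 1) (by omega)]
        abel
  induction q using hwf.induction with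
  | _ q ih =>
    by_cases h0 : q = 0
    · rw [h0]; exact zero_mem _
    by_cases hmin : IsMinProj q
    · exact AddSubmonoid.subset_closure hmin
    have hex : ∃ q' : B, IsProj q' ∧ q * q' = q' ∧ q' ≠ 0 ∧ q' ≠ q := by
      by_contra hcon
      apply hmin
      refine ⟨hq, h0, ?_⟩
      intro q' hq' hqq
      by_contra hor
      rw [not_or] at hor
      exact hcon ⟨q', hq', hqq, hor.1, hor.2⟩
    obtain ⟨q', hq', hqq, hne0, hneq⟩ := hex
    have hqq' : q' * q = q' := hcomm q q' hq hq' hqq
    have hsub : IsProj (q - q') := by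
      refine ⟨hq.1.sub hq'.1, ?_⟩
      simp only [mul_sub, sub_mul]
      rw [hq.2, hqq, hqq', hq'.2]
      abel
    have h1 := ih q' ⟨hq', hq, hqq, hneq⟩ hq'
    have h2 := ih (q - q') ⟨hsub, hq, by rw [mul_sub, hq.2, hqq], by
      intro h
      apply hne0
      have h3 : q - (q - q') = 0 := by rw [h]; exact sub_self q
      rwa [sub_sub_cancel] at h3⟩ hsub
    have h3 := add_mem h1 h2
    rwa [add_sub_cancel] at h3

end Pool.MP_1c66c9_an
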