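import Pool.Agent.Lib.MP_1c66c9_an.HeartB2
import Pool.Agent.Lib.MP_1c66c9_an.ModX
import Pool.Agent.Lib.MP_1c66c9_an.SetupEx
import Pool.Agent.Lib.MP_1c66c9_an.OrthA
import Pool.Agent.Lib.MP_1c66c9_an.OrthP
import Pool.Agent.Lib.MP_1c66c9_an.MinProj
import Pool.Agent.Lib.MP_1c66c9_an.SumMin
import Pool.Agent.Lib.MP_1c66c9_an.FinDim
import Pool.Agent.Lib.MP_1c66c9_an.Res1
import Pool.Agent.Lib.MP_1c66c9_an.ResB1
import Pool.Agent.Lib.MP_1c66c9_an.ResB2
import Pool.Agent.Lib.MP_1c66c9_an.Bridge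

open Filter Topology

namespace Pool.MP_1c66c9_an

universe u

theorem exists_orthSeq (B : Type u) [CStarAlgebra B] (hB : ¬ FiniteDimensional ℂ B) :
    Nonempty (OrthSeq B) := by
  by_cases hfin : ∀ a : B, IsSelfAdjoint a → (spectrum ℝ a).Finite
  · by_cases hno : ∃ p : ℕ → B, (∀ n, IsSelfAdjoint (p n) ∧ p n * p n = p n ∧ p n ≠ 0) ∧
      ∀ m n, m ≠ n → p m * p n = 0
    · obtain ⟨p, hp, hpp⟩ := hno
      exact orthSeq_of_projections B p hp hpp
    · exact absurd (finiteDimensional_of_minProj (fun p hp x => minProj_compress hfin p hp x)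
        (proj_mem_closure hno 1 ⟨IsSelfAdjoint.one B, mul_one 1⟩)) hB
  · push Not at hfin
    obtain ⟨a, ha, hinf⟩ := hfin
    exact orthSeq_of_infinite_spectrum B a ha hinf

/-- The heart: a module without a map `b`. -/
theorem exists_bad_module (B : Type u) [CStarAlgebra B] (hB : ¬ FiniteDimensional ℂ B) :
    ∃ (X : Type u) (_ : NormedAddCommGroup X) (_ : NormedSpace ℂ X) (_ : CompleteSpace X)
      (α : B →L[ℂ] X →L[ℂ] X), (∀ x, α 1 x = x) ∧ (∀ a b x, α (a * b) x = α a (α b x)) ∧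
      ¬ ∃ b, IsB α b := by
  obtain ⟨D⟩ := exists_orthSeq B hB
  have hinf : Infinite B := by
    by_contra h
    rw [not_infinite_iff_finite] at h
    exact hB inferInstance
  obtain ⟨S⟩ := exists_setup hinf D
  obtain ⟨X⟩ := exists_xdata S
  exact ⟨X.X, X.ngX, X.nsX, X.csX, X.α, X.α_one, X.α_mul, fun ⟨b, hb⟩ => no_b X b hb⟩

variable (A : Type u) [NonUnitalCStarAlgebra A]

theorem not_finiteDimensional_unitization (hA : ¬ FiniteDimensional ℂ A) :
    ¬ FiniteDimensional ℂ (Unitization ℂ A) := by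
  intro h
  exact hA (FiniteDimensional.of_injective (inrL (A := A)).toLinearMap Unitization.inr_injective)

/-- An infimum of lengths which is `≤ 1` is attained at some `n ≤ 1`. -/
lemma exists_le_one_of_iInf_le {p : ℕ → Prop}
    (h : (⨅ (n : ℕ) (_ : p n), (n : ℕ∞)) ≤ 1) : ∃ n : ℕ, n ≤ 1 ∧ p n := by
  by_contra hc
  push Not at hc
  have h2 : (2 : ℕ∞) ≤ ⨅ (n : ℕ) (_ : p n), (n : ℕ∞) := by
    refine le_iInf fun n => le_iInf fun hn => ?_
    have : 2 ≤ n := by
      by_contra h4
      exact hc n (by omega) hn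
    exact_mod_cast this
  exact absurd (h2.trans h) (by norm_num)

theorem one_lt_dg (hA : ¬ FiniteDimensional ℂ A) : 1 < dg A := by
  obtain ⟨X, i1, i2, i3, α, h1, hmul, hno⟩ :=
    exists_bad_module (Unitization ℂ A) (not_finiteDimensional_unitization A hA)
  let M : LeftMod A :=
    { X := X
      act := fun a x => α (a : Unitization ℂ A) x
      act_bilin := (α.comp inrL).isBoundedBilinearMap
      act_mul := fun a b x => by
        show α ((a * b : A) : Unitization ℂ A) x = α a (α b x)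
        rw [Unitization.inr_mul, hmul] }
  have key : ∀ (a : Unitization ℂ A) (x : X),
      a.fst • x + α (a.snd : Unitization ℂ A) x = α a x := by
    intro a x
    conv_rhs => rw [← Unitization.inl_fst_add_inr_snd_eq a]
    rw [map_add]
    show _ = α (Unitization.inl a.fst) x + _
    congr 1
    have : (Unitization.inl a.fst : Unitization ℂ A) = a.fst • (1 : Unitization ℂ A) := by
      ext <;> simp
    rw [this, map_smul]
    show _ = a.fst • α 1 x
    rw [h1]
  have hM : M.toLMod.actU = α :=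
    ContinuousLinearMap.ext fun a => ContinuousLinearMap.ext fun x => key a x
  by_contra hle
  rw [not_lt] at hle
  have h2 : M.dh ≤ 1 := (le_iSup (fun X : LeftMod A => X.dh) M).trans hle
  obtain ⟨n, hn, ⟨R⟩⟩ := exists_le_one_of_iInf_le (p := fun n => Nonempty (M.Res n)) h2
  obtain ⟨b, hb⟩ := exists_b_of_resolution M.toLMod hn R.toResolution
  have hb' : IsB α b := hM ▸ hb
  exact hno ⟨b, hb'⟩

theorem one_lt_db (hA : ¬ FiniteDimensional ℂ A) : 1 < db A := by
  obtain ⟨X, i1, i2, i3, α, h1, hmul, hno⟩ :=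
    exists_bad_module (Unitization ℂ A) (not_finiteDimensional_unitization A hA)
  by_contra hle
  rw [not_lt] at hle
  obtain ⟨n, hn, ⟨R⟩⟩ := exists_le_one_of_iInf_le
    (p := fun n => Nonempty ((BiMod.uniBiMod A).Res n)) hle
  obtain ⟨b', hb'⟩ := exists_b'_of_resolution hn R.toResolution
  exact hno (exists_b_of_b' hb' α h1 hmul)

theorem main (hA : ¬ FiniteDimensional ℂ A) : 1 < dg A ∧ 1 < db A :=
  ⟨one_lt_dg A hA, one_lt_db A hA⟩

end Pool.MP_1c66c9_an
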