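import Mathlib

namespace Pool.MP_1c66c9_an

universe u

/-- `p` is a projection. -/
def IsProj {B : Type u} [CStarAlgebra B] (p : B) : Prop := IsSelfAdjoint p ∧ p * p = p

/-- `p` is a minimal projection. -/
def IsMinProj {B : Type u} [CStarAlgebra B] (p : B) : Prop :=
  IsProj p ∧ p ≠ 0 ∧ ∀ q : B, IsProj q → p * q = q → q = 0 ∨ q = p

end Pool.MP_1c66c9_an
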