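import Pool.Agent.Lib.MP_1c66c9_an.PTDefs

/-!
The (completed) projective tensor product of two Banach spaces: properties.
-/

set_option linter.unusedSectionVars false

open scoped TensorProduct

namespace Pool.MP_1c66c9_an

universe u v

section api

variable {E : Type*} {F : Type*} [NormedAddCommGroup E] [NormedSpace ℂ E]
  [NormedAddCommGroup F] [NormedSpace ℂ F]

/-- The canonical map from the algebraic tensor product to its completion. -/
noncomputable def toPT : PreTensor E F →ₗᵢ[ℂ] PT E F :=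
  (UniformSpace.Completion.toComplₗᵢ : PreTensor E F →ₗᵢ[ℂ]
    UniformSpace.Completion (PreTensor E F))

lemma toPT_dense : DenseRange (toPT : PreTensor E F → PT E F) :=
  UniformSpace.Completion.denseRange_coe

lemma toPT_ui : IsUniformInducing (toPT : PreTensor E F → PT E F) :=
  UniformSpace.Completion.isUniformInducing_coe _

lemma toPT_induction {p : PT E F → Prop} (t : PT E F) (hc : IsClosed {t | p t})
    (h : ∀ s : PreTensor E F, p (toPT s)) : p t :=
  UniformSpace.Completion.induction_on (p := p) t hc h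

lemma tm_eq (x : E) (y : F) : tm x y = toPT (ptmul x y) := rfl

lemma norm_ptmul_le (x : E) (y : F) : ‖ptmul x y‖ ≤ ‖x‖ * ‖y‖ := by
  have := projNorm_le_cost [((x, y) : E × F)]
  rw [reprList_cons, reprList_nil, costList_cons, costList_nil, add_zero, add_zero] at this
  exact this

lemma norm_tm_le (x : E) (y : F) : ‖tm x y‖ ≤ ‖x‖ * ‖y‖ := by
  rw [tm_eq]
  rw [LinearIsometry.norm_map]
  exact norm_ptmul_le x y

variable (E F) in
/-- The elementary tensor as a bounded bilinear map. -/
noncomputable def tmL : E →L[ℂ] F →L[ℂ] PT E F :=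
  LinearMap.mkContinuous₂
    (LinearMap.mk₂ ℂ (fun (x : E) (y : F) => tm x y)
      (fun x x' y => by
        simp only [tm_eq]
        rw [← map_add]
        exact congrArg _ (TensorProduct.add_tmul x x' y))
      (fun c x y => by
        simp only [tm_eq]
        rw [← map_smul]
        rfl)
      (fun x y y' => by
        simp only [tm_eq]
        rw [← map_add]
        exact congrArg _ (TensorProduct.tmul_add x y y'))
      (fun c x y => by
        simp only [tm_eq]
        rw [← map_smul]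
        exact congrArg _ (TensorProduct.tmul_smul c x y)))
    1 (fun x y => by
      rw [one_mul]
      exact norm_tm_le x y)

@[simp] lemma tmL_apply (x : E) (y : F) : tmL E F x y = tm x y := rfl

lemma tm_add_left (x x' : E) (y : F) : tm (x + x') y = tm x y + tm x' y :=
  congrArg (fun f => f y) ((tmL E F).map_add x x')

lemma tm_add_right (x : E) (y y' : F) : tm x (y + y') = tm x y + tm x y' :=
  (tmL E F x).map_add y y'

lemma tm_sub_left (x x' : E) (y : F) : tm (x - x') y = tm x y - tm x' y :=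
  congrArg (fun f => f y) ((tmL E F).map_sub x x')

lemma tm_sub_right (x : E) (y y' : F) : tm x (y - y') = tm x y - tm x y' :=
  (tmL E F x).map_sub y y'

lemma tm_smul_left (c : ℂ) (x : E) (y : F) : tm (c • x) y = c • tm x y :=
  congrArg (fun f => f y) ((tmL E F).map_smul c x)

lemma tm_smul_right (c : ℂ) (x : E) (y : F) : tm x (c • y) = c • tm x y :=
  (tmL E F x).map_smul c y

lemma tm_zero_left (y : F) : tm (0 : E) y = 0 :=
  congrArg (fun f => f y) ((tmL E F).map_zero)

lemma tm_zero_right (x : E) : tm x (0 : F) = 0 :=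
  (tmL E F x).map_zero

/-- The linear span of the elementary tensors is dense. -/
lemma dense_span_tm :
    Dense (Submodule.span ℂ {t : PT E F | ∃ x y, t = tm x y} : Set (PT E F)) := by
  rw [dense_iff_closure_eq, Set.eq_univ_iff_forall]
  intro t
  refine toPT_induction t isClosed_closure ?_
  intro s
  apply subset_closure
  obtain ⟨l, rfl⟩ := exists_repr s
  induction l with
  | nil =>
      rw [reprList_nil, map_zero]
      exact Submodule.zero_mem _
  | cons p l ih =>
      rw [reprList_cons, map_add]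
      exact Submodule.add_mem _ (Submodule.subset_span ⟨p.1, p.2, rfl⟩) ih

/-- Induction principle: a closed additive predicate which holds on elementary tensors holds
everywhere. -/
theorem PT_induction {p : PT E F → Prop} (hc : IsClosed {t | p t}) (h0 : p 0)
    (hadd : ∀ s t, p s → p t → p (s + t)) (htm : ∀ x y, p (tm x y)) (t : PT E F) : p t := by
  refine toPT_induction t hc ?_
  intro s
  obtain ⟨l, rfl⟩ := exists_repr s
  induction l with
  | nil =>
      rw [reprList_nil, map_zero]
      exact h0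
  | cons p l ih =>
      rw [reprList_cons, map_add]
      exact hadd _ _ (htm p.1 p.2) ih

variable {G : Type*} [NormedAddCommGroup G] [NormedSpace ℂ G]

/-- Two bounded operators which agree on elementary tensors are equal. -/
theorem PT_ext {f g : PT E F →L[ℂ] G} (h : ∀ x y, f (tm x y) = g (tm x y)) : f = g := by
  ext t
  refine PT_induction (p := fun t => f t = g t) (isClosed_eq f.continuous g.continuous)
    (by simp) (fun s t hs ht => by simp only [map_add, hs, ht]) h t

/-- The linear map on the algebraic tensor product given by a bounded bilinear map. -/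
noncomputable def liftPre (f : E →L[ℂ] F →L[ℂ] G) : PreTensor E F →ₗ[ℂ] G :=
  (TensorProduct.lift ((ContinuousLinearMap.coeLM ℂ).comp f.toLinearMap) : E ⊗[ℂ] F →ₗ[ℂ] G)

lemma liftPre_ptmul (f : E →L[ℂ] F →L[ℂ] G) (x : E) (y : F) :
    liftPre f (ptmul x y) = f x y := by
  unfold liftPre ptmul
  exact TensorProduct.lift.tmul _ _

lemma liftPre_bound (f : E →L[ℂ] F →L[ℂ] G) {C : ℝ} (hC0 : 0 ≤ C)
    (hC : ∀ x y, ‖f x y‖ ≤ C * ‖x‖ * ‖y‖) (t : PreTensor E F) :
    ‖liftPre f t‖ ≤ C * ‖t‖ := by
  have key : ∀ l : List (E × F), ‖liftPre f (reprList l)‖ ≤ C * costList l := by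
    intro l
    induction l with
    | nil => simp [reprList_nil, costList_nil]
    | cons p l ih =>
        rw [reprList_cons, costList_cons, map_add, liftPre_ptmul]
        calc ‖f p.1 p.2 + liftPre f (reprList l)‖
            ≤ ‖f p.1 p.2‖ + ‖liftPre f (reprList l)‖ := norm_add_le _ _
          _ ≤ C * ‖p.1‖ * ‖p.2‖ + C * costList l := add_le_add (hC _ _) ih
          _ = C * (‖p.1‖ * ‖p.2‖ + costList l) := by ring
  refine le_of_forall_pos_le_add fun ε hε => ?_
  have hpos : 0 < ε / (C + 1) := by positivity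
  obtain ⟨l, h1, h2⟩ := exists_cost_lt t
    (show projNorm t < projNorm t + ε / (C + 1) by linarith)
  have h3 := key l
  rw [h1] at h3
  have h4 : C * costList l ≤ C * (projNorm t + ε / (C + 1)) :=
    mul_le_mul_of_nonneg_left h2.le hC0
  have h5 : C * (ε / (C + 1)) ≤ ε := by
    rw [mul_div_assoc', div_le_iff₀ (by positivity)]
    nlinarith
  rw [norm_eq_projNorm]
  linarith [mul_add C (projNorm t) (ε / (C + 1))]

lemma opBound (f : E →L[ℂ] F →L[ℂ] G) (x : E) (y : F) : ‖f x y‖ ≤ ‖f‖ * ‖x‖ * ‖y‖ :=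
  f.le_opNorm₂ x y

variable [CompleteSpace G]

/-- The bounded operator on the projective tensor product given by a bounded bilinear map. -/
noncomputable def lift (f : E →L[ℂ] F →L[ℂ] G) : PT E F →L[ℂ] G :=
  ((liftPre f).mkContinuous ‖f‖ (liftPre_bound f (norm_nonneg f) (opBound f))).extend
    (toPT (E := E) (F := F)).toContinuousLinearMap

lemma lift_coe (f : E →L[ℂ] F →L[ℂ] G) (t : PreTensor E F) :
    lift f (toPT t) = liftPre f t := by
  unfold lift
  have := ((liftPre f).mkContinuous ‖f‖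
    (liftPre_bound f (norm_nonneg f) (opBound f))).extend_eq
    (e := (toPT (E := E) (F := F)).toContinuousLinearMap) toPT_dense toPT_ui t
  exact this

@[simp] lemma lift_tm (f : E →L[ℂ] F →L[ℂ] G) (x : E) (y : F) :
    lift f (tm x y) = f x y := by
  simp only [tm_eq]
  rw [lift_coe, liftPre_ptmul]

/-- Norm bound for `lift`. -/
theorem lift_bound (f : E →L[ℂ] F →L[ℂ] G) {C : ℝ} (hC0 : 0 ≤ C)
    (hC : ∀ x y, ‖f x y‖ ≤ C * ‖x‖ * ‖y‖) (t : PT E F) :
    ‖lift f t‖ ≤ C * ‖t‖ := by
  refine toPT_induction (p := fun t => ‖lift f t‖ ≤ C * ‖t‖) t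
    (isClosed_le (lift f).continuous.norm (continuous_const.mul continuous_norm)) ?_
  intro s
  rw [lift_coe, LinearIsometry.norm_map]
  exact liftPre_bound f hC0 hC s

lemma norm_lift_le (f : E →L[ℂ] F →L[ℂ] G) : ‖lift f‖ ≤ ‖f‖ :=
  ContinuousLinearMap.opNorm_le_bound _ (norm_nonneg f)
    (lift_bound f (norm_nonneg f) (opBound f))

lemma lift_add (f g : E →L[ℂ] F →L[ℂ] G) : lift (f + g) = lift f + lift g :=
  PT_ext fun x y => by
    rw [lift_tm]
    show f x y + g x y = lift f (tm x y) + lift g (tm x y)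
    rw [lift_tm, lift_tm]

lemma lift_smul (c : ℂ) (f : E →L[ℂ] F →L[ℂ] G) : lift (c • f) = c • lift f :=
  PT_ext fun x y => by
    rw [lift_tm]
    show c • f x y = c • lift f (tm x y)
    rw [lift_tm]

variable (E F G) in
/-- `lift` as a linear map. -/
noncomputable def liftLin : (E →L[ℂ] F →L[ℂ] G) →ₗ[ℂ] (PT E F →L[ℂ] G) where
  toFun f := lift f
  map_add' f g := lift_add f g
  map_smul' c f := lift_smul c f

variable (E F G) in
/-- `lift` as a bounded linear map. -/
noncomputable def liftL : (E →L[ℂ] F →L[ℂ] G) →L[ℂ] (PT E F →L[ℂ] G) :=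
  LinearMap.mkContinuous (𝕜 := ℂ) (𝕜₂ := ℂ) (σ := RingHom.id ℂ) (E := E →L[ℂ] F →L[ℂ] G)
    (F := PT E F →L[ℂ] G) (liftLin E F G) 1 (fun f => by
      rw [one_mul]
      exact norm_lift_le f)

lemma liftL_apply (f : E →L[ℂ] F →L[ℂ] G) : liftL E F G f = lift f := rfl

/-- Pointwise limits of uniformly bounded families of operators on a projective tensor product
can be checked on elementary tensors. -/
theorem PT_tendsto {ι : Type*} {l : Filter ι} {Φ : ι → PT E F →L[ℂ] G} {Ψ : PT E F →L[ℂ] G}
    {C : ℝ} (hC : ∀ i t, ‖Φ i t‖ ≤ C * ‖t‖)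
    (h : ∀ x y, Filter.Tendsto (fun i => Φ i (tm x y)) l (nhds (Ψ (tm x y)))) (t : PT E F) :
    Filter.Tendsto (fun i => Φ i t) l (nhds (Ψ t)) := by
  refine PT_induction (p := fun t => Filter.Tendsto (fun i => Φ i t) l (nhds (Ψ t))) ?_ ?_ ?_ h t
  · rw [← closure_subset_iff_isClosed]
    intro t ht
    rw [Metric.mem_closure_iff] at ht
    show Filter.Tendsto (fun i => Φ i t) l (nhds (Ψ t))
    rw [Metric.tendsto_nhds]
    intro ε hε
    have hpos : 0 < |C| + ‖Ψ‖ + 1 := by positivity
    obtain ⟨s, hs, hst⟩ := ht (ε / 2 / (|C| + ‖Ψ‖ + 1)) (by positivity)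
    have hs' := (Metric.tendsto_nhds.1 hs) (ε / 2) (by positivity)
    filter_upwards [hs'] with i hi
    have h1 : ‖Φ i t - Φ i s‖ ≤ |C| * dist t s := by
      rw [← map_sub, dist_eq_norm]
      exact (hC i _).trans (mul_le_mul_of_nonneg_right (le_abs_self C) (norm_nonneg _))
    have h2 : ‖Ψ s - Ψ t‖ ≤ ‖Ψ‖ * dist t s := by
      rw [← map_sub, dist_comm, dist_eq_norm]
      exact Ψ.le_opNorm _
    have h3 : (|C| + ‖Ψ‖) * dist t s < ε / 2 := by
      have h4 : (|C| + ‖Ψ‖) * dist t s ≤ (|C| + ‖Ψ‖ + 1) * dist t s := by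
        have := dist_nonneg (x := t) (y := s)
        nlinarith
      have h5 : (|C| + ‖Ψ‖ + 1) * dist t s < ε / 2 := by
        rw [lt_div_iff₀ hpos] at hst
        linarith [mul_comm (dist t s) (|C| + ‖Ψ‖ + 1)]
      linarith
    rw [dist_eq_norm] at hi ⊢
    calc ‖Φ i t - Ψ t‖ = ‖(Φ i t - Φ i s) + (Φ i s - Ψ s) + (Ψ s - Ψ t)‖ := by
          congr 1; abel
      _ ≤ ‖(Φ i t - Φ i s) + (Φ i s - Ψ s)‖ + ‖Ψ s - Ψ t‖ := norm_add_le _ _
      _ ≤ ‖Φ i t - Φ i s‖ + ‖Φ i s - Ψ s‖ + ‖Ψ s - Ψ t‖ := by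
          gcongr; exact norm_add_le _ _
      _ < ε := by linarith
  · simp only [map_zero]
    exact tendsto_const_nhds
  · intro s t hs ht
    simp only [map_add]
    exact hs.add ht

section mapR

variable {F' : Type*} [NormedAddCommGroup F'] [NormedSpace ℂ F']
variable {F'' : Type*} [NormedAddCommGroup F''] [NormedSpace ℂ F'']

variable (E) in
/-- The operator `id ⊗ g`. -/
noncomputable def mapR (g : F →L[ℂ] F') : PT E F →L[ℂ] PT E F' :=
  lift (((ContinuousLinearMap.compL ℂ F F' (PT E F')).flip g).comp (tmL E F'))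

@[simp] lemma mapR_tm (g : F →L[ℂ] F') (x : E) (y : F) : mapR E g (tm x y) = tm x (g y) := by
  unfold mapR
  rw [lift_tm]
  rfl

lemma mapR_comp (g : F →L[ℂ] F') (g' : F' →L[ℂ] F'') (t : PT E F) :
    mapR E g' (mapR E g t) = mapR E (g'.comp g) t := by
  have : (mapR E g').comp (mapR E g) = mapR E (g'.comp g) := PT_ext fun x y => by
    rw [ContinuousLinearMap.comp_apply, mapR_tm, mapR_tm, mapR_tm]
    rfl
  exact congrArg (fun f => f t) this

lemma mapR_bound (g : F →L[ℂ] F') (t : PT E F) : ‖mapR E g t‖ ≤ ‖g‖ * ‖t‖ := by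
  refine lift_bound _ (norm_nonneg g) (fun x y => ?_) t
  calc ‖tm x (g y)‖ ≤ ‖x‖ * ‖g y‖ := norm_tm_le _ _
    _ ≤ ‖x‖ * (‖g‖ * ‖y‖) := by gcongr; exact g.le_opNorm y
    _ = ‖g‖ * ‖x‖ * ‖y‖ := by ring

end mapR

end api

section lmul

variable (B : Type*) [NormedRing B] [NormedAlgebra ℂ B]
variable (E : Type*) [NormedAddCommGroup E] [NormedSpace ℂ E]

/-- The left multiplication action on `B ⊗ E`, `a • (u ⊗ x) = (a u) ⊗ x`, as a bounded bilinear
map. -/
noncomputable def lmul : B →L[ℂ] PT B E →L[ℂ] PT B E :=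
  (liftL B E (PT B E)).comp
    ((ContinuousLinearMap.compL ℂ B B (E →L[ℂ] PT B E) (tmL B E)).comp
      (ContinuousLinearMap.mul ℂ B))

variable {B E}

@[simp] lemma lmul_tm (a u : B) (x : E) : lmul B E a (tm u x) = tm (a * u) x := by
  show lift ((tmL B E).comp (ContinuousLinearMap.mul ℂ B a)) (tm u x) = _
  rw [lift_tm]
  rfl

lemma lmul_bound (a : B) (t : PT B E) : ‖lmul B E a t‖ ≤ ‖a‖ * ‖t‖ := by
  refine lift_bound (G := PT B E) ((tmL B E).comp (ContinuousLinearMap.mul ℂ B a))
    (norm_nonneg a) (fun u x => ?_) t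
  calc ‖tm (a * u) x‖ ≤ ‖a * u‖ * ‖x‖ := norm_tm_le _ _
    _ ≤ ‖a‖ * ‖u‖ * ‖x‖ := by gcongr; exact norm_mul_le a u

lemma lmul_mul (a a' : B) (t : PT B E) :
    lmul B E (a * a') t = lmul B E a (lmul B E a' t) := by
  have : lmul B E (a * a') = (lmul B E a).comp (lmul B E a') :=
    PT_ext fun u x => by
      rw [ContinuousLinearMap.comp_apply, lmul_tm, lmul_tm, lmul_tm, mul_assoc]
  exact congrArg (fun f => f t) this

lemma lmul_one (t : PT B E) : lmul B E 1 t = t := by
  have : lmul B E 1 = ContinuousLinearMap.id ℂ (PT B E) := PT_ext fun u x => by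
    rw [lmul_tm, one_mul]
    rfl
  exact congrArg (fun f => f t) this

variable {E' : Type*} [NormedAddCommGroup E'] [NormedSpace ℂ E']

lemma mapR_lmul (g : E →L[ℂ] E') (a : B) (t : PT B E) :
    mapR B g (lmul B E a t) = lmul B E' a (mapR B g t) := by
  have : (mapR B g).comp (lmul B E a) = (lmul B E' a).comp (mapR B g) :=
    PT_ext fun u x => by
      rw [ContinuousLinearMap.comp_apply, ContinuousLinearMap.comp_apply, lmul_tm, mapR_tm,
        mapR_tm, lmul_tm]
  exact congrArg (fun f => f t) this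

end lmul

end Pool.MP_1c66c9_an
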