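import Mathlib

/-!
The (completed) projective tensor product of two Banach spaces: definition.
-/

set_option linter.unusedSectionVars false

open scoped TensorProduct

namespace Pool.MP_1c66c9_an

universe u v

section defs

variable (E : Type*) (F : Type*) [NormedAddCommGroup E] [NormedSpace ℂ E]
  [NormedAddCommGroup F] [NormedSpace ℂ F]

/-- The algebraic tensor product, to be equipped with the projective seminorm. -/
def PreTensor : Type _ := E ⊗[ℂ] F

noncomputable instance : AddCommGroup (PreTensor E F) :=
  (TensorProduct.addCommGroup : AddCommGroup (E ⊗[ℂ] F))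

noncomputable instance : Module ℂ (PreTensor E F) :=
  (TensorProduct.leftModule : Module ℂ (E ⊗[ℂ] F))

variable {E F}

/-- The elementary tensor `x ⊗ y` in the algebraic tensor product. -/
noncomputable def ptmul (x : E) (y : F) : PreTensor E F := (x ⊗ₜ[ℂ] y : E ⊗[ℂ] F)

/-- The element of the algebraic tensor product represented by a list of pairs:
`repr [(x₁,y₁),…,(xₙ,yₙ)] = x₁ ⊗ y₁ + ⋯ + xₙ ⊗ yₙ`. -/
noncomputable def reprList (l : List (E × F)) : PreTensor E F :=
  (l.map fun p => ptmul p.1 p.2).sum

/-- The cost of a representation: `‖x₁‖ ‖y₁‖ + ⋯ + ‖xₙ‖ ‖yₙ‖`. -/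
noncomputable def costList (l : List (E × F)) : ℝ :=
  (l.map fun p => ‖p.1‖ * ‖p.2‖).sum

/-- The projective seminorm: the infimum of the costs of all representations. -/
noncomputable def projNorm (t : PreTensor E F) : ℝ :=
  sInf {c : ℝ | ∃ l : List (E × F), reprList l = t ∧ costList l = c}

end defs

section api

variable {E : Type*} {F : Type*} [NormedAddCommGroup E] [NormedSpace ℂ E]
  [NormedAddCommGroup F] [NormedSpace ℂ F]

lemma costList_nonneg (l : List (E × F)) : 0 ≤ costList l := by
  unfold costList
  apply List.sum_nonneg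
  intro x hx
  simp only [List.mem_map] at hx
  obtain ⟨p, _, rfl⟩ := hx
  positivity

lemma reprList_append (l l' : List (E × F)) :
    reprList (l ++ l') = reprList l + reprList l' := by
  unfold reprList
  rw [List.map_append, List.sum_append]

lemma costList_append (l l' : List (E × F)) :
    costList (l ++ l') = costList l + costList l' := by
  unfold costList
  rw [List.map_append, List.sum_append]

lemma reprList_cons (p : E × F) (l : List (E × F)) :
    reprList (p :: l) = ptmul p.1 p.2 + reprList l := by
  unfold reprList
  rw [List.map_cons, List.sum_cons]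

lemma costList_cons (p : E × F) (l : List (E × F)) :
    costList (p :: l) = ‖p.1‖ * ‖p.2‖ + costList l := by
  unfold costList
  rw [List.map_cons, List.sum_cons]

lemma reprList_nil : reprList ([] : List (E × F)) = 0 := rfl

lemma costList_nil : costList ([] : List (E × F)) = 0 := rfl

lemma ptmul_smul (c : ℂ) (x : E) (y : F) : ptmul (c • x) y = c • ptmul x y := rfl

lemma reprList_smul (c : ℂ) (l : List (E × F)) :
    reprList (l.map fun p => ((c • p.1, p.2) : E × F)) = c • reprList l := by
  induction l with
  | nil => simp [reprList_nil]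
  | cons p l ih =>
      rw [List.map_cons, reprList_cons, reprList_cons, ih, smul_add, ptmul_smul]

lemma costList_smul (c : ℂ) (l : List (E × F)) :
    costList (l.map fun p => ((c • p.1, p.2) : E × F)) = ‖c‖ * costList l := by
  induction l with
  | nil => simp [costList_nil]
  | cons p l ih =>
      rw [List.map_cons, costList_cons, costList_cons, ih, norm_smul]
      ring

lemma exists_repr (t : PreTensor E F) : ∃ l : List (E × F), reprList l = t := by
  refine TensorProduct.induction_on (motive := fun t : E ⊗[ℂ] F =>
    ∃ l : List (E × F), reprList l = (t : PreTensor E F)) t ⟨[], rfl⟩ ?_ ?_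
  · intro x y
    refine ⟨[(x, y)], ?_⟩
    rw [reprList_cons, reprList_nil]
    exact add_zero _
  · rintro a b ⟨l, hl⟩ ⟨l', hl'⟩
    exact ⟨l ++ l', by rw [reprList_append, hl, hl']; rfl⟩

lemma projNorm_bdd (t : PreTensor E F) :
    BddBelow {c : ℝ | ∃ l : List (E × F), reprList l = t ∧ costList l = c} := by
  refine ⟨0, ?_⟩
  rintro c ⟨l, _, rfl⟩
  exact costList_nonneg l

lemma projNorm_le_cost (l : List (E × F)) : projNorm (reprList l) ≤ costList l :=
  csInf_le (projNorm_bdd _) ⟨l, rfl, rfl⟩

lemma projNorm_nonneg (t : PreTensor E F) : 0 ≤ projNorm t := by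
  obtain ⟨l, hl⟩ := exists_repr t
  refine le_csInf ⟨costList l, l, hl, rfl⟩ ?_
  rintro c ⟨l, _, rfl⟩
  exact costList_nonneg l

lemma exists_cost_lt (t : PreTensor E F) {c : ℝ} (hc : projNorm t < c) :
    ∃ l : List (E × F), reprList l = t ∧ costList l < c := by
  obtain ⟨l, hl⟩ := exists_repr t
  obtain ⟨c', ⟨l', h1, h2⟩, h3⟩ := exists_lt_of_csInf_lt (s := {c : ℝ | ∃ l : List (E × F),
    reprList l = t ∧ costList l = c}) ⟨costList l, l, hl, rfl⟩ hc
  exact ⟨l', h1, h2 ▸ h3⟩

lemma projNorm_zero : projNorm (0 : PreTensor E F) = 0 := by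
  refine le_antisymm ?_ (projNorm_nonneg _)
  have := projNorm_le_cost ([] : List (E × F))
  rwa [reprList_nil, costList_nil] at this

lemma projNorm_add_le (s t : PreTensor E F) : projNorm (s + t) ≤ projNorm s + projNorm t := by
  refine le_of_forall_pos_le_add fun ε hε => ?_
  obtain ⟨l, h1, h2⟩ := exists_cost_lt s (show projNorm s < projNorm s + ε / 2 by linarith)
  obtain ⟨l', h1', h2'⟩ := exists_cost_lt t (show projNorm t < projNorm t + ε / 2 by linarith)
  have := projNorm_le_cost (l ++ l')
  rw [reprList_append, costList_append, h1, h1'] at this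
  linarith

lemma projNorm_smul_le (c : ℂ) (t : PreTensor E F) : projNorm (c • t) ≤ ‖c‖ * projNorm t := by
  refine le_of_forall_pos_le_add fun ε hε => ?_
  have hpos : 0 < ε / (‖c‖ + 1) := by positivity
  obtain ⟨l, h1, h2⟩ := exists_cost_lt t
    (show projNorm t < projNorm t + ε / (‖c‖ + 1) by linarith)
  have h3 := projNorm_le_cost (l.map fun p => ((c • p.1, p.2) : E × F))
  rw [reprList_smul, costList_smul, h1] at h3
  have h4 : ‖c‖ * costList l ≤ ‖c‖ * (projNorm t + ε / (‖c‖ + 1)) :=
    mul_le_mul_of_nonneg_left h2.le (norm_nonneg c)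
  have h5 : ‖c‖ * (ε / (‖c‖ + 1)) ≤ ε := by
    rw [mul_div_assoc', div_le_iff₀ (by positivity)]
    nlinarith [norm_nonneg c]
  linarith [mul_add ‖c‖ (projNorm t) (ε / (‖c‖ + 1))]

variable (E F) in
/-- The projective seminorm as a seminorm. -/
noncomputable def projSeminorm : Seminorm ℂ (PreTensor E F) :=
  Seminorm.ofSMulLE projNorm projNorm_zero projNorm_add_le projNorm_smul_le

noncomputable instance : SeminormedAddCommGroup (PreTensor E F) :=
  (projSeminorm E F).toAddGroupSeminorm.toSeminormedAddCommGroup

lemma norm_eq_projNorm (t : PreTensor E F) : ‖t‖ = projNorm t := rfl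

noncomputable instance : NormedSpace ℂ (PreTensor E F) where
  norm_smul_le := projNorm_smul_le

variable (E F) in
/-- The projective tensor product of two Banach spaces: the completion of the algebraic tensor
product with respect to the projective seminorm. -/
def PT : Type _ := UniformSpace.Completion (PreTensor E F)

noncomputable instance : NormedAddCommGroup (PT E F) :=
  UniformSpace.Completion.instNormedAddCommGroup (PreTensor E F)

noncomputable instance : NormedSpace ℂ (PT E F) :=
  UniformSpace.Completion.instNormedSpace ℂ (PreTensor E F)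

instance : CompleteSpace (PT E F) :=
  UniformSpace.Completion.completeSpace (PreTensor E F)

/-- The elementary tensor `x ⊗ y` as an element of the projective tensor product. -/
noncomputable def tm (x : E) (y : F) : PT E F :=
  ((ptmul x y : PreTensor E F) : UniformSpace.Completion (PreTensor E F))

end api

end Pool.MP_1c66c9_an
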