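import Pool.Agent.Lib.MP_1c66c9_an.Core

open Filter Topology
open scoped InnerProductSpace

namespace Pool.MP_1c66c9_an

universe u

variable {B : Type u} [CStarAlgebra B]

namespace Setup

variable (S : Setup B)

/-- the representation as a bounded linear map -/
noncomputable def πL : B →L[ℂ] (S.H →L[ℂ] S.H) :=
  LinearMap.mkContinuous
    { toFun := fun a => S.π a
      map_add' := fun a b => map_add S.π a b
      map_smul' := fun c a => map_smul S.π c a } 1 (fun a => by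
        rw [one_mul]
        exact NonUnitalStarAlgHom.norm_apply_le S.π a)

lemma πL_apply (a : B) : S.πL a = S.π a := rfl

lemma norm_π_le (a : B) : ‖S.π a‖ ≤ ‖a‖ := NonUnitalStarAlgHom.norm_apply_le S.π a

lemma norm_π_apply_le (a : B) (v : S.H) : ‖S.π a v‖ ≤ ‖a‖ * ‖v‖ :=
  ((S.π a).le_opNorm v).trans (mul_le_mul_of_nonneg_right (S.norm_π_le a) (norm_nonneg v))

lemma π_star_inner (a : B) (u v : S.H) : ⟪S.π (star a) u, v⟫_ℂ = ⟪u, S.π a v⟫_ℂ := by
  rw [map_star, ContinuousLinearMap.star_eq_adjoint, ContinuousLinearMap.adjoint_inner_left]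

/-- `u ↦ w ι' (u* k_{n ι'})` as a vector -/
noncomputable def lv (ι' : Idx B) (u : B) : S.H := S.w ι' (star u * S.k (S.n ι'))

lemma lv_bound (ι' : Idx B) (u : B) : ‖S.lv ι' u‖ ≤ 2 * ‖u‖ := by
  unfold lv
  refine (S.w_le _ _).trans ?_
  have h1 : ‖star u * S.k (S.n ι')‖ ≤ ‖u‖ * 1 := by
    refine (norm_mul_le _ _).trans ?_
    rw [norm_star]
    exact mul_le_mul_of_nonneg_left (S.k_le _) (norm_nonneg u)
  linarith

/-- `u ⊗ v ↦ ⟪w ι' (u* k), v⟫` on `B ⊗ H`. -/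
noncomputable def lamBil (ι' : Idx B) : B →L[ℂ] S.H →L[ℂ] ℂ :=
  LinearMap.mkContinuous₂
    (LinearMap.mk₂ ℂ (fun (u : B) (v : S.H) => ⟪S.lv ι' u, v⟫_ℂ)
      (fun u u' v => by
        unfold lv
        rw [star_add, add_mul, map_add, inner_add_left])
      (fun c u v => by
        unfold lv
        rw [star_smul, smul_mul_assoc, map_smul, inner_smul_left]
        simp)
      (fun u v v' => by rw [inner_add_right])
      (fun c u v => by rw [inner_smul_right]; rfl))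
    2 (fun u v => by
      refine (norm_inner_le_norm _ _).trans ?_
      exact mul_le_mul_of_nonneg_right (S.lv_bound ι' u) (norm_nonneg v))

lemma lamBil_apply (ι' : Idx B) (u : B) (v : S.H) : S.lamBil ι' u v = ⟪S.lv ι' u, v⟫_ℂ := rfl

end Setup

namespace XData

variable {S : Setup B} (D : XData S)

/-- `y ⊗ x ↦ π y (w ι (x ι))` on `B ⊗ X`. -/
noncomputable def W (ι : Idx B) : PT B D.X →L[ℂ] S.H :=
  lift (((ContinuousLinearMap.compL ℂ D.X S.H S.H).flip ((S.w ι).comp (D.ev ι))).comp S.πL)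

lemma W_tm (ι : Idx B) (y : B) (x : D.X) : D.W ι (tm y x) = S.π y (S.w ι (D.ev ι x)) := by
  unfold W
  rw [lift_tm]
  rfl

lemma W_bound (ι : Idx B) (t : PT B D.X) : ‖D.W ι t‖ ≤ 2 * ‖t‖ := by
  refine lift_bound _ (by norm_num) (fun y x => ?_) t
  show ‖S.π y (S.w ι (D.ev ι x))‖ ≤ _
  refine (S.norm_π_apply_le _ _).trans ?_
  have h1 := S.w_le ι (D.ev ι x)
  have h2 := D.ev_le ι x
  have h3 := norm_nonneg y
  calc ‖y‖ * ‖S.w ι (D.ev ι x)‖ ≤ ‖y‖ * (2 * ‖x‖) :=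
        mul_le_mul_of_nonneg_left (h1.trans (by linarith)) h3
    _ = 2 * ‖y‖ * ‖x‖ := by ring

/-- The functional `u ⊗ t ↦ ⟪w ι' (u* k), W ι t⟫` on `B ⊗ (B ⊗ X)`. -/
noncomputable def Phi (ι' ι : Idx B) : PT B (PT B D.X) →L[ℂ] ℂ :=
  (lift (S.lamBil ι')).comp (mapR B (D.W ι))

lemma Phi_tm (ι' ι : Idx B) (u : B) (t : PT B D.X) :
    D.Phi ι' ι (tm u t) = ⟪S.lv ι' u, D.W ι t⟫_ℂ := by
  unfold Phi
  rw [ContinuousLinearMap.comp_apply, mapR_tm, lift_tm]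
  rfl

lemma Phi_bound (ι' ι : Idx B) (t : PT B (PT B D.X)) : ‖D.Phi ι' ι t‖ ≤ 4 * ‖t‖ := by
  unfold Phi
  rw [ContinuousLinearMap.comp_apply]
  have h1 : ‖lift (S.lamBil ι') (mapR B (D.W ι) t)‖ ≤ 2 * ‖mapR B (D.W ι) t‖ :=
    lift_bound _ (by norm_num) (fun u v => by
      rw [S.lamBil_apply]
      refine (norm_inner_le_norm _ _).trans ?_
      exact mul_le_mul_of_nonneg_right (S.lv_bound ι' u) (norm_nonneg v)) _
  have h2 : ‖mapR B (D.W ι) t‖ ≤ ‖D.W ι‖ * ‖t‖ := mapR_bound _ t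
  have h3 : ‖D.W ι‖ ≤ 2 := ContinuousLinearMap.opNorm_le_bound _ (by norm_num) (D.W_bound ι)
  have h4 := norm_nonneg t
  nlinarith

/-- If `star a * k = k` then `Phi` does not change under `lmul a`. -/
lemma Phi_lmul (ι' ι : Idx B) (a : B) (ha : star a * S.k (S.n ι') = S.k (S.n ι'))
    (t : PT B (PT B D.X)) :
    D.Phi ι' ι (lmul B (PT B D.X) a t) = D.Phi ι' ι t := by
  have : (D.Phi ι' ι).comp (lmul B (PT B D.X) a) = D.Phi ι' ι := PT_ext fun u t => by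
    rw [ContinuousLinearMap.comp_apply, lmul_tm, Phi_tm, Phi_tm]
    unfold Setup.lv
    rw [star_mul, mul_assoc, ha]
  exact congrArg (fun f => f t) this

/-- `y ⊗ x ↦ ⟪ζ, π y (w ι (x ι))⟫` on `B ⊗ X`. -/
noncomputable def Theta (ι : Idx B) : PT B D.X →L[ℂ] ℂ := (innerSL ℂ S.ζ).comp (D.W ι)

lemma Theta_tm (ι : Idx B) (y : B) (x : D.X) :
    D.Theta ι (tm y x) = ⟪S.ζ, S.π y (S.w ι (D.ev ι x))⟫_ℂ := by
  show ⟪S.ζ, D.W ι (tm y x)⟫_ℂ = _
  rw [W_tm]

end XData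

end Pool.MP_1c66c9_an
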