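import Pool.Agent.Lib.MP_1c66c9_an.PhilDefs

open Filter Topology

namespace Pool.MP_1c66c9_an

universe u

/-- JOB PhilA. Basic properties of the variation (bounded by `C` on pairwise disjoint lists):
nonneg, `≤ C`, monotone, superadditive on disjoint sets (concatenate lists:
`List.pairwise_append`), `‖μ E‖ ≤ vari μ E` (the list `[E]`). -/
theorem vari_props {I : Type*} (μ : Set I → ℂ) (C : ℝ)
    (hC : ∀ l : List (Set I), l.Pairwise Disjoint → (l.map fun s => ‖μ s‖).sum ≤ C) :
    (∀ E, 0 ≤ vari μ E) ∧ (∀ E, vari μ E ≤ C) ∧ (∀ E E', E ⊆ E' → vari μ E ≤ vari μ E') ∧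
    (∀ E E', Disjoint E E' → vari μ E + vari μ E' ≤ vari μ (E ∪ E')) ∧
    (∀ E, ‖μ E‖ ≤ vari μ E) := by
  have hbdd : ∀ E : Set I, BddAbove {r : ℝ | ∃ l : List (Set I), l.Pairwise Disjoint ∧
      (∀ s ∈ l, s ⊆ E) ∧ (l.map fun s => ‖μ s‖).sum = r} := by
    intro E
    refine ⟨C, ?_⟩
    rintro r ⟨l, hl, _, rfl⟩
    exact hC l hl
  have hne : ∀ E : Set I, {r : ℝ | ∃ l : List (Set I), l.Pairwise Disjoint ∧
      (∀ s ∈ l, s ⊆ E) ∧ (l.map fun s => ‖μ s‖).sum = r}.Nonempty := by
    intro E
    exact ⟨0, [], List.Pairwise.nil, by simp, by simp⟩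
  have hle : ∀ (E : Set I) (l : List (Set I)), l.Pairwise Disjoint → (∀ s ∈ l, s ⊆ E) →
      (l.map fun s => ‖μ s‖).sum ≤ vari μ E := by
    intro E l hl hs
    exact le_csSup (hbdd E) ⟨l, hl, hs, rfl⟩
  refine ⟨?_, ?_, ?_, ?_, ?_⟩
  · intro E
    have h := hle E [] List.Pairwise.nil (by simp)
    simpa using h
  · intro E
    apply csSup_le (hne E)
    rintro r ⟨l, hl, _, rfl⟩
    exact hC l hl
  · intro E E' hEE
    apply csSup_le (hne E)
    rintro r ⟨l, hl, hs, rfl⟩
    exact hle E' l hl (fun s hs' => (hs s hs').trans hEE)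
  · intro E E' hd
    have key : ∀ l : List (Set I), l.Pairwise Disjoint → (∀ s ∈ l, s ⊆ E) →
        (l.map fun s => ‖μ s‖).sum + vari μ E' ≤ vari μ (E ∪ E') := by
      intro l hl hs
      have : vari μ E' ≤ vari μ (E ∪ E') - (l.map fun s => ‖μ s‖).sum := by
        apply csSup_le (hne E')
        rintro r ⟨l', hl', hs', rfl⟩
        have h := hle (E ∪ E') (l ++ l') (by
          rw [List.pairwise_append]
          refine ⟨hl, hl', ?_⟩
          intro a ha b hb
          exact Set.disjoint_of_subset (hs a ha) (hs' b hb) hd) (by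
          intro s hs2
          rcases List.mem_append.1 hs2 with h2 | h2
          · exact (hs s h2).trans Set.subset_union_left
          · exact (hs' s h2).trans Set.subset_union_right)
        rw [List.map_append, List.sum_append] at h
        linarith
      linarith
    have : vari μ E ≤ vari μ (E ∪ E') - vari μ E' := by
      apply csSup_le (hne E)
      rintro r ⟨l, hl, hs, rfl⟩
      have h := key l hl hs
      linarith
    linarith
  · intro E
    have h := hle E [E] (by simp) (by simp)
    simpa using h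

end Pool.MP_1c66c9_an
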