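import Pool.Agent.Lib.MP_1c66c9_an.Core

open Filter Topology

namespace Pool.MP_1c66c9_an

universe u

/-- The variation of a set function on a set. -/
noncomputable def vari {I : Type*} (μ : Set I → ℂ) (E : Set I) : ℝ :=
  sSup {r : ℝ | ∃ l : List (Set I), l.Pairwise Disjoint ∧ (∀ s ∈ l, s ⊆ E) ∧
    (l.map fun s => ‖μ s‖).sum = r}

end Pool.MP_1c66c9_an
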