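import Mathlib

open scoped ComplexOrder

namespace Pool.MP_1c66c9_an

universe u

/-- A norm-one functional with `f 1 = 1` is real on self-adjoint elements. -/
theorem stateA_real {B : Type u} [CStarAlgebra B] [Nontrivial B] (f : B →L[ℂ] ℂ) (hf : ‖f‖ ≤ 1)
    (hf1 : f 1 = 1) (a : B) (ha : IsSelfAdjoint a) : (f a).im = 0 := by
  have key : ∀ t : ℝ, ‖f a + Complex.I * t‖ ^ 2 ≤ ‖a‖ ^ 2 + t ^ 2 := by
    intro t
    have h1 : f a + Complex.I * t = f (a + (Complex.I * t) • (1 : B)) := by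
      rw [map_add, map_smul, hf1, smul_eq_mul, mul_one]
    have h2 : ‖f a + Complex.I * t‖ ≤ ‖a + (Complex.I * t) • (1 : B)‖ := by
      rw [h1]
      calc _ ≤ ‖f‖ * ‖a + (Complex.I * t) • (1 : B)‖ := f.le_opNorm _
        _ ≤ 1 * ‖a + (Complex.I * t) • (1 : B)‖ := by gcongr
        _ = _ := one_mul _
    have h3 : ‖a + (Complex.I * t) • (1 : B)‖ ^ 2 ≤ ‖a‖ ^ 2 + t ^ 2 := by
      rw [sq, ← CStarRing.norm_star_mul_self]
      have h4 : star (a + (Complex.I * t) • (1 : B)) * (a + (Complex.I * t) • (1 : B)) =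
          a * a + ((t : ℂ) ^ 2) • (1 : B) := by
        rw [star_add, star_smul, star_one, ha.star_eq, add_mul, mul_add, mul_add]
        simp only [mul_smul_comm, smul_mul_assoc, mul_one, one_mul, smul_smul]
        have h5 : star (Complex.I * (t : ℂ)) = -(Complex.I * t) := by
          simp
        rw [h5]
        have h6 : Complex.I * (t : ℂ) * -(Complex.I * t) = (t : ℂ) ^ 2 := by
          linear_combination -(t : ℂ) ^ 2 * Complex.I_mul_I
        rw [h6, neg_smul]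
        abel
      rw [h4]
      calc _ ≤ ‖a * a‖ + ‖((t : ℂ) ^ 2) • (1 : B)‖ := norm_add_le _ _
        _ ≤ ‖a‖ * ‖a‖ + t ^ 2 := by
          refine add_le_add (norm_mul_le _ _) ?_
          rw [norm_smul, norm_one, mul_one, norm_pow, Complex.norm_real]
          simp
        _ = _ := by ring
    calc _ ≤ ‖a + (Complex.I * t) • (1 : B)‖ ^ 2 := by gcongr
      _ ≤ _ := h3
  have key2 : ∀ t : ℝ, (f a).re ^ 2 + (f a).im ^ 2 + 2 * (f a).im * t ≤ ‖a‖ ^ 2 := by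
    intro t
    have h1 := key t
    rw [← Complex.normSq_eq_norm_sq, Complex.normSq_apply] at h1
    simp at h1
    nlinarith
  by_contra h
  have h1 := key2 ((‖a‖ ^ 2 + 1) / (2 * (f a).im))
  have h2 : 2 * (f a).im * ((‖a‖ ^ 2 + 1) / (2 * (f a).im)) = ‖a‖ ^ 2 + 1 := by
    field_simp
  nlinarith [sq_nonneg (f a).re, sq_nonneg (f a).im]

/-- A norm-one functional with `f 1 = 1` is positive. -/
theorem stateA_pos {B : Type u} [CStarAlgebra B] [Nontrivial B] [PartialOrder B] [StarOrderedRing B]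
    (f : B →L[ℂ] ℂ) (hf : ‖f‖ ≤ 1) (hf1 : f 1 = 1) (a : B) (ha : 0 ≤ a) : 0 ≤ f a := by
  have hsa : IsSelfAdjoint a := IsSelfAdjoint.of_nonneg ha
  have him := stateA_real f hf hf1 a hsa
  have h1 : ‖algebraMap ℝ B ‖a‖ - a‖ ≤ ‖a‖ := by
    rw [CStarAlgebra.norm_le_iff_le_algebraMap _ (norm_nonneg a)
      (sub_nonneg.2 hsa.le_algebraMap_norm_self)]
    exact sub_le_self _ ha
  have h2 : f (algebraMap ℝ B ‖a‖ - a) = ((‖a‖ : ℂ)) - f a := by
    have h3 : algebraMap ℝ B ‖a‖ = ((‖a‖ : ℂ)) • (1 : B) := by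
      rw [Algebra.algebraMap_eq_smul_one]
      exact (Complex.coe_smul _ _).symm
    rw [map_sub, h3, map_smul, hf1, smul_eq_mul, mul_one]
  have h3 : ‖((‖a‖ : ℂ)) - f a‖ ≤ ‖a‖ := by
    rw [← h2]
    calc _ ≤ ‖f‖ * ‖algebraMap ℝ B ‖a‖ - a‖ := f.le_opNorm _
      _ ≤ 1 * ‖a‖ := by gcongr
      _ = _ := one_mul _
  have h4 : ‖a‖ - (f a).re ≤ ‖a‖ := by
    have h5 := Complex.re_le_norm (((‖a‖ : ℂ)) - f a)
    simp only [Complex.sub_re, Complex.ofReal_re] at h5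
    exact h5.trans h3
  rw [Complex.le_def]
  refine ⟨?_, ?_⟩
  · simpa using h4
  · simp [him]

/-- JOB StateA. A norm-one functional with `f 1 = 1` comes from a GNS triple.

Proof. (1) `f a` is real for self-adjoint `a`: if `f a = α + i β`, then for real `t`
`α² + (β + t)² = |f (a + i t)|² ≤ ‖a + i t‖² = ‖a² + t²‖ ≤ ‖a‖² + t²` for all `t`, so `β = 0`.
(2) `0 ≤ f a` for `0 ≤ a`: scale so that `‖a‖ ≤ 1`; then `‖1 - a‖ ≤ 1`, so
`|1 - f a| ≤ 1`, so `f a ≥ 0` (use the spectral order `CStarAlgebra.spectralOrder` /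
`open scoped ComplexOrder CStarAlgebra`-style local instances `PartialOrder B`, `StarOrderedRing B`).
(3) Use Mathlib's GNS construction `PositiveLinearMap.GNS`, `PositiveLinearMap.gnsStarAlgHom`
(Mathlib/Analysis/CStarAlgebra/GelfandNaimarkSegal.lean), `ζ` = class of `1`. -/
theorem exists_gns (B : Type u) [CStarAlgebra B] (f : B →L[ℂ] ℂ) (hf : ‖f‖ ≤ 1)
    (hf1 : f 1 = 1) :
    ∃ (H : Type u) (_ : NormedAddCommGroup H) (_ : InnerProductSpace ℂ H)
      (_ : CompleteSpace H) (π : B →⋆ₐ[ℂ] (H →L[ℂ] H)) (ζ : H),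
      ‖ζ‖ = 1 ∧ ∀ a, f a = inner ℂ ζ (π a ζ) := by
  have hnt : Nontrivial B := by
    refine ⟨⟨1, 0, fun h => ?_⟩⟩
    rw [h, map_zero] at hf1
    exact zero_ne_one hf1
  let _ : PartialOrder B := CStarAlgebra.spectralOrder B
  have : StarOrderedRing B := CStarAlgebra.spectralOrderedRing B
  let φ : B →ₚ[ℂ] ℂ := PositiveLinearMap.mk₀ (f : B →ₗ[ℂ] ℂ) (stateA_pos f hf hf1)
  have hφ : ∀ a, φ a = f a := fun a => rfl
  have hin : ∀ a, f a = inner ℂ ((φ.toPreGNS 1 : φ.PreGNS) : φ.GNS)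
      (φ.gnsStarAlgHom a ((φ.toPreGNS 1 : φ.PreGNS) : φ.GNS)) := by
    intro a
    have h1 : φ.gnsStarAlgHom a ((φ.toPreGNS 1 : φ.PreGNS) : φ.GNS) =
        ((φ.leftMulMapPreGNS a (φ.toPreGNS 1) : φ.PreGNS) : φ.GNS) :=
      PositiveLinearMap.gnsNonUnitalStarAlgHom_apply_coe φ
    rw [h1, UniformSpace.Completion.inner_coe, PositiveLinearMap.preGNS_inner_def, hφ]
    simp
  refine ⟨φ.GNS, inferInstance, inferInstance, inferInstance, φ.gnsStarAlgHom,
    ((φ.toPreGNS 1 : φ.PreGNS) : φ.GNS), ?_, hin⟩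
  have h1 := hin 1
  rw [map_one φ.gnsStarAlgHom, one_apply_eq_self, hf1, inner_self_eq_norm_sq_to_K] at h1
  have h2 : ‖((φ.toPreGNS 1 : φ.PreGNS) : φ.GNS)‖ ^ 2 = 1 := by
    have h3 : ((‖((φ.toPreGNS 1 : φ.PreGNS) : φ.GNS)‖ ^ 2 : ℝ) : ℂ) = 1 := by
      rw [h1]; push_cast; rfl
    exact Complex.ofReal_injective (by rw [h3, Complex.ofReal_one])
  nlinarith [norm_nonneg ((φ.toPreGNS 1 : φ.PreGNS) : φ.GNS),
    sq_nonneg (‖((φ.toPreGNS 1 : φ.PreGNS) : φ.GNS)‖ - 1)]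

end Pool.MP_1c66c9_an
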