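import Mathlib

namespace Pool.MP_1c66c9_an

universe u

/-- JOB StateC. Bessel inequality for an almost orthonormal family: if
`|⟪e i, e j⟫ - δ_ij| ≤ η` and `r η ≤ 3` then `∑ |⟪e i, z⟫|² ≤ 4 ‖z‖²`.

Proof. `c i = ⟪e i, z⟫`, `S = ∑ |c i|²`, `v = ∑ c i • e i`: `S = ⟪v, z⟫` in absolute value
`≤ ‖v‖ ‖z‖`, `‖v‖² = ∑ conj (c i) c j ⟪e i, e j⟫ ≤ S + η (∑ |c i|)² ≤ (1 + η r) S ≤ 4 S`. So
`S ≤ 2 √S ‖z‖`. -/
theorem bessel_almost {H : Type*} [NormedAddCommGroup H] [InnerProductSpace ℂ H] {r : ℕ}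
    (e : Fin r → H) (η : ℝ) (hη : 0 ≤ η) (hr : (r : ℝ) * η ≤ 3)
    (he : ∀ i j, ‖inner ℂ (e i) (e j) - (if i = j then 1 else 0)‖ ≤ η) (z : H) :
    ∑ i, ‖inner ℂ (e i) z‖ ^ 2 ≤ 4 * ‖z‖ ^ 2 := by
  set c : Fin r → ℂ := fun i => inner ℂ (e i) z with hc
  set S : ℝ := ∑ i, ‖c i‖ ^ 2 with hS
  set v : H := ∑ i, c i • e i with hv
  have hS0 : 0 ≤ S := Finset.sum_nonneg fun i _ => sq_nonneg _
  -- `⟪v, z⟫ = S`
  have h1 : inner ℂ v z = (S : ℂ) := by
    rw [hv, sum_inner, hS]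
    push_cast
    refine Finset.sum_congr rfl fun i _ => ?_
    rw [inner_smul_left]
    have : inner ℂ (e i) z = c i := rfl
    rw [this, mul_comm, Complex.mul_conj, Complex.normSq_eq_norm_sq]
    push_cast
    rfl
  have h2 : S ≤ ‖v‖ * ‖z‖ := by
    have := norm_inner_le_norm (𝕜 := ℂ) v z
    rw [h1, Complex.norm_real, Real.norm_of_nonneg hS0] at this
    exact this
  -- `‖v‖²`
  have h3 : (inner ℂ v v : ℂ) = (S : ℂ) +
      ∑ i, ∑ j, (starRingEnd ℂ) (c i) * (c j * (inner ℂ (e i) (e j) - (if i = j then 1 else 0))) := by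
    have e1 : (inner ℂ v v : ℂ) = ∑ i, ∑ j, (starRingEnd ℂ) (c i) * (c j * inner ℂ (e i) (e j)) := by
      rw [hv, sum_inner]
      refine Finset.sum_congr rfl fun i _ => ?_
      rw [inner_sum]
      refine Finset.sum_congr rfl fun j _ => ?_
      rw [inner_smul_left, inner_smul_right]
    have e2 : (S : ℂ) = ∑ i, ∑ j, (starRingEnd ℂ) (c i) * (c j * (if i = j then 1 else 0)) := by
      rw [hS]
      push_cast
      refine Finset.sum_congr rfl fun i _ => ?_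
      rw [Finset.sum_eq_single i]
      · rw [if_pos rfl, mul_one, mul_comm, Complex.mul_conj, Complex.normSq_eq_norm_sq]
        push_cast
        rfl
      · intro j _ hj
        rw [if_neg (Ne.symm hj)]
        simp
      · intro h
        exact absurd (Finset.mem_univ i) h
    rw [e1, e2, ← Finset.sum_add_distrib]
    refine Finset.sum_congr rfl fun i _ => ?_
    rw [← Finset.sum_add_distrib]
    refine Finset.sum_congr rfl fun j _ => ?_
    ring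
  have h4 : ‖v‖ ^ 2 ≤ S + η * (∑ i, ‖c i‖) ^ 2 := by
    have e1 : ‖v‖ ^ 2 = ‖(inner ℂ v v : ℂ)‖ := by
      rw [inner_self_eq_norm_sq_to_K, norm_pow]
      simp
    rw [e1, h3]
    refine (norm_add_le _ _).trans ?_
    rw [Complex.norm_real, Real.norm_of_nonneg hS0]
    have e2 : ‖∑ i, ∑ j, (starRingEnd ℂ) (c i) *
        (c j * (inner ℂ (e i) (e j) - (if i = j then 1 else 0)))‖
        ≤ ∑ i, ∑ j, ‖c i‖ * (‖c j‖ * η) := by
      refine (norm_sum_le _ _).trans (Finset.sum_le_sum fun i _ => ?_)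
      refine (norm_sum_le _ _).trans (Finset.sum_le_sum fun j _ => ?_)
      rw [norm_mul, norm_mul, RCLike.norm_conj]
      exact mul_le_mul_of_nonneg_left (mul_le_mul_of_nonneg_left (he i j) (norm_nonneg _))
        (norm_nonneg _)
    have e3 : ∑ i, ∑ j, ‖c i‖ * (‖c j‖ * η) = η * (∑ i, ‖c i‖) ^ 2 := by
      rw [sq, Finset.sum_mul_sum, Finset.mul_sum]
      refine Finset.sum_congr rfl fun i _ => ?_
      rw [Finset.mul_sum]
      refine Finset.sum_congr rfl fun j _ => ?_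
      ring
    linarith
  have h5 : (∑ i, ‖c i‖) ^ 2 ≤ r * S := by
    have := sq_sum_le_card_mul_sum_sq (s := (Finset.univ : Finset (Fin r))) (f := fun i => ‖c i‖)
    simpa using this
  have h6 : ‖v‖ ^ 2 ≤ 4 * S := by
    have : η * (∑ i, ‖c i‖) ^ 2 ≤ η * (r * S) := mul_le_mul_of_nonneg_left h5 hη
    nlinarith
  have h7 : S ^ 2 ≤ 4 * S * ‖z‖ ^ 2 := by
    have hvz : 0 ≤ ‖v‖ * ‖z‖ := mul_nonneg (norm_nonneg _) (norm_nonneg _)
    calc S ^ 2 ≤ (‖v‖ * ‖z‖) ^ 2 := pow_le_pow_left₀ hS0 h2 2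
      _ = ‖v‖ ^ 2 * ‖z‖ ^ 2 := by ring
      _ ≤ 4 * S * ‖z‖ ^ 2 := mul_le_mul_of_nonneg_right h6 (sq_nonneg _)
  rcases eq_or_lt_of_le hS0 with h | h
  · rw [← h]
    positivity
  · have : S * S ≤ S * (4 * ‖z‖ ^ 2) := by nlinarith
    exact le_of_mul_le_mul_left this h

end Pool.MP_1c66c9_an
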