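import Pool.Agent.Lib.MP_1c66c9_an.StateA
import Pool.Agent.Lib.MP_1c66c9_an.StateC

open Filter Topology

namespace Pool.MP_1c66c9_an

universe u

private lemma stateD1_inner {B : Type u} [CStarAlgebra B] {H : Type u} [NormedAddCommGroup H]
    [InnerProductSpace ℂ H] [CompleteSpace H] (π : B →⋆ₐ[ℂ] (H →L[ℂ] H)) (ζ : H) (v y : B) :
    inner ℂ (π v ζ) (π y ζ) = inner ℂ ζ (π (star v * y) ζ) := by
  rw [map_mul, map_star, ContinuousLinearMap.star_eq_adjoint]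
  show inner ℂ (π v ζ) (π y ζ) = inner ℂ ζ ((ContinuousLinearMap.adjoint (π v)) (π y ζ))
  rw [ContinuousLinearMap.adjoint_inner_right]

private lemma stateD1_norm {B : Type u} [CStarAlgebra B] {H : Type u} [NormedAddCommGroup H]
    [InnerProductSpace ℂ H] [CompleteSpace H] (π : B →⋆ₐ[ℂ] (H →L[ℂ] H)) (ζ : H) (hζ : ‖ζ‖ = 1)
    (y : B) : ‖π y ζ‖ ≤ ‖y‖ := by
  have h1 : ‖π y ζ‖ ≤ ‖π y‖ * ‖ζ‖ := (π y).le_opNorm ζ
  have h2 : ‖π y‖ ≤ ‖y‖ := NonUnitalStarAlgHom.norm_apply_le π y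
  rw [hζ, mul_one] at h1
  exact h1.trans h2

/-- JOB StateD1 (first part). A functional with `f k = 1` is `k`-invariant and kills `g* g` if `g k = 0`.

Proof. By `exists_gns`, `f a = ⟪ζ, π a ζ⟫`. `‖π k‖ ≤ ‖k‖ ≤ 1` and `⟪ζ, π k ζ⟫ = 1` give
`‖π k ζ - ζ‖² = ‖π k ζ‖² - 2 Re ⟪ζ, π k ζ⟫ + 1 ≤ 0`, so `π k ζ = ζ`. Hence
`f (y k) = ⟪ζ, π y (π k ζ)⟫ = f y` and `f (y * g) = f (y * g * k) = 0` if `g * k = 0`. -/
theorem state_mul_k {B : Type u} [CStarAlgebra B] {f : B →L[ℂ] ℂ} (hf : ‖f‖ ≤ 1)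
    (hf1 : f 1 = 1) {k : B} (hk : ‖k‖ ≤ 1) (hfk : f k = 1) (y : B) : f (y * k) = f y := by
  obtain ⟨H, _, _, _, π, ζ, hζ, hπ⟩ := exists_gns B f hf hf1
  have h1 : ‖π k ζ‖ ≤ 1 := (stateD1_norm π ζ hζ k).trans hk
  have h2 : π k ζ = ζ := by
    have h3 : ‖π k ζ - ζ‖ ^ 2 ≤ 0 := by
      rw [@norm_sub_sq ℂ]
      have h4 : inner ℂ (π k ζ) ζ = 1 := by
        rw [← inner_conj_symm, ← hπ, hfk]
        simp
      rw [h4, hζ]
      have h5 : ‖π k ζ‖ ^ 2 ≤ 1 := by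
        have := pow_le_pow_left₀ (norm_nonneg (π k ζ)) h1 2
        simpa using this
      have h6 : RCLike.re (1 : ℂ) = 1 := by simp
      rw [h6]
      linarith
    have h7 : ‖π k ζ - ζ‖ = 0 := by
      have := sq_nonneg ‖π k ζ - ζ‖
      exact pow_eq_zero_iff (two_ne_zero) |>.1 (le_antisymm h3 this)
    exact sub_eq_zero.1 (norm_eq_zero.1 h7)
  rw [hπ, hπ, map_mul]
  show inner ℂ ζ (π y (π k ζ)) = inner ℂ ζ (π y ζ)
  rw [h2]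

/-- JOB StateD1 (second part). Bessel for functionals: for a state `f` and `v₁, …, v_r ∈ B` with
`|f (vᵢ* vⱼ) - δᵢⱼ| ≤ η`, `r η ≤ 3`: `∑ |f (vᵢ* y)|² ≤ 4 ‖y‖²`.
(GNS triple of `f`, `e i = π (v i) ζ`, `z = π y ζ`, `bessel_almost`.) -/
theorem state_bessel {B : Type u} [CStarAlgebra B] {f : B →L[ℂ] ℂ} (hf : ‖f‖ ≤ 1)
    (hf1 : f 1 = 1) {r : ℕ} (v : Fin r → B) (η : ℝ) (hη : 0 ≤ η) (hr : (r : ℝ) * η ≤ 3)
    (hv : ∀ i j, ‖f (star (v i) * v j) - (if i = j then 1 else 0)‖ ≤ η) (y : B) :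
    ∑ i, ‖f (star (v i) * y)‖ ^ 2 ≤ 4 * ‖y‖ ^ 2 := by
  obtain ⟨H, _, _, _, π, ζ, hζ, hπ⟩ := exists_gns B f hf hf1
  have h1 := bessel_almost (fun i => π (v i) ζ) η hη hr (by
    intro i j
    rw [stateD1_inner, ← hπ]
    exact hv i j) (π y ζ)
  have h2 : ∀ i, inner ℂ (π (v i) ζ) (π y ζ) = f (star (v i) * y) := by
    intro i
    rw [stateD1_inner, ← hπ]
  simp only [h2] at h1
  refine h1.trans ?_
  have h3 := pow_le_pow_left₀ (norm_nonneg (π y ζ)) (stateD1_norm π ζ hζ y) 2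
  linarith

end Pool.MP_1c66c9_an
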